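import Pool.Agent.PPB.Defs

/-!
# Basic lemmas on `Ex`, `ind`, `Z`, `top`
-/

namespace PPB

open Finset

section ind

lemma ind_pos {p : Prop} (h : p) : ind p = 1 := by simp [ind, h]

lemma ind_neg {p : Prop} (h : ¬ p) : ind p = 0 := by simp [ind, h]

lemma ind_nonneg (p : Prop) : 0 ≤ ind p := by unfold ind; split_ifs <;> norm_num

lemma ind_le_one (p : Prop) : ind p ≤ 1 := by unfold ind; split_ifs <;> norm_num

lemma ind_mono {p r : Prop} (h : p → r) : ind p ≤ ind r := by
  by_cases hp : p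
  · rw [ind_pos hp, ind_pos (h hp)]
  · rw [ind_neg hp]; exact ind_nonneg r

lemma ind_congr {p r : Prop} (h : p ↔ r) : ind p = ind r := by rw [propext h]

lemma ind_and (p r : Prop) : ind (p ∧ r) = ind p * ind r := by
  by_cases hp : p <;> by_cases hr : r <;> simp [ind, hp, hr]

lemma ind_or_le (p r : Prop) : ind (p ∨ r) ≤ ind p + ind r := by
  by_cases hp : p <;> by_cases hr : r <;> simp [ind, hp, hr]

lemma ind_not (p : Prop) : ind (¬ p) = 1 - ind p := by
  by_cases hp : p <;> simp [ind, hp]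

/-- union bound -/
lemma ind_exists_le {ι : Type*} (s : Finset ι) (p : ι → Prop) :
    ind (∃ i ∈ s, p i) ≤ ∑ i ∈ s, ind (p i) := by
  by_cases h : ∃ i ∈ s, p i
  · obtain ⟨i, hi, hp⟩ := h
    calc ind (∃ i ∈ s, p i) ≤ 1 := ind_le_one _
      _ = ind (p i) := (ind_pos hp).symm
      _ ≤ ∑ i ∈ s, ind (p i) := Finset.single_le_sum (f := fun i => ind (p i))
          (fun j _ => ind_nonneg _) hi
  · rw [ind_neg h]; exact Finset.sum_nonneg fun j _ => ind_nonneg _

lemma ind_forall {ι : Type*} (s : Finset ι) (p : ι → Prop) :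
    ind (∀ i ∈ s, p i) = ∏ i ∈ s, ind (p i) := by
  by_cases h : ∀ i ∈ s, p i
  · rw [ind_pos h]; symm; exact Finset.prod_eq_one fun i hi => ind_pos (h i hi)
  · rw [ind_neg h]; push Not at h; obtain ⟨i, hi, hp⟩ := h
    symm; exact Finset.prod_eq_zero hi (ind_neg hp)

end ind

variable {V : Type} [Fintype V] [DecidableEq V]

lemma mem_Om {n : ℕ} {x : V → ℕ} : x ∈ Om V n ↔ ∀ v, x v < 2 * n := by
  simp [Om, Fintype.mem_piFinset]

lemma card_Om (n : ℕ) : ((Om V n).card : ℝ) = (2 * n : ℝ) ^ Fintype.card V := by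
  simp [Om, Fintype.card_piFinset]

lemma den_pos {n : ℕ} (hn : 0 < n) : (0 : ℝ) < (2 * n : ℝ) ^ Fintype.card V := by positivity

lemma Ex_congr {n : ℕ} {f g : (V → ℕ) → ℝ} (h : ∀ x ∈ Om V n, f x = g x) : Ex n f = Ex n g := by
  unfold Ex; rw [Finset.sum_congr rfl h]

lemma Ex_mono {n : ℕ} {f g : (V → ℕ) → ℝ} (h : ∀ x ∈ Om V n, f x ≤ g x) : Ex n f ≤ Ex n g := by
  unfold Ex
  exact div_le_div_of_nonneg_right (Finset.sum_le_sum h) (by positivity)

lemma Ex_nonneg {n : ℕ} {f : (V → ℕ) → ℝ} (h : ∀ x ∈ Om V n, 0 ≤ f x) : 0 ≤ Ex n f := by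
  unfold Ex
  exact div_nonneg (Finset.sum_nonneg h) (by positivity)

lemma Ex_add {n : ℕ} (f g : (V → ℕ) → ℝ) : Ex n (fun x => f x + g x) = Ex n f + Ex n g := by
  unfold Ex; rw [Finset.sum_add_distrib, add_div]

lemma Ex_sub {n : ℕ} (f g : (V → ℕ) → ℝ) : Ex n (fun x => f x - g x) = Ex n f - Ex n g := by
  unfold Ex; rw [Finset.sum_sub_distrib, sub_div]

lemma Ex_mul_left {n : ℕ} (c : ℝ) (f : (V → ℕ) → ℝ) : Ex n (fun x => c * f x) = c * Ex n f := by
  unfold Ex; rw [← Finset.mul_sum, mul_div_assoc]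

lemma Ex_mul_right {n : ℕ} (c : ℝ) (f : (V → ℕ) → ℝ) : Ex n (fun x => f x * c) = Ex n f * c := by
  unfold Ex; rw [← Finset.sum_mul]; ring

lemma Ex_sum {n : ℕ} {ι : Type*} (s : Finset ι) (f : ι → (V → ℕ) → ℝ) :
    Ex n (fun x => ∑ i ∈ s, f i x) = ∑ i ∈ s, Ex n (f i) := by
  unfold Ex; rw [Finset.sum_comm, Finset.sum_div]

lemma Ex_const {n : ℕ} (hn : 0 < n) (c : ℝ) : Ex n (fun _ : V → ℕ => c) = c := by
  unfold Ex
  rw [Finset.sum_const, nsmul_eq_mul, card_Om]
  have := den_pos (V := V) hn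
  field_simp

/-- Averaging over a single coordinate. -/
lemma Ex_update {n : ℕ} (hn : 0 < n) (b : V) (g : (V → ℕ) → ℝ) :
    Ex n g = Ex n (fun x => (∑ j ∈ range (2 * n), g (Function.update x b j)) / (2 * n)) := by
  have key : ∑ x ∈ Om V n, ∑ j ∈ range (2 * n), g (Function.update x b j)
      = ∑ x ∈ Om V n, ∑ _j ∈ range (2 * n), g x := by
    rw [← Finset.sum_product', ← Finset.sum_product']
    refine Finset.sum_nbij' (fun p => (Function.update p.1 b p.2, p.1 b))
      (fun p => (Function.update p.1 b p.2, p.1 b)) ?_ ?_ ?_ ?_ ?_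
    · rintro ⟨x, j⟩ h
      simp only [Finset.mem_product, Finset.mem_range, mem_Om] at h ⊢
      refine ⟨fun v => ?_, h.1 b⟩
      by_cases hv : v = b
      · subst hv; simp [h.2]
      · simp [hv, h.1 v]
    · rintro ⟨x, j⟩ h
      simp only [Finset.mem_product, Finset.mem_range, mem_Om] at h ⊢
      refine ⟨fun v => ?_, h.1 b⟩
      by_cases hv : v = b
      · subst hv; simp [h.2]
      · simp [hv, h.1 v]
    · rintro ⟨x, j⟩ _; simp
    · rintro ⟨x, j⟩ _; simp
    · rintro ⟨x, j⟩ _; rfl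
  unfold Ex
  congr 1
  rw [← Finset.sum_div, key]
  simp only [Finset.sum_const, Finset.card_range, nsmul_eq_mul]
  rw [← Finset.mul_sum]
  have : (2 * (n : ℝ)) ≠ 0 := by positivity
  push_cast
  field_simp

/-- Resampling: if `f` and the `h w j` do not depend on the coordinates in `B`, then the expectation
of `f x * ∏_{w∈B} h w (x w) x` is obtained by averaging each factor over its own coordinate. -/
theorem Ex_resample {n : ℕ} (hn : 0 < n) (B : Finset V) (f : (V → ℕ) → ℝ)
    (h : V → ℕ → (V → ℕ) → ℝ)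
    (hf : ∀ w ∈ B, ∀ x j, f (Function.update x w j) = f x)
    (hh : ∀ w ∈ B, ∀ w' ∈ B, ∀ i x j, h w' i (Function.update x w j) = h w' i x) :
    Ex n (fun x => f x * ∏ w ∈ B, h w (x w) x)
      = Ex n (fun x => f x * ∏ w ∈ B, ((∑ j ∈ range (2 * n), h w j x) / (2 * n))) := by
  induction B using Finset.induction_on generalizing f with
  | empty => simp
  | insert b B' hb ih =>
    have h1 : Ex n (fun x => f x * ∏ w ∈ insert b B', h w (x w) x)
        = Ex n (fun x => (f x * h b (x b) x) * ∏ w ∈ B', h w (x w) x) :=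
      Ex_congr fun x _ => by rw [Finset.prod_insert hb]; ring
    rw [h1, ih (fun x => f x * h b (x b) x) ?_ ?_]
    · rw [Ex_update hn b]
      refine Ex_congr fun x _ => ?_
      rw [Finset.prod_insert hb]
      have h2 : ∀ j, (f (Function.update x b j) * h b ((Function.update x b j) b)
          (Function.update x b j)) * ∏ w ∈ B', ((∑ i ∈ range (2 * n), h w i
            (Function.update x b j)) / (2 * n))
          = f x * h b j x * ∏ w ∈ B', ((∑ i ∈ range (2 * n), h w i x) / (2 * n)) := by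
        intro j
        rw [hf b (Finset.mem_insert_self _ _), hh b (Finset.mem_insert_self _ _) b
          (Finset.mem_insert_self _ _)]
        simp only [Function.update_self]
        congr 1
        refine Finset.prod_congr rfl fun w hw => ?_
        congr 1
        refine Finset.sum_congr rfl fun i _ => ?_
        exact hh b (Finset.mem_insert_self _ _) w (Finset.mem_insert_of_mem hw) i x j
      simp only [h2]
      rw [← Finset.sum_mul, ← Finset.mul_sum]
      ring
    · intro w hw x j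
      have hwb : w ≠ b := fun e => hb (e ▸ hw)
      rw [hf w (Finset.mem_insert_of_mem hw), hh w (Finset.mem_insert_of_mem hw) b
        (Finset.mem_insert_self _ _), Function.update_of_ne (Ne.symm hwb)]
    · intro w hw w' hw' i x j
      exact hh w (Finset.mem_insert_of_mem hw) w' (Finset.mem_insert_of_mem hw') i x j

/-- Special case of `Ex_resample`: factors depending on a single coordinate only. -/
theorem Ex_prod {n : ℕ} (hn : 0 < n) (B : Finset V) (f : (V → ℕ) → ℝ) (h : V → ℕ → ℝ)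
    (hf : ∀ w ∈ B, ∀ x j, f (Function.update x w j) = f x) :
    Ex n (fun x => f x * ∏ w ∈ B, h w (x w))
      = Ex n f * ∏ w ∈ B, ((∑ j ∈ range (2 * n), h w j) / (2 * n)) := by
  rw [← Ex_mul_right]
  exact Ex_resample hn B f (fun w j _ => h w j) hf (fun _ _ _ _ _ _ _ => rfl)

lemma mem_Z {n r : ℕ} {x : V → ℕ} {v : V} : v ∈ Z n r x ↔ x v < n - r := by simp [Z]

lemma Z_anti {n r s : ℕ} (h : r ≤ s) (x : V → ℕ) : Z n s x ⊆ Z n r x := by
  intro v hv; rw [mem_Z] at hv ⊢; omega

lemma mem_Cv {H : Finset (Finset V)} {n r : ℕ} {x : V → ℕ} {w : V} :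
    w ∈ Cv H n r x ↔ ∃ A ∈ H, w ∈ A ∧ A.erase w ⊆ Z n r x := by simp [Cv]

lemma mem_Lab {H : Finset (Finset V)} {B : Finset V} {n r : ℕ} {x : V → ℕ} {w : V} :
    w ∈ Lab H B n r x ↔ w ∈ B ∧ ∃ A ∈ H, A ∩ B = {w} ∧ A.erase w ⊆ Z n r x := by simp [Lab]

lemma mem_alive {H : Finset (Finset V)} {n r : ℕ} {x : V → ℕ} {A : Finset V} :
    A ∈ alive H n r x ↔ A ∈ H ∧ A ⊆ Z n r x := by simp [alive]

lemma top_mem_Om {n : ℕ} (hn : 0 < n) (S : Finset V) {x : V → ℕ} (hx : x ∈ Om V n) :
    top S x ∈ Om V n := by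
  rw [mem_Om] at hx ⊢
  intro v; unfold top; split_ifs
  · omega
  · exact hx v

lemma Z_top {n r : ℕ} (hr : r < n) (S : Finset V) (x : V → ℕ) :
    Z n r (top S x) = S ∪ Z n r x := by
  ext v; simp only [mem_Z, Finset.mem_union, top]
  by_cases hv : v ∈ S
  · simp [hv]; omega
  · simp [hv]

/-- `Z n r x` depends on the coordinates only through the indicators; updating. -/
lemma Z_update {n r : ℕ} (x : V → ℕ) (b : V) (j : ℕ) :
    Z n r (Function.update x b j) = if j < n - r then insert b (Z n r x) else (Z n r x).erase b := by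
  ext v
  by_cases hv : v = b
  · subst hv
    by_cases hj : j < n - r <;> simp [mem_Z, hj]
  · by_cases hj : j < n - r <;> simp [mem_Z, hj, hv]

/-- probability of a single position below `n - s` -/
lemma sum_ind_lt {n s : ℕ} (hn : 0 < n) (hs : s ≤ n) :
    (∑ j ∈ range (2 * n), ind (j < n - s)) / (2 * n) = q n s := by
  have : ∑ j ∈ range (2 * n), ind (j < n - s) = ((n : ℝ) - s) := by
    have h1 : ∀ j ∈ range (2 * n), ind (j < n - s) = if j ∈ range (n - s) then (1 : ℝ) else 0 := by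
      intro j _; simp [ind]
    rw [Finset.sum_congr rfl h1, Finset.sum_ite_mem]
    have h2 : range (2 * n) ∩ range (n - s) = range (n - s) := by
      ext j; simp; omega
    rw [h2]
    simp [Nat.cast_sub hs]
  rw [this, q]

/-- Exchange identity: for `G` depending only on the sets `Z n i x`, `i ≤ r`, and `r ≤ s < n`. -/
theorem Ex_exch {n r s : ℕ} (hrs : r ≤ s) (hs : s < n) (S : Finset V) (G : (V → ℕ) → ℝ)
    (hG : ∀ x y : V → ℕ, (∀ i ≤ r, ∀ v, (x v < n - i ↔ y v < n - i)) → G x = G y) :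
    Ex n (fun x => ind (S ⊆ Z n s x) * G x) = q n s ^ S.card * Ex n (fun x => G (top S x)) := by
  have hn : 0 < n := by omega
  have h1 : Ex n (fun x => ind (S ⊆ Z n s x) * G x)
      = Ex n (fun x => G (top S x) * ∏ v ∈ S, ind (x v < n - s)) := by
    refine Ex_congr fun x _ => ?_
    rw [← ind_forall]
    by_cases h : S ⊆ Z n s x
    · have h' : ∀ v ∈ S, x v < n - s := fun v hv => mem_Z.1 (h hv)
      rw [ind_pos h, ind_pos h', one_mul, mul_one]
      refine hG _ _ fun i hi v => ?_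
      unfold top; split_ifs with hv
      · have := h' v hv
        constructor <;> intro _ <;> omega
      · rfl
    · have h' : ¬ ∀ v ∈ S, x v < n - s := fun hh => h fun v hv => mem_Z.2 (hh v hv)
      rw [ind_neg h, ind_neg h']; ring
  rw [h1, Ex_prod hn S (fun x => G (top S x)) (fun _ j => ind (j < n - s)) ?_]
  · rw [Finset.prod_congr rfl (fun w _ => sum_ind_lt hn hs.le), Finset.prod_const, mul_comm]
  · intro w hw x j
    congr 1
    ext v; unfold top
    by_cases hv : v ∈ S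
    · simp [hv]
    · have : v ≠ w := fun e => hv (e ▸ hw)
      simp [hv, this]

lemma q_nonneg {n r : ℕ} (h : r ≤ n) : 0 ≤ q n r := by
  unfold q; have : (r : ℝ) ≤ n := by exact_mod_cast h
  apply div_nonneg <;> [linarith; positivity]

lemma q_le_half {n r : ℕ} : q n r ≤ 1 / 2 := by
  unfold q
  rcases Nat.eq_zero_or_pos n with h | h
  · subst h; simp
  · rw [div_le_div_iff₀ (by positivity) (by norm_num)]
    have : (0 : ℝ) ≤ r := Nat.cast_nonneg r
    nlinarith

/-- `q^m ≤ 2^{-m} e^{-r m / n}` -/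
lemma q_pow_le {n r m : ℕ} (h : r ≤ n) (hn : 0 < n) :
    q n r ^ m ≤ (1 / 2) ^ m * Real.exp (-((r : ℝ) * m / n)) := by
  have h1 : q n r ≤ (1 / 2) * Real.exp (-((r : ℝ) / n)) := by
    have := Real.add_one_le_exp (-((r : ℝ) / n))
    have hn' : (0 : ℝ) < n := by exact_mod_cast hn
    have h2 : q n r = (1 / 2) * (1 - (r : ℝ) / n) := by unfold q; field_simp
    rw [h2]; nlinarith
  calc q n r ^ m ≤ ((1 / 2) * Real.exp (-((r : ℝ) / n))) ^ m := pow_le_pow_left₀ (q_nonneg h) h1 m
    _ = _ := by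
      rw [mul_pow, ← Real.exp_nat_mul]; congr 2; ring

/-- Markov -/
lemma Ex_markov {n : ℕ} (f : (V → ℕ) → ℝ) (hf : ∀ x ∈ Om V n, 0 ≤ f x) {t : ℝ} (ht : 0 < t) :
    Ex n (fun x => ind (t < f x)) ≤ Ex n f / t := by
  rw [le_div_iff₀ ht, ← Ex_mul_right]
  refine Ex_mono fun x hx => ?_
  by_cases h : t < f x
  · rw [ind_pos h]; linarith
  · rw [ind_neg h]; simpa using hf x hx

end PPB
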