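import Pool.Agent.PPB.Stmts

/-!
# The colouring theorem (module COL)
-/

namespace PPB

open Finset

theorem col_proof (hFIN : Stmt_FIN) (hNUM : Stmt_NUM) (hDCO : Stmt_DCO) (hDSY : Stmt_DSY) : Stmt_COL := by
  obtain ⟨n0, hn0⟩ := hNUM
  refine ⟨max n0 1, fun n hn => ?_⟩
  have h0 : n0 ≤ n := le_trans (le_max_left _ _) hn
  have hpos : 0 < n := lt_of_lt_of_le one_pos (le_trans (le_max_right _ _) hn)
  refine ⟨hpos, ?_⟩
  intro V _ _ H hU hK
  rcases H.eq_empty_or_nonempty with hH | hH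
  · subst hH
    exact ⟨fun _ => true, fun e he => absurd he (Finset.notMem_empty e)⟩
  obtain ⟨-, h1, h2, h3, h4, h5⟩ := hn0 n h0 (H.card : ℝ) (Nat.cast_nonneg _) hK
  have hfin := hFIN V H n ⌈Real.log n⌉₊ (5000 * Real.log (Real.log n)) hpos h1 h2 h3 h4 hH hU
  have hlt : Ex n (fun x : V → ℕ => ind (∃ B ∈ H, RB H n B x)) < 1 / 2 := lt_of_le_of_lt hfin h5
  have hlt' : Ex n (fun x : V → ℕ => ind (∃ B ∈ H, RB H n B (fun v => 2 * n - 1 - x v))) < 1 / 2 := by
    rw [hDSY V n (fun x => ind (∃ B ∈ H, RB H n B x))]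
    exact hlt
  have hex : ∃ x ∈ Om V n, ¬ (∃ B ∈ H, RB H n B x) ∧ ¬ (∃ B ∈ H, RB H n B (fun v => 2 * n - 1 - x v)) := by
    by_contra hcon
    push Not at hcon
    have hle : Ex n (fun _ : V → ℕ => (1 : ℝ)) ≤ Ex n (fun x : V → ℕ => ind (∃ B ∈ H, RB H n B x)
        + ind (∃ B ∈ H, RB H n B (fun v => 2 * n - 1 - x v))) := by
      refine Ex_mono fun x hx => ?_
      by_cases ha : ∃ B ∈ H, RB H n B x
      · rw [ind_pos ha]
        have := ind_nonneg (∃ B ∈ H, RB H n B (fun v => 2 * n - 1 - x v))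
        linarith
      · have hb : ∃ B ∈ H, RB H n B (fun v => 2 * n - 1 - x v) := by
          push Not at ha
          exact hcon x hx ha
        rw [ind_pos hb]
        have := ind_nonneg (∃ B ∈ H, RB H n B x)
        linarith
    rw [Ex_const hpos, Ex_add] at hle
    linarith
  obtain ⟨x, hx, ha, hb⟩ := hex
  exact hDCO V H n x hpos hU hx (fun B hB h => ha ⟨B, hB, h⟩) (fun B hB h => hb ⟨B, hB, h⟩)

end PPB
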