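import Pool.Agent.PPB.Stmts

/-!
# Module DCO: colouring without red bad edges
-/

namespace PPB

open Finset

namespace DCO_

variable {V : Type} [Fintype V] [DecidableEq V]

lemma core (hD : Stmt_DGR) (H : Finset (Finset V)) (n : ℕ) (hn : 0 < n) (hU : Unif H n) (x : V → ℕ) :
    ∃ F : Finset V, (∀ w ∈ F, x w < n) ∧ (∀ A ∈ H, (∀ v ∈ A, x v < n) → ∃ v ∈ A, v ∈ F) ∧
      ∀ w ∈ F, ∃ A ∈ H, (∀ v ∈ A, x v < n) ∧ A ∩ F = {w} ∧ ∀ v ∈ A, x v ≤ x w := by
  set N : ℕ := Fintype.card V with hN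
  let en : V ≃ Fin N := Fintype.equivFin V
  let rho : V → ℕ := fun v => x v * N + (en v : ℕ)
  have hrho : ∀ u v, rho u ≤ rho v → x u ≤ x v := by
    intro u v h
    by_contra hcon
    push Not at hcon
    have h1 : (x v + 1) * N ≤ x u * N := Nat.mul_le_mul_right N hcon
    have h2 : (en v : ℕ) < N := (en v).2
    simp only [rho] at h
    have h3 : (x v + 1) * N = x v * N + N := by ring
    omega
  have hinj : Function.Injective rho := by
    intro u v h
    have h1 : x u = x v := le_antisymm (hrho u v h.le) (hrho v u h.ge)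
    simp only [rho, h1] at h
    have h2 : (en u : ℕ) = en v := by omega
    exact en.injective (Fin.ext h2)
  obtain ⟨F, hF1, hF2⟩ := hD V (H.filter (fun A => ∀ v ∈ A, x v < n)) rho hinj (by
    intro A hA
    rw [Finset.mem_filter] at hA
    rw [← Finset.card_pos, hU A hA.1]
    exact hn)
  have hF3 : ∀ w ∈ F, ∃ A ∈ H, (∀ v ∈ A, x v < n) ∧ A ∩ F = {w} ∧ ∀ v ∈ A, x v ≤ x w := by
    intro w hw
    obtain ⟨A, hA, hAF, hle⟩ := hF2 w hw
    rw [Finset.mem_filter] at hA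
    exact ⟨A, hA.1, hA.2, hAF, fun v hv => hrho v w (hle v hv)⟩
  refine ⟨F, ?_, ?_, hF3⟩
  · intro w hw
    obtain ⟨A, hA, hlt, hAF, _⟩ := hF3 w hw
    have : w ∈ A ∩ F := by rw [hAF]; exact Finset.mem_singleton_self w
    exact hlt w (Finset.mem_inter.1 this).1
  · intro A hA hlt
    obtain ⟨v, hv⟩ := hF1 A (Finset.mem_filter.2 ⟨hA, hlt⟩)
    exact ⟨v, (Finset.mem_inter.1 hv).1, (Finset.mem_inter.1 hv).2⟩

lemma rb {H : Finset (Finset V)} {n : ℕ} {x : V → ℕ} {F B : Finset V}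
    (hF : ∀ w ∈ F, ∃ A ∈ H, (∀ v ∈ A, x v < n) ∧ A ∩ F = {w} ∧ ∀ v ∈ A, x v ≤ x w)
    (h1 : ∀ v ∈ B, x v < n → v ∈ F) (h2 : ∃ v ∈ B, x v < n) : RB H n B x := by
  refine ⟨h2, fun w hw hlt => ?_⟩
  obtain ⟨A, hA, hAn, hAF, hle⟩ := hF w (h1 w hw hlt)
  refine ⟨A, hA, ?_, hle⟩
  have hwA : w ∈ A ∩ F := by rw [hAF]; exact Finset.mem_singleton_self w
  ext u
  rw [Finset.mem_inter, Finset.mem_singleton]
  constructor
  · rintro ⟨huA, huB⟩
    have : u ∈ A ∩ F := Finset.mem_inter.2 ⟨huA, h1 u huB (hAn u huA)⟩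
    rw [hAF, Finset.mem_singleton] at this
    exact this
  · rintro rfl
    exact ⟨(Finset.mem_inter.1 hwA).1, hw⟩

end DCO_

open DCO_ in
theorem dco_proof (hD : Stmt_DGR) : Stmt_DCO := by
  classical
  intro V _ _ H n x hn hU hx hR1 hR2
  rw [mem_Om] at hx
  obtain ⟨F1, a1, b1, c1⟩ := core hD H n hn hU x
  obtain ⟨F2, a2, b2, c2⟩ := core hD H n hn hU (fun v => 2 * n - 1 - x v)
  have hbar : ∀ v, 2 * n - 1 - x v < n ↔ n ≤ x v := by
    intro v
    have := hx v
    omega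
  refine ⟨fun v => decide ((n ≤ x v ∧ v ∉ F2) ∨ v ∈ F1), fun e he => ⟨?_, ?_⟩⟩
  · by_contra hcon
    push Not at hcon
    have hf : ∀ v ∈ e, (n ≤ x v → v ∈ F2) ∧ v ∉ F1 := by
      intro v hv
      have := hcon v hv
      simp only [ne_eq, decide_eq_true_eq] at this
      push Not at this
      exact this
    by_cases hred : ∃ v ∈ e, n ≤ x v
    · refine hR2 e he (rb c2 ?_ ?_)
      · intro v hv hlt
        exact (hf v hv).1 ((hbar v).1 hlt)
      · obtain ⟨v, hv, hl⟩ := hred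
        exact ⟨v, hv, (hbar v).2 hl⟩
    · push Not at hred
      obtain ⟨v, hv, hvF⟩ := b1 e he hred
      exact (hf v hv).2 hvF
  · by_contra hcon
    push Not at hcon
    have hf : ∀ v ∈ e, (n ≤ x v ∧ v ∉ F2) ∨ v ∈ F1 := by
      intro v hv
      have := hcon v hv
      by_contra hc2
      exact this (decide_eq_false hc2)
    by_cases hblue : ∃ v ∈ e, x v < n
    · refine hR1 e he (rb c1 ?_ hblue)
      intro v hv hlt
      rcases hf v hv with h | h
      · omega
      · exact h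
    · push Not at hblue
      obtain ⟨v, hv, hvF⟩ := b2 e he (fun v hv => (hbar v).2 (hblue v hv))
      rcases hf v hv with h | h
      · exact h.2 hvF
      · have := a1 v h
        have := hblue v hv
        omega

end PPB
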