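import Pool.Agent.PPB.Stmts

/-!
# PPB, module DEE: deep edges are rare
-/

namespace PPB

open Finset

namespace DEE_

variable {V : Type} [Fintype V] [DecidableEq V]

theorem Ex_subset {n L : ℕ} (hn : 0 < n) (hL : L ≤ n) (A : Finset V) :
    Ex n (fun x => ind (A ⊆ Z n L x)) = q n L ^ A.card := by
  have h1 : Ex n (fun x => ind (A ⊆ Z n L x))
      = Ex n (fun x => (1 : ℝ) * ∏ v ∈ A, ind (x v < n - L)) := by
    refine Ex_congr fun x _ => ?_
    rw [← ind_forall, one_mul]
    refine ind_congr ?_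
    constructor
    · intro h v hv
      exact mem_Z.1 (h hv)
    · intro h v hv
      exact mem_Z.2 (h v hv)
  rw [h1, Ex_prod hn A (fun _ => (1 : ℝ)) (fun _ j => ind (j < n - L)) (fun _ _ _ _ => rfl),
    Ex_const hn, one_mul, Finset.prod_congr rfl (fun w _ => sum_ind_lt hn hL),
    Finset.prod_const]

end DEE_

open DEE_ in
theorem dee_proof : Stmt_DEE := by
  intro V _ _ H n L hn hL hU
  have hn' : (n : ℝ) ≠ 0 := by exact_mod_cast hn.ne'
  calc Ex n (fun x => ind (¬ nodeep H n L x))
      ≤ Ex n (fun x => ∑ A ∈ H, ind (A ⊆ Z n L x)) := by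
        refine Ex_mono fun x _ => ?_
        refine le_trans (ind_mono ?_) (ind_exists_le H fun A => A ⊆ Z n L x)
        intro h
        unfold nodeep at h
        push Not at h
        exact h
    _ = ∑ A ∈ H, Ex n (fun x => ind (A ⊆ Z n L x)) := Ex_sum H _
    _ ≤ ∑ _A ∈ H, (1 / 2) ^ n * Real.exp (-(L : ℝ)) := by
        refine Finset.sum_le_sum fun A hA => ?_
        rw [Ex_subset hn hL, hU A hA]
        refine (q_pow_le hL hn).trans (le_of_eq ?_)
        congr 3
        field_simp
    _ = (H.card : ℝ) * (1 / 2) ^ n * Real.exp (-(L : ℝ)) := by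
        rw [Finset.sum_const, nsmul_eq_mul]
        ring

end PPB
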