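import Pool.Agent.PPB.Stmts

/-!
# Property B: the greedy hitting set
-/

namespace PPB

open Finset

theorem dgr_proof : Stmt_DGR := by
  intro V _ _ FF rho hinj hne
  have key : ∀ k : ℕ, ∃ F : Finset V, (∀ v ∈ F, rho v < k) ∧
      (∀ A ∈ FF, (∀ v ∈ A, rho v < k) → (A ∩ F).Nonempty) ∧
      ∀ w ∈ F, ∃ A ∈ FF, A ∩ F = {w} ∧ ∀ v ∈ A, rho v ≤ rho w := by
    intro k
    induction k with
    | zero =>
      refine ⟨∅, by simp, ?_, by simp⟩
      intro A hA h
      obtain ⟨v, hv⟩ := hne A hA
      exact absurd (h v hv) (by omega)
    | succ k ih =>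
      obtain ⟨F, h1, h2, h3⟩ := ih
      by_cases hc : ∃ w, rho w = k ∧ ∃ A ∈ FF, w ∈ A ∧ (∀ v ∈ A, rho v ≤ k) ∧ A ∩ F = ∅
      · obtain ⟨w, hw, A, hA, hwA, hAk, hAF⟩ := hc
        refine ⟨insert w F, ?_, ?_, ?_⟩
        · intro v hv
          rcases Finset.mem_insert.mp hv with rfl | hv
          · omega
          · have := h1 v hv; omega
        · intro A' hA' hA'k
          by_cases hall : ∀ v ∈ A', rho v < k
          · obtain ⟨v, hv⟩ := h2 A' hA' hall
            exact ⟨v, Finset.mem_inter.mpr ⟨(Finset.mem_inter.mp hv).1,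
              Finset.mem_insert_of_mem (Finset.mem_inter.mp hv).2⟩⟩
          · push Not at hall
            obtain ⟨v, hv, hvk⟩ := hall
            have hvk' : rho v = k := by have := hA'k v hv; omega
            have : v = w := hinj (hvk'.trans hw.symm)
            exact ⟨v, Finset.mem_inter.mpr ⟨hv, by rw [this]; exact Finset.mem_insert_self _ _⟩⟩
        · intro u hu
          rcases Finset.mem_insert.mp hu with rfl | hu
          · refine ⟨A, hA, ?_, fun v hv => by have := hAk v hv; omega⟩
            rw [Finset.inter_insert_of_mem hwA, hAF]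
            rfl
          · obtain ⟨A', hA', hA'F, hA'u⟩ := h3 u hu
            refine ⟨A', hA', ?_, hA'u⟩
            have hwA' : w ∉ A' := by
              intro hmem
              have a1 := hA'u w hmem
              have a2 := h1 u hu
              omega
            rw [Finset.inter_insert_of_notMem hwA', hA'F]
      · push Not at hc
        refine ⟨F, fun v hv => by have := h1 v hv; omega, ?_, h3⟩
        intro A hA hAk
        by_cases hall : ∀ v ∈ A, rho v < k
        · exact h2 A hA hall
        · push Not at hall
          obtain ⟨v, hv, hvk⟩ := hall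
          have hvk' : rho v = k := by have := hAk v hv; omega
          have := hc v hvk' A hA hv (fun u hu => by have := hAk u hu; omega)
          exact this
  obtain ⟨F, -, h2, h3⟩ := key ((univ.sup rho) + 1)
  refine ⟨F, fun A hA => h2 A hA fun v _ => ?_, h3⟩
  have := Finset.le_sup (f := rho) (Finset.mem_univ v)
  omega

end PPB
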