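import Pool.Agent.PPB.Stmts

/-!
# PPB, module DSY: reflection
-/

set_option autoImplicit false

namespace PPB

open Finset

namespace DSY_

variable {V : Type} [Fintype V] [DecidableEq V]

theorem mem_om {n : ℕ} {x : V → ℕ} : x ∈ Om V n ↔ ∀ v, x v < 2 * n := by
  unfold Om
  rw [Fintype.mem_piFinset]
  simp only [mem_range]

theorem refl_mem {n : ℕ} {x : V → ℕ} (hx : x ∈ Om V n) :
    (fun v => 2 * n - 1 - x v) ∈ Om V n := by
  rw [mem_om] at hx ⊢
  intro v
  have := hx v
  omega

theorem refl_refl {n : ℕ} {x : V → ℕ} (hx : x ∈ Om V n) :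
    (fun v => 2 * n - 1 - (fun v => 2 * n - 1 - x v) v) = x := by
  rw [mem_om] at hx
  funext v
  have := hx v
  simp only
  omega

end DSY_

open DSY_ in
theorem dsy_proof : Stmt_DSY := by
  intro V _ _ n f
  unfold Ex
  congr 1
  exact Finset.sum_nbij' (fun x v => 2 * n - 1 - x v) (fun x v => 2 * n - 1 - x v)
    (fun x hx => refl_mem hx) (fun x hx => refl_mem hx) (fun x hx => refl_refl hx)
    (fun x hx => refl_refl hx) (fun x _ => rfl)

end PPB
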