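import Mathlib

/-!
# Property B: definitions for the lower bound `m(n) ≥ c 2^n √n / ln ln n`

`V` is a finite vertex set, `H` a finite family of edges (all of size `n`).
Positions are functions `x : V → ℕ` with values in `range (2n)`, uniformly distributed.
A vertex `v` is blue if `x v < n` and red otherwise; `n - 1 - x v` is the depth of a blue vertex.
-/

namespace PPB

open Finset

/-- Positions: all functions `V → ℕ` with values below `2n`. -/
def Om (V : Type) [Fintype V] [DecidableEq V] (n : ℕ) : Finset (V → ℕ) :=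
  Fintype.piFinset fun _ => range (2 * n)

/-- Expectation over uniform positions. -/
noncomputable def Ex {V : Type} [Fintype V] [DecidableEq V] (n : ℕ) (f : (V → ℕ) → ℝ) : ℝ :=
  (∑ x ∈ Om V n, f x) / ((2 * n : ℝ) ^ Fintype.card V)

open Classical in
/-- Indicator of a proposition. -/
noncomputable def ind (p : Prop) : ℝ := if p then 1 else 0

/-- Probability that a single vertex lies in `Z n r`. -/
noncomputable def q (n r : ℕ) : ℝ := ((n : ℝ) - r) / (2 * n)

variable {V : Type} [Fintype V] [DecidableEq V]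

/-- `Z n r x`: the blue vertices of depth at least `r` (the vertices alive at level `r`). -/
def Z (n r : ℕ) (x : V → ℕ) : Finset V := univ.filter fun v => x v < n - r

/-- Plant `S`: move all vertices of `S` to the deepest position. -/
def top (S : Finset V) (x : V → ℕ) : V → ℕ := fun v => if v ∈ S then 0 else x v

/-- The edges inside `Z n r x`. -/
def alive (H : Finset (Finset V)) (n r : ℕ) (x : V → ℕ) : Finset (Finset V) :=
  H.filter fun A => A ⊆ Z n r x

/-- The alive labels of `B` at level `r`. -/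
def Lab (H : Finset (Finset V)) (B : Finset V) (n r : ℕ) (x : V → ℕ) : Finset V :=
  B.filter fun w => ∃ A ∈ H, A ∩ B = {w} ∧ A.erase w ⊆ Z n r x

/-- All vertices which are one step from an alive edge at level `r`. -/
def Cv (H : Finset (Finset V)) (n r : ℕ) (x : V → ℕ) : Finset V :=
  univ.filter fun w => ∃ A ∈ H, w ∈ A ∧ A.erase w ⊆ Z n r x

/-- Degree of a vertex. -/
def deg (H : Finset (Finset V)) (v : V) : ℕ := (H.filter fun A => v ∈ A).card

open Classical in
/-- The vertices whose degree exceeds `h |H| / n`. -/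
noncomputable def Vh (H : Finset (Finset V)) (n : ℕ) (h : ℝ) : Finset V :=
  univ.filter fun v => h * H.card < n * deg H v

/-- `B` is red bad: it has a blue vertex, and every blue vertex `w` of `B` is the last vertex of an
edge `A` with `A ∩ B = {w}`. -/
def RB (H : Finset (Finset V)) (n : ℕ) (B : Finset V) (x : V → ℕ) : Prop :=
  (∃ w ∈ B, x w < n) ∧ ∀ w ∈ B, x w < n → ∃ A ∈ H, A ∩ B = {w} ∧ ∀ v ∈ A, x v ≤ x w

/-- No edge lies inside `Z n L x`. -/
def nodeep (H : Finset (Finset V)) (n L : ℕ) (x : V → ℕ) : Prop := ∀ A ∈ H, ¬ A ⊆ Z n L x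

/-- `∑_{r < s} |Lab_r| / n`. -/
noncomputable def Qs (H : Finset (Finset V)) (B : Finset V) (n s : ℕ) (x : V → ℕ) : ℝ :=
  ∑ r ∈ range s, ((Lab H B n r x).card : ℝ) / n

/-- Truncated weight `min(1, n/F)` for `F ≤ X`, and `0` for `F > X`. -/
noncomputable def phi (n X F : ℕ) : ℝ := if F ≤ X then min 1 ((n : ℝ) / F) else 0

/-- Planted number of alive edges. -/
def FA (H : Finset (Finset V)) (A : Finset V) (n r : ℕ) (x : V → ℕ) : ℕ :=
  (alive H n r (top A x)).card

/-- `S = (1/n) ∑ |A' \ A|` over the alive edges, `A` planted. -/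
noncomputable def SA (H : Finset (Finset V)) (A : Finset V) (n r : ℕ) (x : V → ℕ) : ℝ :=
  (∑ A' ∈ alive H n r (top A x), ((A' \ A).card : ℝ)) / n

/-- The conflict of the pair `(A,B)` at the vertex `w`, at depth less than `L`. -/
def Cf (n L : ℕ) (A B : Finset V) (w : V) (x : V → ℕ) : Prop :=
  A ∩ B = {w} ∧ n - L ≤ x w ∧ x w < n ∧ (∀ v ∈ A, x v ≤ x w) ∧ ∀ v ∈ B, x w ≤ x v

/-- The exposed set: the vertices of `W` which lie in `Z n L`. -/
def Tx (W : Finset V) (n L : ℕ) (x : V → ℕ) : Finset V := W ∩ Z n L x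

open Classical in
/-- Normalised conditional expected number of edges of `D` avoiding `Z n L`, given `T`. -/
noncomputable def kap (D : Finset (Finset V)) (W : Finset V) (n L : ℕ) (T : Finset V) : ℝ :=
  ∑ B ∈ D, ind (Disjoint B T) * (1 / 2) ^ (B \ W).card * ((1 + (L : ℝ) / n)⁻¹) ^ (B ∩ W).card

/-- Conditional probability of `v ∈ Z n s`, given `T`. -/
noncomputable def pin (W : Finset V) (n L s : ℕ) (T : Finset V) (v : V) : ℝ :=
  if v ∉ W then q n s else if v ∈ T then 1 else (q n s - q n L) / (1 - q n L)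

/-- Conditional probability of `v ∉ Z n (s+1)`, given `T`. -/
noncomputable def pout (W : Finset V) (n L s : ℕ) (T : Finset V) (v : V) : ℝ :=
  if v ∉ W then 1 - q n (s + 1) else if v ∈ T then 0 else (1 - q n (s + 1)) / (1 - q n L)

/-- `∑_{s<L} e^s ∑_A P(A ⊆ Z_s | T)`. -/
noncomputable def KK (H : Finset (Finset V)) (W : Finset V) (n L : ℕ) (T : Finset V) : ℝ :=
  ∑ s ∈ range L, Real.exp s * ∑ A ∈ H, ∏ v ∈ A, pin W n L s T v

end PPB
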