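import Pool.Agent.PPB.Stmts

/-!
# Module FIN: the probability of a red bad edge
-/

namespace PPB

open Finset

namespace FIN_

variable {V : Type} [Fintype V] [DecidableEq V]

/-- Pointwise decomposition. -/
lemma pw (hHRB : Stmt_HRB) (H : Finset (Finset V)) (n L : ℕ) (U W : Finset V) (x : V → ℕ)
    (hL : L ≤ n) :
    ind (∃ B ∈ H, RB H n B x) ≤ ind (¬ nodeep H n L x)
      + ∑ B ∈ H.filter (fun B => 4 * (B ∩ U).card ≤ n), ind (RB H n B x ∧ nodeep H n L x)
      + ∑ B ∈ H.filter (fun B => n < 4 * (B ∩ U).card ∧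
          (12 * (B ∩ W).card < n ∨ 12 * (B ∩ (U \ W)).card < n)),
          ind (∃ A ∈ H, ∃ w, Cf n L A B w x)
      + ind (∃ B ∈ H.filter (fun B => n ≤ 12 * (B ∩ W).card), ∃ A ∈ H, ∃ w, w ∉ W ∧
          Cf n L A B w x)
      + ind (∃ B ∈ H.filter (fun B => n ≤ 12 * (B ∩ (U \ W)).card), ∃ A ∈ H, ∃ w, w ∉ U \ W ∧
          Cf n L A B w x) := by
  have n1 : 0 ≤ ind (¬ nodeep H n L x) := ind_nonneg _
  have n2 : 0 ≤ ∑ B ∈ H.filter (fun B => 4 * (B ∩ U).card ≤ n),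
      ind (RB H n B x ∧ nodeep H n L x) := sum_nonneg fun _ _ => ind_nonneg _
  have n3 : 0 ≤ ∑ B ∈ H.filter (fun B => n < 4 * (B ∩ U).card ∧
          (12 * (B ∩ W).card < n ∨ 12 * (B ∩ (U \ W)).card < n)),
          ind (∃ A ∈ H, ∃ w, Cf n L A B w x) := sum_nonneg fun _ _ => ind_nonneg _
  have n4 : 0 ≤ ind (∃ B ∈ H.filter (fun B => n ≤ 12 * (B ∩ W).card), ∃ A ∈ H, ∃ w, w ∉ W ∧
          Cf n L A B w x) := ind_nonneg _
  have n5 : 0 ≤ ind (∃ B ∈ H.filter (fun B => n ≤ 12 * (B ∩ (U \ W)).card), ∃ A ∈ H, ∃ w,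
          w ∉ U \ W ∧ Cf n L A B w x) := ind_nonneg _
  by_cases h0 : ∃ B ∈ H, RB H n B x
  · rw [ind_pos h0]
    obtain ⟨B, hB, hR⟩ := h0
    by_cases hd : nodeep H n L x
    · by_cases hl : 4 * (B ∩ U).card ≤ n
      · have h1 : (1 : ℝ) ≤ ∑ B ∈ H.filter (fun B => 4 * (B ∩ U).card ≤ n),
            ind (RB H n B x ∧ nodeep H n L x) := by
          have h2 := single_le_sum (f := fun B => ind (RB H n B x ∧ nodeep H n L x))
            (s := H.filter (fun B => 4 * (B ∩ U).card ≤ n)) (fun _ _ => ind_nonneg _)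
            (mem_filter.2 ⟨hB, hl⟩)
          have h3 : ind (RB H n B x ∧ nodeep H n L x) = 1 := ind_pos ⟨hR, hd⟩
          simp only [h3] at h2
          exact h2
        linarith
      · obtain ⟨A, hA, w, hw⟩ := hHRB V H n L B x hL hR hd
        by_cases he : 12 * (B ∩ W).card < n ∨ 12 * (B ∩ (U \ W)).card < n
        · have h1 : (1 : ℝ) ≤ ∑ B ∈ H.filter (fun B => n < 4 * (B ∩ U).card ∧
              (12 * (B ∩ W).card < n ∨ 12 * (B ∩ (U \ W)).card < n)),
              ind (∃ A ∈ H, ∃ w, Cf n L A B w x) := by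
            have h2 := single_le_sum (f := fun B => ind (∃ A ∈ H, ∃ w, Cf n L A B w x))
              (s := H.filter (fun B => n < 4 * (B ∩ U).card ∧
              (12 * (B ∩ W).card < n ∨ 12 * (B ∩ (U \ W)).card < n)))
              (fun _ _ => ind_nonneg _) (mem_filter.2 ⟨hB, by omega, he⟩)
            have h3 : ind (∃ A ∈ H, ∃ w, Cf n L A B w x) = 1 := ind_pos ⟨A, hA, w, hw⟩
            simp only [h3] at h2
            exact h2
          linarith
        · push Not at he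
          by_cases hwW : w ∈ W
          · have h1 : ind (∃ B ∈ H.filter (fun B => n ≤ 12 * (B ∩ (U \ W)).card), ∃ A ∈ H, ∃ w,
                w ∉ U \ W ∧ Cf n L A B w x) = 1 :=
              ind_pos ⟨B, mem_filter.2 ⟨hB, he.2⟩, A, hA, w,
                fun hc => (mem_sdiff.1 hc).2 hwW, hw⟩
            linarith
          · have h1 : ind (∃ B ∈ H.filter (fun B => n ≤ 12 * (B ∩ W).card), ∃ A ∈ H, ∃ w, w ∉ W ∧
                Cf n L A B w x) = 1 :=
              ind_pos ⟨B, mem_filter.2 ⟨hB, he.1⟩, A, hA, w, hwW, hw⟩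
            linarith
    · have h1 : ind (¬ nodeep H n L x) = 1 := ind_pos hd
      linarith
  · rw [ind_neg h0]
    linarith

end FIN_

theorem fin_proof (hLIG : Stmt_LIG) (hHRB : Stmt_HRB) (hHRS : Stmt_HRS) (hHPA : Stmt_HPA)
    (hHEV : Stmt_HEV) (hHVC : Stmt_HVC) (hDEE : Stmt_DEE) : Stmt_FIN := by
  intro V _ _ H n L h hn hL h50 hh h3 hne hU
  have hLn : L ≤ n := by omega
  have hn' : (0 : ℝ) < n := by exact_mod_cast hn
  obtain ⟨W, hWU, hW⟩ := hHPA V H n (Vh H n h) hn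
  have hVC := hHVC V H n h hn hh.le hne hU
  have cW : (W.card : ℝ) * h ≤ n ^ 2 := by
    have h1 : (W.card : ℝ) ≤ ((Vh H n h).card : ℝ) := by exact_mod_cast card_le_card hWU
    exact le_trans (mul_le_mul_of_nonneg_right h1 hh.le) hVC
  have cW' : (((Vh H n h) \ W).card : ℝ) * h ≤ n ^ 2 := by
    have h1 : (((Vh H n h) \ W).card : ℝ) ≤ ((Vh H n h).card : ℝ) := by
      exact_mod_cast card_le_card sdiff_subset
    exact le_trans (mul_le_mul_of_nonneg_right h1 hh.le) hVC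
  have e1 := hDEE V H n L hn hLn hU
  have e2 := hLIG V H n L h hn hL h50 hh.le hU
  have e4 := hHEV V H (H.filter (fun B => n ≤ 12 * (B ∩ W).card)) W n L h hn hL h50 hh h3 hU
    (filter_subset _ _) (fun B hB => (mem_filter.1 hB).2) cW
  have e5 := hHEV V H (H.filter (fun B => n ≤ 12 * (B ∩ ((Vh H n h) \ W)).card))
    ((Vh H n h) \ W) n L h hn hL h50 hh h3 hU
    (filter_subset _ _) (fun B hB => (mem_filter.1 hB).2) cW'
  have e3 : ∑ B ∈ H.filter (fun B => n < 4 * (B ∩ (Vh H n h)).card ∧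
      (12 * (B ∩ W).card < n ∨ 12 * (B ∩ ((Vh H n h) \ W)).card < n)),
      Ex n (fun x => ind (∃ A ∈ H, ∃ w, Cf n L A B w x))
      ≤ 216 * ((H.card : ℝ) ^ 2 / (n * 4 ^ n)) * L / n := by
    have h1 : ∑ B ∈ H.filter (fun B => n < 4 * (B ∩ (Vh H n h)).card ∧
        (12 * (B ∩ W).card < n ∨ 12 * (B ∩ ((Vh H n h) \ W)).card < n)),
        Ex n (fun x => ind (∃ A ∈ H, ∃ w, Cf n L A B w x))
        ≤ ((H.filter (fun B => n < 4 * (B ∩ (Vh H n h)).card ∧
        (12 * (B ∩ W).card < n ∨ 12 * (B ∩ ((Vh H n h) \ W)).card < n))).card : ℝ)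
          * (6 * (H.card : ℝ) * L / (n * 4 ^ n)) := by
      rw [← nsmul_eq_mul]
      refine sum_le_card_nsmul _ _ _ fun B hB => ?_
      exact hHRS V H n L B hn h50 hU (hU B (mem_filter.1 hB).1)
    have h2 : ((H.filter (fun B => n < 4 * (B ∩ (Vh H n h)).card ∧
        (12 * (B ∩ W).card < n ∨ 12 * (B ∩ ((Vh H n h) \ W)).card < n))).card : ℝ)
        ≤ 36 * H.card / n := by
      rw [le_div_iff₀ hn', mul_comm]
      exact_mod_cast hW
    refine h1.trans ?_
    have h3 : (0 : ℝ) ≤ 6 * (H.card : ℝ) * L / (n * 4 ^ n) := by positivity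
    refine (mul_le_mul_of_nonneg_right h2 h3).trans (le_of_eq ?_)
    field_simp
    ring
  have key : Ex n (fun x : V → ℕ => ind (∃ B ∈ H, RB H n B x))
      ≤ Ex n (fun x : V → ℕ => ind (¬ nodeep H n L x))
      + ∑ B ∈ H.filter (fun B => 4 * (B ∩ (Vh H n h)).card ≤ n),
          Ex n (fun x => ind (RB H n B x ∧ nodeep H n L x))
      + ∑ B ∈ H.filter (fun B => n < 4 * (B ∩ (Vh H n h)).card ∧
          (12 * (B ∩ W).card < n ∨ 12 * (B ∩ ((Vh H n h) \ W)).card < n)),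
          Ex n (fun x => ind (∃ A ∈ H, ∃ w, Cf n L A B w x))
      + Ex n (fun x => ind (∃ B ∈ H.filter (fun B => n ≤ 12 * (B ∩ W).card), ∃ A ∈ H, ∃ w, w ∉ W ∧
          Cf n L A B w x))
      + Ex n (fun x => ind (∃ B ∈ H.filter (fun B => n ≤ 12 * (B ∩ ((Vh H n h) \ W)).card),
          ∃ A ∈ H, ∃ w, w ∉ (Vh H n h) \ W ∧ Cf n L A B w x)) := by
    rw [← Ex_sum, ← Ex_sum, ← Ex_add, ← Ex_add, ← Ex_add, ← Ex_add]
    exact Ex_mono fun x _ => FIN_.pw hHRB H n L (Vh H n h) W x hLn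
  linarith
end PPB
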