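import Pool.Agent.PPB.Stmts

/-!
# Squad PPB, module HCI: conditional independence, given the exposed set
-/

namespace PPB

open Finset

namespace HCI_

variable {V : Type} [Fintype V] [DecidableEq V]

/-- the average of a function of one position -/
noncomputable def av (n : ℕ) (f : ℕ → ℝ) : ℝ := (∑ j ∈ range (2 * n), f j) / (2 * n)

lemma av_congr {n : ℕ} {f g : ℕ → ℝ} (h : ∀ j, f j = g j) : av n f = av n g := by
  unfold av; rw [Finset.sum_congr rfl fun j _ => h j]

lemma av_sub (n : ℕ) (f g : ℕ → ℝ) : av n (fun j => f j - g j) = av n f - av n g := by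
  unfold av; rw [Finset.sum_sub_distrib, sub_div]

lemma av_one {n : ℕ} (hn : 0 < n) : av n (fun _ => 1) = 1 := by
  unfold av
  rw [Finset.sum_const, Finset.card_range, nsmul_eq_mul, mul_one]
  push_cast
  have : (0 : ℝ) < n := by exact_mod_cast hn
  field_simp

lemma av_zero (n : ℕ) : av n (fun _ => 0) = 0 := by
  unfold av; simp

lemma av_lt {n s : ℕ} (hn : 0 < n) (hs : s ≤ n) : av n (fun j => ind (j < n - s)) = q n s :=
  sum_ind_lt hn hs

lemma av_ge {n s : ℕ} (hn : 0 < n) (hs : s ≤ n) :
    av n (fun j => ind (¬ j < n - s)) = 1 - q n s := by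
  rw [av_congr (fun j => ind_not (j < n - s)), av_sub, av_one hn, av_lt hn hs]

lemma av_eq {n s : ℕ} (hn : 0 < n) : av n (fun j => ind (j = n - 1 - s)) = 1 / (2 * n) := by
  unfold av
  congr 1
  have h1 : ∀ j ∈ range (2 * n), ind (j = n - 1 - s) = if j = n - 1 - s then (1 : ℝ) else 0 := by
    intro j _; simp [ind]
  rw [Finset.sum_congr rfl h1, Finset.sum_ite_eq']
  rw [if_pos (by rw [mem_range]; omega)]

/-- product formula on the whole space -/
lemma Ex_all {n : ℕ} (hn : 0 < n) (P : V → ℕ → Prop) :
    Ex n (fun x => ind (∀ v ∈ (univ : Finset V), P v (x v))) = ∏ v, av n (fun j => ind (P v j)) := by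
  have h1 : Ex n (fun x : V → ℕ => ind (∀ v ∈ (univ : Finset V), P v (x v)))
      = Ex n (fun x => (1 : ℝ) * ∏ v ∈ (univ : Finset V), ind (P v (x v))) :=
    Ex_congr fun x _ => by rw [ind_forall, one_mul]
  rw [h1, Ex_prod hn univ (fun _ => (1 : ℝ)) (fun v j => ind (P v j)) (fun _ _ _ _ => rfl),
    Ex_const hn, one_mul]
  rfl

/-- the constraint of the exposed set at `v` -/
def bW (W T : Finset V) (n L : ℕ) (v : V) (j : ℕ) : Prop := v ∈ W → (j < n - L ↔ v ∈ T)

/-- the other constraints at `v` -/
def cc (A B : Finset V) (w : V) (n s : ℕ) (v : V) (j : ℕ) : Prop :=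
  (v = w → j = n - 1 - s) ∧ (v ∈ A.erase w → j < n - s) ∧ (v ∈ B.erase w → n - 1 - s ≤ j)

lemma Tx_iff {W T : Finset V} (hT : T ⊆ W) (n L : ℕ) (x : V → ℕ) :
    Tx W n L x = T ↔ ∀ v ∈ (univ : Finset V), bW W T n L v (x v) := by
  constructor
  · intro h v _ hv
    rw [← h]
    unfold Tx
    rw [mem_inter, mem_Z]
    exact ⟨fun h1 => ⟨hv, h1⟩, fun h1 => h1.2⟩
  · intro h
    ext v
    unfold Tx
    rw [mem_inter, mem_Z]
    constructor
    · rintro ⟨h1, h2⟩
      exact (h v (mem_univ _) h1).1 h2
    · intro h1
      exact ⟨hT h1, (h v (mem_univ _) (hT h1)).2 h1⟩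

lemma E_iff {W T A B : Finset V} (hT : T ⊆ W) (w : V) (n L s : ℕ) (x : V → ℕ) :
    (Tx W n L x = T ∧ x w = n - 1 - s ∧ (∀ v ∈ A.erase w, x v < n - s)
        ∧ ∀ v ∈ B.erase w, n - 1 - s ≤ x v) ↔
      ∀ v ∈ (univ : Finset V), bW W T n L v (x v) ∧ cc A B w n s v (x v) := by
  rw [Tx_iff hT]
  constructor
  · rintro ⟨h1, h2, h3, h4⟩ v hv
    refine ⟨h1 v hv, ?_, h3 v, h4 v⟩
    intro h; subst h; exact h2
  · intro h
    exact ⟨fun v hv => (h v hv).1, (h w (mem_univ _)).2.1 rfl,
      fun v hv => (h v (mem_univ _)).2.2.1 hv, fun v hv => (h v (mem_univ _)).2.2.2 hv⟩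

end HCI_

open HCI_ in
theorem hci_proof : Stmt_HCI := by
  intro V _ _ n L s W T A B w hn hL hs hT hAB hw
  have h1 : Ex n (fun x => ind (Tx W n L x = T ∧ x w = n - 1 - s ∧ (∀ v ∈ A.erase w, x v < n - s)
        ∧ ∀ v ∈ B.erase w, n - 1 - s ≤ x v)) =
      ∏ v, av n (fun j => ind (bW W T n L v j ∧ cc A B w n s v j)) := by
    rw [← Ex_all hn]
    exact Ex_congr fun x _ => ind_congr (E_iff hT w n L s x)
  have h2 : Ex n (fun x => ind (Tx W n L x = T)) = ∏ v, av n (fun j => ind (bW W T n L v j)) := by
    rw [← Ex_all hn]
    exact Ex_congr fun x _ => ind_congr (Tx_iff hT n L x)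
  have hqL : 0 < 1 - q n L := by linarith [q_le_half (n := n) (r := L)]
  have key : ∀ v, av n (fun j => ind (bW W T n L v j ∧ cc A B w n s v j)) =
      ((if v = w then 1 / (2 * (n : ℝ)) else 1) * (if v ∈ A.erase w then pin W n L s T v else 1)
        * (if v ∈ B.erase w then pout W n L s T v else 1)) * av n (fun j => ind (bW W T n L v j)) := by
    intro v
    by_cases hvw : v = w
    · subst hvw
      rw [if_pos rfl, if_neg (by simp), if_neg (by simp), mul_one, mul_one]
      have e1 : ∀ j, ind (bW W T n L v j ∧ cc A B v n s v j) = ind (j = n - 1 - s) := by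
        intro j
        apply ind_congr
        constructor
        · intro h; exact h.2.1 rfl
        · intro h
          exact ⟨fun h' => absurd h' hw, fun _ => h, fun h' => absurd h' (by simp),
            fun h' => absurd h' (by simp)⟩
      have e2 : ∀ j, ind (bW W T n L v j) = 1 := fun j => ind_pos fun h' => absurd h' hw
      rw [av_congr e1, av_congr e2, av_eq hn, av_one hn, mul_one]
    · rw [if_neg hvw, one_mul]
      by_cases hvA : v ∈ A.erase w
      · have hvB : v ∉ B.erase w := by
          intro h
          have h3 : v ∈ A ∩ B := mem_inter.2 ⟨mem_of_mem_erase hvA, mem_of_mem_erase h⟩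
          rw [hAB, mem_singleton] at h3
          exact hvw h3
        rw [if_pos hvA, if_neg hvB, mul_one]
        have e0 : ∀ j, ind (bW W T n L v j ∧ cc A B w n s v j) =
            ind (bW W T n L v j ∧ j < n - s) := by
          intro j
          apply ind_congr
          constructor
          · intro h; exact ⟨h.1, h.2.2.1 hvA⟩
          · intro h
            exact ⟨h.1, fun h' => absurd h' hvw, fun _ => h.2, fun h' => absurd h' hvB⟩
        rw [av_congr e0]
        unfold pin
        by_cases hvW : v ∈ W
        · rw [if_neg (not_not.2 hvW)]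
          by_cases hvT : v ∈ T
          · rw [if_pos hvT, one_mul]
            apply av_congr
            intro j
            apply ind_congr
            constructor
            · intro h; exact h.1
            · intro h
              have := (h hvW).2 hvT
              exact ⟨h, by omega⟩
          · rw [if_neg hvT]
            have e1 : ∀ j, ind (bW W T n L v j ∧ j < n - s) =
                ind (j < n - s) - ind (j < n - L) := by
              intro j
              by_cases h3 : j < n - L
              · have h4 : j < n - s := by omega
                rw [ind_pos h3, ind_pos h4, ind_neg (fun h => hvT ((h.1 hvW).1 h3)), sub_self]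
              · rw [ind_neg h3, sub_zero]
                apply ind_congr
                exact ⟨fun h => h.2, fun h => ⟨fun _ => ⟨fun h' => absurd h' h3,
                  fun h' => absurd h' hvT⟩, h⟩⟩
            have e2 : ∀ j, ind (bW W T n L v j) = ind (¬ j < n - L) := by
              intro j
              apply ind_congr
              constructor
              · intro h h3; exact hvT ((h hvW).1 h3)
              · intro h _
                exact ⟨fun h' => absurd h' h, fun h' => absurd h' hvT⟩
            rw [av_congr e1, av_congr e2, av_sub, av_lt hn (by omega), av_lt hn (by omega),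
              av_ge hn (by omega)]
            field_simp
        · rw [if_pos hvW]
          have e1 : ∀ j, ind (bW W T n L v j ∧ j < n - s) = ind (j < n - s) := by
            intro j
            apply ind_congr
            exact ⟨fun h => h.2, fun h => ⟨fun h' => absurd h' hvW, h⟩⟩
          have e2 : ∀ j, ind (bW W T n L v j) = 1 := fun j => ind_pos fun h' => absurd h' hvW
          rw [av_congr e1, av_congr e2, av_lt hn (by omega), av_one hn, mul_one]
      · rw [if_neg hvA, one_mul]
        by_cases hvB : v ∈ B.erase w
        · rw [if_pos hvB]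
          have e0 : ∀ j, ind (bW W T n L v j ∧ cc A B w n s v j) =
              ind (bW W T n L v j ∧ ¬ j < n - (s + 1)) := by
            intro j
            apply ind_congr
            constructor
            · intro h
              have := h.2.2.2 hvB
              exact ⟨h.1, by omega⟩
            · intro h
              have := h.2
              exact ⟨h.1, fun h' => absurd h' hvw, fun h' => absurd h' hvA, fun _ => by omega⟩
          rw [av_congr e0]
          unfold pout
          by_cases hvW : v ∈ W
          · rw [if_neg (not_not.2 hvW)]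
            by_cases hvT : v ∈ T
            · rw [if_pos hvT, zero_mul]
              rw [← av_zero n]
              apply av_congr
              intro j
              apply ind_neg
              rintro ⟨h3, h4⟩
              have := (h3 hvW).2 hvT
              omega
            · rw [if_neg hvT]
              have e1 : ∀ j, ind (bW W T n L v j ∧ ¬ j < n - (s + 1)) =
                  ind (¬ j < n - (s + 1)) := by
                intro j
                apply ind_congr
                refine ⟨fun h => h.2, fun h => ⟨fun _ => ⟨fun h' => ?_,
                  fun h' => absurd h' hvT⟩, h⟩⟩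
                omega
              have e2 : ∀ j, ind (bW W T n L v j) = ind (¬ j < n - L) := by
                intro j
                apply ind_congr
                constructor
                · intro h h3; exact hvT ((h hvW).1 h3)
                · intro h _
                  exact ⟨fun h' => absurd h' h, fun h' => absurd h' hvT⟩
              rw [av_congr e1, av_congr e2, av_ge hn (by omega), av_ge hn (by omega)]
              field_simp
          · rw [if_pos hvW]
            have e1 : ∀ j, ind (bW W T n L v j ∧ ¬ j < n - (s + 1)) =
                ind (¬ j < n - (s + 1)) := by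
              intro j
              apply ind_congr
              exact ⟨fun h => h.2, fun h => ⟨fun h' => absurd h' hvW, h⟩⟩
            have e2 : ∀ j, ind (bW W T n L v j) = 1 := fun j => ind_pos fun h' => absurd h' hvW
            rw [av_congr e1, av_congr e2, av_ge hn (by omega), av_one hn, mul_one]
        · rw [if_neg hvB, one_mul]
          apply av_congr
          intro j
          apply ind_congr
          exact ⟨fun h => h.1, fun h => ⟨h, fun h' => absurd h' hvw, fun h' => absurd h' hvA,
            fun h' => absurd h' hvB⟩⟩
  rw [h1, h2, Finset.prod_congr rfl (fun v _ => key v), Finset.prod_mul_distrib,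
    Finset.prod_mul_distrib, Finset.prod_mul_distrib]
  congr 1
  rw [Finset.prod_ite_eq' univ w, if_pos (mem_univ _), Finset.prod_ite_mem, Finset.prod_ite_mem,
    univ_inter, univ_inter]

end PPB
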