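import Pool.Agent.PPB.Stmts

/-!
# PPB, module HCU: conditional union bound over all conflicts
-/

namespace PPB

open Finset

namespace HCU_

variable {V : Type} [Fintype V] [DecidableEq V]

/-- the summand of `kap` -/
noncomputable def ks (W : Finset V) (n L : ℕ) (T B : Finset V) : ℝ :=
  ind (Disjoint B T) * (1 / 2) ^ (B \ W).card * ((1 + (L : ℝ) / n)⁻¹) ^ (B ∩ W).card

lemma ks_nonneg (W : Finset V) (n L : ℕ) (T B : Finset V) : 0 ≤ ks W n L T B := by
  unfold ks
  have := ind_nonneg (Disjoint B T)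
  positivity

lemma kap_eq (D : Finset (Finset V)) (W : Finset V) (n L : ℕ) (T : Finset V) :
    kap D W n L T = ∑ B ∈ D, ks W n L T B := rfl

lemma pout_prod {n L s : ℕ} (hn : 0 < n) (W T B : Finset V) (hT : T ⊆ W) :
    ∏ v ∈ B, pout W n L s T v = (1 + ((s : ℝ) + 1) / n) ^ B.card * ks W n L T B := by
  have hn' : (0 : ℝ) < n := by exact_mod_cast hn
  by_cases hd : Disjoint B T
  · rw [ks, ind_pos hd, one_mul]
    have h1 : ∀ v ∈ B, pout W n L s T v =
        (1 + ((s : ℝ) + 1) / n) * (if v ∈ W then (1 + (L : ℝ) / n)⁻¹ else 1 / 2) := by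
      intro v hv
      have hvT : v ∉ T := Finset.disjoint_left.1 hd hv
      unfold pout q
      by_cases hw : v ∈ W
      · rw [if_neg (not_not.2 hw), if_neg hvT, if_pos hw]
        have e1 : (1 : ℝ) - (n - ((s + 1 : ℕ) : ℝ)) / (2 * n) =
            1 / 2 * (1 + ((s : ℝ) + 1) / n) := by
          push_cast
          field_simp
          ring
        have e2 : (1 : ℝ) - (n - (L : ℝ)) / (2 * n) = 1 / 2 * (1 + (L : ℝ) / n) := by
          field_simp
          ring
        rw [e1, e2]
        have e3 : (0 : ℝ) < 1 + (L : ℝ) / n := by positivity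
        field_simp
      · rw [if_pos hw, if_neg hw]
        push_cast
        field_simp
        ring
    rw [prod_congr rfl h1, prod_mul_distrib, prod_const, prod_ite, prod_const, prod_const]
    have h2 : B.filter (fun v => v ∈ W) = B ∩ W := by
      ext v; simp
    have h3 : B.filter (fun v => v ∉ W) = B \ W := by
      ext v; simp
    rw [h2, h3]
    ring
  · obtain ⟨v, hvB, hvT⟩ := Finset.not_disjoint_iff.1 hd
    rw [ks, ind_neg hd]
    have : ∏ v ∈ B, pout W n L s T v = 0 := by
      refine prod_eq_zero hvB ?_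
      unfold pout
      rw [if_neg (not_not.2 (hT hvT)), if_pos hvT]
    rw [this]
    ring

lemma pin_nonneg {n L s : ℕ} (hn : 0 < n) (hL : L < n) (hs : s < L) (W T : Finset V) (v : V) :
    0 ≤ pin W n L s T v := by
  unfold pin
  have h1 : 0 ≤ q n s := q_nonneg (by omega)
  have h2 : q n L ≤ 1 / 2 := q_le_half
  have h3 : q n L ≤ q n s := by
    unfold q
    have : (s : ℝ) ≤ L := by exact_mod_cast hs.le
    gcongr
  by_cases hw : v ∈ W
  · rw [if_neg (not_not.2 hw)]
    by_cases hT : v ∈ T
    · rw [if_pos hT]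
      exact zero_le_one
    · rw [if_neg hT]
      exact div_nonneg (by linarith) (by linarith)
  · rw [if_pos hw]
    exact h1

/-- the elementary event -/
def J (W : Finset V) (n L : ℕ) (T B A : Finset V) (w : V) (s : ℕ) (x : V → ℕ) : Prop :=
  Tx W n L x = T ∧ x w = n - 1 - s ∧ (∀ v ∈ A.erase w, x v < n - s) ∧
    ∀ v ∈ B.erase w, n - 1 - s ≤ x v

/-- the bound for one pair -/
lemma one (hHCI : Stmt_HCI) {n L s : ℕ} (hn : 0 < n) (hL : 50 * L ≤ n) (hs : s < L)
    {W T A B : Finset V} (hT : T ⊆ W) {w : V} (hAB : A ∩ B = {w}) (hw : w ∉ W)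
    (hB : B.card = n) :
    Ex n (fun x => ind (J W n L T B A w s x)) ≤
      6 / n * (Real.exp s * ∏ v ∈ A, pin W n L s T v) * ks W n L T B *
        Ex n (fun x => ind (Tx W n L x = T)) := by
  have hn' : (0 : ℝ) < n := by exact_mod_cast hn
  have hLn : L < n := by omega
  have hwA : w ∈ A := (Finset.mem_inter.1 (hAB ▸ Finset.mem_singleton_self w)).1
  have hwB : w ∈ B := (Finset.mem_inter.1 (hAB ▸ Finset.mem_singleton_self w)).2
  have h1 := hHCI V n L s W T A B w hn hLn hs hT hAB hw
  have h2 : Ex n (fun x => ind (J W n L T B A w s x)) = 1 / (2 * n) *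
      (∏ v ∈ A.erase w, pin W n L s T v) * (∏ v ∈ B.erase w, pout W n L s T v)
        * Ex n (fun x => ind (Tx W n L x = T)) := h1
  rw [h2]
  have hp : 0 ≤ Ex n (fun x : V → ℕ => ind (Tx W n L x = T)) :=
    Ex_nonneg fun x _ => ind_nonneg _
  refine mul_le_mul_of_nonneg_right ?_ hp
  have hpi : 0 ≤ ∏ v ∈ A.erase w, pin W n L s T v :=
    prod_nonneg fun v _ => pin_nonneg hn hLn hs W T v
  have hpA : q n s * ∏ v ∈ A.erase w, pin W n L s T v = ∏ v ∈ A, pin W n L s T v := by
    rw [← Finset.mul_prod_erase A _ hwA]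
    congr 1
    unfold pin
    rw [if_pos hw]
  have hpB : (1 - q n (s + 1)) * ∏ v ∈ B.erase w, pout W n L s T v =
      ∏ v ∈ B, pout W n L s T v := by
    rw [← Finset.mul_prod_erase B _ hwB]
    congr 1
    unfold pout
    rw [if_pos hw]
  have hk := ks_nonneg W n L T B
  have hq1 : 49 / 100 ≤ q n s := by
    unfold q
    rw [le_div_iff₀ (by positivity)]
    have : (50 * s : ℝ) ≤ n := by exact_mod_cast (by omega : 50 * s ≤ n)
    linarith
  have hq2 : 1 / 2 ≤ 1 - q n (s + 1) := by
    have : q n (s + 1) ≤ 1 / 2 := q_le_half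
    linarith
  have hpo : 0 ≤ ∏ v ∈ B.erase w, pout W n L s T v := by
    by_contra hneg
    push Not at hneg
    have h3 := pout_prod (L := L) (s := s) hn W T B hT
    have h4 : 0 ≤ (1 + ((s : ℝ) + 1) / n) ^ B.card * ks W n L T B := by positivity
    rw [← h3, ← hpB] at h4
    nlinarith
  have hB1 : ∏ v ∈ B.erase w, pout W n L s T v ≤ 2 * (Real.exp (s + 1) * ks W n L T B) := by
    have h3 := pout_prod (L := L) (s := s) hn W T B hT
    have h4 : (1 + ((s : ℝ) + 1) / n) ^ B.card ≤ Real.exp (s + 1) := by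
      have h5 := Real.add_one_le_exp (((s : ℝ) + 1) / n)
      calc (1 + ((s : ℝ) + 1) / n) ^ B.card ≤ Real.exp (((s : ℝ) + 1) / n) ^ B.card := by
            refine pow_le_pow_left₀ (by positivity) (by linarith) _
        _ = Real.exp (s + 1) := by
            rw [← Real.exp_nat_mul, hB]
            congr 1
            field_simp
    have h6 : (1 - q n (s + 1)) * ∏ v ∈ B.erase w, pout W n L s T v ≤
        Real.exp (s + 1) * ks W n L T B := by
      rw [hpB, h3]
      exact mul_le_mul_of_nonneg_right h4 hk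
    nlinarith
  have hA1 : ∏ v ∈ A.erase w, pin W n L s T v ≤ 100 / 49 * ∏ v ∈ A, pin W n L s T v := by
    rw [← hpA]
    nlinarith
  have hA0 : 0 ≤ ∏ v ∈ A, pin W n L s T v := prod_nonneg fun v _ => pin_nonneg hn hLn hs W T v
  have he : Real.exp 1 ≤ 2.7182818286 := Real.exp_one_lt_d9.le
  calc 1 / (2 * (n : ℝ)) * (∏ v ∈ A.erase w, pin W n L s T v) *
        (∏ v ∈ B.erase w, pout W n L s T v)
      ≤ 1 / (2 * (n : ℝ)) * (100 / 49 * ∏ v ∈ A, pin W n L s T v) *
        (2 * (Real.exp (s + 1) * ks W n L T B)) := by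
        gcongr
    _ = (100 / 49 * Real.exp 1) / n * (Real.exp s * ∏ v ∈ A, pin W n L s T v) *
        ks W n L T B := by
        rw [Real.exp_add]
        field_simp
    _ ≤ 6 / n * (Real.exp s * ∏ v ∈ A, pin W n L s T v) * ks W n L T B := by
        gcongr
        linarith

end HCU_

open HCU_

theorem hcu_proof (hHCI : Stmt_HCI) : Stmt_HCU := by
  intro V _ _ H D W n L P hn hL hH hD
  have hn' : (0 : ℝ) < n := by exact_mod_cast hn
  have hLn : L < n := by omega
  -- decomposition
  have hdec : ∀ (f : Finset V → ℝ) (x : V → ℕ),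
      ∑ T ∈ W.powerset, f T * ind (Tx W n L x = T) = f (Tx W n L x) := by
    intro f x
    rw [Finset.sum_eq_single (Tx W n L x)]
    · rw [ind_pos rfl, mul_one]
    · intro T _ hT
      rw [ind_neg (fun h => hT h.symm), mul_zero]
    · intro h
      exact absurd (Finset.mem_powerset.2 Finset.inter_subset_left) h
  -- fixed T
  have hfix : ∀ T ∈ W.powerset, Ex n (fun x => ind (Tx W n L x = T ∧
      ∃ B ∈ D, ∃ A ∈ H, ∃ w, w ∉ W ∧ Cf n L A B w x)) ≤
      6 / n * kap D W n L T * KK H W n L T * Ex n (fun x => ind (Tx W n L x = T)) := by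
    intro T hT
    rw [Finset.mem_powerset] at hT
    have hp : 0 ≤ Ex n (fun x : V → ℕ => ind (Tx W n L x = T)) :=
      Ex_nonneg fun x _ => ind_nonneg _
    have h1 : Ex n (fun x => ind (Tx W n L x = T ∧
        ∃ B ∈ D, ∃ A ∈ H, ∃ w, w ∉ W ∧ Cf n L A B w x)) ≤
        Ex n (fun x => ∑ B ∈ D, ∑ A ∈ H,
          ∑ w ∈ univ.filter (fun w => A ∩ B = {w} ∧ w ∉ W), ∑ s ∈ range L,
            ind (J W n L T B A w s x)) := by
      refine Ex_mono fun x _ => ?_
      have h2 : ind (Tx W n L x = T ∧ ∃ B ∈ D, ∃ A ∈ H, ∃ w, w ∉ W ∧ Cf n L A B w x) ≤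
          ind (∃ B ∈ D, ∃ A ∈ H, ∃ w ∈ univ.filter (fun w => A ∩ B = {w} ∧ w ∉ W),
            ∃ s ∈ range L, J W n L T B A w s x) := by
        apply ind_mono
        rintro ⟨hTx, B, hB, A, hA, w, hwW, hAB, hw1, hw2, hA', hB'⟩
        refine ⟨B, hB, A, hA, w, by simp [hAB, hwW], n - 1 - x w, by rw [mem_range]; omega,
          hTx, by omega, ?_, ?_⟩
        · intro v hv
          have := hA' v (Finset.mem_of_mem_erase hv)
          omega
        · intro v hv
          have := hB' v (Finset.mem_of_mem_erase hv)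
          omega
      refine h2.trans ((ind_exists_le _ _).trans (Finset.sum_le_sum fun B _ => ?_))
      refine (ind_exists_le _ _).trans (Finset.sum_le_sum fun A _ => ?_)
      refine (ind_exists_le _ _).trans (Finset.sum_le_sum fun w _ => ?_)
      exact ind_exists_le _ _
    refine h1.trans ?_
    rw [Ex_sum]
    have h3 : ∀ B ∈ D, Ex n (fun x => ∑ A ∈ H,
        ∑ w ∈ univ.filter (fun w => A ∩ B = {w} ∧ w ∉ W), ∑ s ∈ range L,
            ind (J W n L T B A w s x)) ≤
        6 / n * ks W n L T B * KK H W n L T * Ex n (fun x => ind (Tx W n L x = T)) := by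
      intro B hB
      rw [Ex_sum]
      have h4 : ∀ A ∈ H, Ex n (fun x =>
          ∑ w ∈ univ.filter (fun w => A ∩ B = {w} ∧ w ∉ W), ∑ s ∈ range L,
            ind (J W n L T B A w s x)) ≤
          ∑ s ∈ range L, 6 / n * (Real.exp s * ∏ v ∈ A, pin W n L s T v) * ks W n L T B *
            Ex n (fun x => ind (Tx W n L x = T)) := by
        intro A hA
        rw [Ex_sum]
        have h5 : ∀ w ∈ univ.filter (fun w => A ∩ B = {w} ∧ w ∉ W),
            Ex n (fun x => ∑ s ∈ range L, ind (J W n L T B A w s x)) ≤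
            ∑ s ∈ range L, 6 / n * (Real.exp s * ∏ v ∈ A, pin W n L s T v) * ks W n L T B *
              Ex n (fun x => ind (Tx W n L x = T)) := by
          intro w hw
          rw [Finset.mem_filter] at hw
          rw [Ex_sum]
          refine Finset.sum_le_sum fun s hs => ?_
          rw [mem_range] at hs
          exact one hHCI hn hL hs hT hw.2.1 hw.2.2 (hD B hB)
        have h6 : (univ.filter (fun w => A ∩ B = {w} ∧ w ∉ W)).card ≤ 1 := by
          rw [Finset.card_le_one]
          intro a ha b hb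
          rw [Finset.mem_filter] at ha hb
          have := ha.2.1.symm.trans hb.2.1
          exact Finset.singleton_injective this
        have h7 : 0 ≤ ∑ s ∈ range L, 6 / n * (Real.exp s * ∏ v ∈ A, pin W n L s T v) *
            ks W n L T B * Ex n (fun x => ind (Tx W n L x = T)) := by
          refine Finset.sum_nonneg fun s hs => ?_
          rw [mem_range] at hs
          have k1 := ks_nonneg W n L T B
          have k2 : 0 ≤ ∏ v ∈ A, pin W n L s T v :=
            prod_nonneg fun v _ => pin_nonneg hn hLn hs W T v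
          positivity
        refine (Finset.sum_le_sum h5).trans ?_
        rw [Finset.sum_const, nsmul_eq_mul]
        have h8 : ((univ.filter (fun w => A ∩ B = {w} ∧ w ∉ W)).card : ℝ) ≤ 1 := by
          exact_mod_cast h6
        calc _ ≤ 1 * _ := mul_le_mul_of_nonneg_right h8 h7
          _ = _ := one_mul _
      refine (Finset.sum_le_sum h4).trans (le_of_eq ?_)
      rw [Finset.sum_comm]
      unfold KK
      rw [Finset.mul_sum, Finset.sum_mul]
      refine Finset.sum_congr rfl fun s _ => ?_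
      rw [Finset.mul_sum, Finset.mul_sum, Finset.sum_mul]
      refine Finset.sum_congr rfl fun A _ => ?_
      ring
    refine (Finset.sum_le_sum h3).trans (le_of_eq ?_)
    rw [kap_eq, Finset.mul_sum, Finset.sum_mul, Finset.sum_mul]
  -- conclusion
  have hl : Ex n (fun x => ind (P (Tx W n L x) ∧
      ∃ B ∈ D, ∃ A ∈ H, ∃ w, w ∉ W ∧ Cf n L A B w x)) =
      ∑ T ∈ W.powerset, ind (P T) * Ex n (fun x => ind (Tx W n L x = T ∧
        ∃ B ∈ D, ∃ A ∈ H, ∃ w, w ∉ W ∧ Cf n L A B w x)) := by
    rw [Finset.sum_congr rfl fun T _ => (Ex_mul_left (ind (P T)) _).symm, ← Ex_sum]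
    refine Ex_congr fun x _ => ?_
    rw [ind_and]
    have := hdec (fun T => ind (P T) *
      ind (∃ B ∈ D, ∃ A ∈ H, ∃ w, w ∉ W ∧ Cf n L A B w x)) x
    rw [← this]
    refine Finset.sum_congr rfl fun T _ => ?_
    rw [ind_and]
    ring
  have hr : 6 / n * Ex n (fun x => ind (P (Tx W n L x)) * kap D W n L (Tx W n L x)
          * KK H W n L (Tx W n L x)) =
      ∑ T ∈ W.powerset, ind (P T) * (6 / n * kap D W n L T * KK H W n L T *
        Ex n (fun x => ind (Tx W n L x = T))) := by
    have e1 : ∀ T ∈ W.powerset, ind (P T) * (6 / n * kap D W n L T * KK H W n L T *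
        Ex n (fun x => ind (Tx W n L x = T))) =
        Ex n (fun x => 6 / n * (ind (P T) * kap D W n L T * KK H W n L T) *
          ind (Tx W n L x = T)) := by
      intro T _
      rw [Ex_mul_left]
      ring
    rw [Finset.sum_congr rfl e1, ← Ex_sum, ← Ex_mul_left]
    refine Ex_congr fun x _ => ?_
    exact (hdec (fun T => 6 / n * (ind (P T) * kap D W n L T * KK H W n L T)) x).symm
  rw [hl, hr]
  refine Finset.sum_le_sum fun T hT => ?_
  exact mul_le_mul_of_nonneg_left (hfix T hT) (ind_nonneg _)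

end PPB
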