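import Pool.Agent.PPB.Stmts

/-!
# PPB, module HEV: conflicts of the edges with many vertices in a small set
-/

namespace PPB

open Finset

namespace HEV_

variable {V : Type} [Fintype V] [DecidableEq V]

omit [Fintype V] in
theorem kap_nonneg (D : Finset (Finset V)) (W : Finset V) (n L : ℕ) (T : Finset V) :
    0 ≤ kap D W n L T := by
  unfold kap
  refine Finset.sum_nonneg fun B _ => ?_
  have h1 : (0 : ℝ) ≤ (1 + (L : ℝ) / n)⁻¹ := by positivity
  have h2 := ind_nonneg (Disjoint B T)
  positivity

theorem pin_nonneg {W : Finset V} {n L s : ℕ} (hsL : s < L) (hL : L < n) (T : Finset V) (v : V) :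
    0 ≤ pin W n L s T v := by
  have hn : 0 < n := by omega
  have hn' : (0 : ℝ) < n := by exact_mod_cast hn
  unfold pin
  by_cases hW : v ∉ W
  · rw [if_pos hW]
    exact q_nonneg (by omega)
  rw [if_neg hW]
  by_cases hT : v ∈ T
  · rw [if_pos hT]
    exact zero_le_one
  · rw [if_neg hT]
    refine div_nonneg ?_ ?_
    · have hs' : (s : ℝ) ≤ L := by exact_mod_cast hsL.le
      have : q n L ≤ q n s := by
        unfold q
        exact div_le_div_of_nonneg_right (by linarith) (by positivity)
      linarith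
    · have := q_le_half (n := n) (r := L)
      linarith

theorem KK_nonneg (H : Finset (Finset V)) (W : Finset V) {n L : ℕ} (hL : L < n)
    (T : Finset V) : 0 ≤ KK H W n L T := by
  unfold KK
  refine Finset.sum_nonneg fun s hs => ?_
  refine mul_nonneg (Real.exp_nonneg _) ?_
  refine Finset.sum_nonneg fun A _ => ?_
  exact Finset.prod_nonneg fun v _ => pin_nonneg (Finset.mem_range.1 hs) hL T v

theorem pointwise {E : Prop} {c K U t u a lam Q : ℝ} (hK : 0 ≤ K) (hU : 0 ≤ U) (ht : 0 < t)
    (hu : 0 < u) (ha : 0 < a) (hlam : 0 ≤ lam) :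
    ind E ≤ (c - Q) ^ 2 / a ^ 2 + K * Real.exp (lam * c) * (Real.exp (lam * (a - Q)) / t) + U / u
      + ind ((K ≤ t ∧ U ≤ u) ∧ E) := by
  have h1 : 0 ≤ (c - Q) ^ 2 / a ^ 2 := by positivity
  have h2 : 0 ≤ K * Real.exp (lam * c) * (Real.exp (lam * (a - Q)) / t) := by positivity
  have h3 : 0 ≤ U / u := by positivity
  have h4 := ind_nonneg ((K ≤ t ∧ U ≤ u) ∧ E)
  have h0 := ind_le_one E
  by_cases hc : c < Q - a
  · have : 1 ≤ (c - Q) ^ 2 / a ^ 2 := by
      rw [one_le_div (by positivity)]
      have : a ≤ Q - c := by linarith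
      calc a ^ 2 ≤ (Q - c) ^ 2 := pow_le_pow_left₀ ha.le this 2
        _ = (c - Q) ^ 2 := by ring
    linarith
  · push Not at hc
    by_cases hk : K ≤ t
    · by_cases hU' : U ≤ u
      · have : ind E ≤ ind ((K ≤ t ∧ U ≤ u) ∧ E) := ind_mono fun h => ⟨⟨hk, hU'⟩, h⟩
        linarith
      · push Not at hU'
        have : 1 ≤ U / u := by
          rw [one_le_div hu]
          exact hU'.le
        linarith
    · push Not at hk
      have h5 : 1 ≤ K * Real.exp (lam * c) * (Real.exp (lam * (a - Q)) / t) := by
        have e1 : K * Real.exp (lam * c) * (Real.exp (lam * (a - Q)) / t) =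
            K / t * Real.exp (lam * (c - (Q - a))) := by
          rw [show lam * (c - (Q - a)) = lam * c + lam * (a - Q) by ring, Real.exp_add]
          ring
        rw [e1]
        have h6 : 1 ≤ K / t := by
          rw [one_le_div ht]
          exact hk.le
        have h7 : 1 ≤ Real.exp (lam * (c - (Q - a))) := by
          rw [← Real.exp_zero]
          exact Real.exp_le_exp.2 (mul_nonneg hlam (by linarith))
        nlinarith
      linarith

end HEV_

open HEV_ in
theorem hev_proof (hTV : Stmt_HTV) (hKM : Stmt_HKM) (hKK : Stmt_HKK) (hCU : Stmt_HCU) :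
    Stmt_HEV := by
  intro V _ _ H D W n L h hn hL1 hLn hh hhn hUH hDH hDW hWh
  have hn' : (0 : ℝ) < n := by exact_mod_cast hn
  have hLltn : L < n := by omega
  have hUD : Unif D n := fun B hB => hUH B (hDH hB)
  have hL' : (0 : ℝ) < L := by exact_mod_cast hL1
  have hL50 : 50 * (L : ℝ) ≤ n := by exact_mod_cast hLn
  rcases H.eq_empty_or_nonempty with hHe | hHne
  · have h0 : Ex n (fun x => ind (∃ B ∈ D, ∃ A ∈ H, ∃ w, w ∉ W ∧ Cf n L A B w x)) = 0 := by
      have : ∀ x ∈ Om V n, ind (∃ B ∈ D, ∃ A ∈ H, ∃ w, w ∉ W ∧ Cf n L A B w x) = 0 := by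
        intro x _
        refine ind_neg ?_
        rintro ⟨B, _, A, hA, _⟩
        rw [hHe] at hA
        exact absurd hA (Finset.notMem_empty A)
      rw [Ex_congr this]
      exact Ex_const hn 0
    rw [h0]
    positivity
  have hK1 : (0 : ℝ) < H.card := by exact_mod_cast hHne.card_pos
  set K : ℝ := (H.card : ℝ) with hKdef
  set lam : ℝ := 3 * h / (100 * n) with hlam
  have hlam0 : 0 ≤ lam := by positivity
  have hlam1 : lam ≤ 1 := by
    rw [hlam, div_le_one (by positivity)]
    exact hhn
  set a : ℝ := (n : ℝ) / 100 with ha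
  have ha0 : 0 < a := by positivity
  set t : ℝ := 100 * K * (1 / 2) ^ n * Real.exp (-(47 / 100000 * h)) with ht
  have ht0 : 0 < t := by positivity
  set u : ℝ := 100 * L * K * (1 / 2) ^ n with hu
  have hu0 : 0 < u := by positivity
  set Q : ℝ := q n L * W.card with hQ
  have hq1 : q n L ≤ 1 / 2 := q_le_half
  have hq2 : 49 / 100 ≤ q n L := by
    unfold q
    rw [le_div_iff₀ (by positivity)]
    linarith
  have hWc : (0 : ℝ) ≤ W.card := Nat.cast_nonneg _
  -- the pointwise bound
  have hpt : ∀ x ∈ Om V n, ind (∃ B ∈ D, ∃ A ∈ H, ∃ w, w ∉ W ∧ Cf n L A B w x) ≤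
      ((((Tx W n L x).card : ℝ) - Q) ^ 2 * (1 / a ^ 2)
        + kap D W n L (Tx W n L x) * Real.exp (lam * (Tx W n L x).card)
          * (Real.exp (lam * (a - Q)) / t)
        + KK H W n L (Tx W n L x) * (1 / u))
        + ind ((kap D W n L (Tx W n L x) ≤ t ∧ KK H W n L (Tx W n L x) ≤ u) ∧
          ∃ B ∈ D, ∃ A ∈ H, ∃ w, w ∉ W ∧ Cf n L A B w x) := by
    intro x _
    have := pointwise (E := ∃ B ∈ D, ∃ A ∈ H, ∃ w, w ∉ W ∧ Cf n L A B w x)
      (c := ((Tx W n L x).card : ℝ)) (Q := Q) (kap_nonneg D W n L (Tx W n L x))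
      (KK_nonneg H W hLltn (Tx W n L x)) ht0 hu0 ha0 hlam0
    rw [mul_one_div, mul_one_div]
    exact this
  refine (Ex_mono hpt).trans ?_
  rw [Ex_add, Ex_add, Ex_add, Ex_mul_right, Ex_mul_right, Ex_mul_right]
  -- the four terms
  have T1 : Ex n (fun x => (((Tx W n L x).card : ℝ) - Q) ^ 2) * (1 / a ^ 2) ≤ 2500 / h := by
    have h1 := hTV V n L W hn hLltn.le
    rw [← hQ] at h1
    calc Ex n (fun x => (((Tx W n L x).card : ℝ) - Q) ^ 2) * (1 / a ^ 2)
        ≤ (W.card : ℝ) / 4 * (1 / a ^ 2) := mul_le_mul_of_nonneg_right h1 (by positivity)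
      _ ≤ 2500 / h := by
        rw [ha, le_div_iff₀ hh]
        have : (W.card : ℝ) / 4 * (1 / ((n : ℝ) / 100) ^ 2) * h =
            2500 * ((W.card : ℝ) * h) / n ^ 2 := by
          field_simp
          ring
        rw [this, div_le_iff₀ (by positivity)]
        linarith
  have T2 : Ex n (fun x => kap D W n L (Tx W n L x) * Real.exp (lam * (Tx W n L x).card))
      * (Real.exp (lam * (a - Q)) / t) ≤ 1 / 100 := by
    have h1 := hKM V D W n L lam hn hLltn.le hlam0 hlam1 hUD hDW
    have hDK : (D.card : ℝ) ≤ K := by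
      rw [hKdef]
      exact_mod_cast Finset.card_le_card hDH
    calc Ex n (fun x => kap D W n L (Tx W n L x) * Real.exp (lam * (Tx W n L x).card))
          * (Real.exp (lam * (a - Q)) / t)
        ≤ (D.card : ℝ) * (1 / 2) ^ n
          * Real.exp (q n L * ((lam + lam ^ 2) * W.card - lam * n / 12))
          * (Real.exp (lam * (a - Q)) / t) :=
          mul_le_mul_of_nonneg_right h1 (by positivity)
      _ ≤ K * (1 / 2) ^ n
          * Real.exp (q n L * ((lam + lam ^ 2) * W.card - lam * n / 12))
          * (Real.exp (lam * (a - Q)) / t) := by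
          refine mul_le_mul_of_nonneg_right ?_ (by positivity)
          refine mul_le_mul_of_nonneg_right ?_ (Real.exp_nonneg _)
          exact mul_le_mul_of_nonneg_right hDK (by positivity)
      _ = K * (1 / 2) ^ n * Real.exp (q n L * ((lam + lam ^ 2) * W.card - lam * n / 12)
          + lam * (a - Q)) / t := by
          rw [Real.exp_add]
          ring
      _ ≤ K * (1 / 2) ^ n * Real.exp (-(47 / 100000 * h)) / t := by
          refine div_le_div_of_nonneg_right ?_ ht0.le
          refine mul_le_mul_of_nonneg_left (Real.exp_le_exp.2 ?_) (by positivity)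
          have e1 : q n L * ((lam + lam ^ 2) * W.card - lam * n / 12) + lam * (a - Q) =
              q n L * (lam ^ 2 * W.card) - q n L * (lam * n / 12) + lam * a := by
            rw [hQ]
            ring
          have e2 : lam * n = 3 * h / 100 := by
            rw [hlam]
            field_simp
          have e3 : lam ^ 2 * W.card ≤ 9 * h / 10000 := by
            have : lam ^ 2 * W.card = 9 * h / 10000 * (((W.card : ℝ) * h) / n ^ 2) := by
              rw [hlam]
              field_simp
              ring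
            rw [this]
            have h2 : ((W.card : ℝ) * h) / n ^ 2 ≤ 1 := by
              rw [div_le_one (by positivity)]
              exact hWh
            have h3 : 0 ≤ 9 * h / 10000 := by positivity
            nlinarith
          have e4 : lam * a = 3 * h / 10000 := by
            rw [ha, mul_div_assoc', e2]
            ring
          have e5 : 0 ≤ lam ^ 2 * W.card := by positivity
          rw [e1, e2, e4]
          have e6 : q n L * (lam ^ 2 * W.card) ≤ 1 / 2 * (9 * h / 10000) :=
            mul_le_mul hq1 e3 e5 (by norm_num)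
          have e7 : 49 / 100 * (3 * h / 100 / 12) ≤ q n L * (3 * h / 100 / 12) :=
            mul_le_mul_of_nonneg_right hq2 (by positivity)
          linarith
      _ = 1 / 100 := by
          rw [ht]
          have : Real.exp (-(47 / 100000 * h)) ≠ 0 := (Real.exp_pos _).ne'
          have h2 : K ≠ 0 := hK1.ne'
          have h3 : ((1 : ℝ) / 2) ^ n ≠ 0 := by positivity
          rw [div_eq_div_iff (by positivity) (by norm_num)]
          ring
  have T3 : Ex n (fun x => KK H W n L (Tx W n L x)) * (1 / u) ≤ 1 / 100 := by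
    have h1 := hKK V H W n L hn hLltn hUH
    calc Ex n (fun x => KK H W n L (Tx W n L x)) * (1 / u)
        ≤ (L * K * (1 / 2) ^ n) * (1 / u) := mul_le_mul_of_nonneg_right h1 (by positivity)
      _ = 1 / 100 := by
        rw [hu, mul_one_div, div_eq_div_iff (by positivity) (by norm_num)]
        ring
  have T4 : Ex n (fun x => ind ((kap D W n L (Tx W n L x) ≤ t ∧ KK H W n L (Tx W n L x) ≤ u) ∧
          ∃ B ∈ D, ∃ A ∈ H, ∃ w, w ∉ W ∧ Cf n L A B w x)) ≤
      60000 * (K ^ 2 / (n * 4 ^ n)) * L * Real.exp (-(47 / 100000 * h)) := by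
    have h1 := hCU V H D W n L (fun T => kap D W n L T ≤ t ∧ KK H W n L T ≤ u) hn hLn hUH hUD
    refine h1.trans ?_
    have h2 : Ex n (fun x => ind (kap D W n L (Tx W n L x) ≤ t ∧ KK H W n L (Tx W n L x) ≤ u)
        * kap D W n L (Tx W n L x) * KK H W n L (Tx W n L x)) ≤ t * u := by
      calc Ex n (fun x => ind (kap D W n L (Tx W n L x) ≤ t ∧ KK H W n L (Tx W n L x) ≤ u)
            * kap D W n L (Tx W n L x) * KK H W n L (Tx W n L x))
          ≤ Ex n (fun _ : V → ℕ => t * u) := by
            refine Ex_mono fun x _ => ?_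
            by_cases hP : kap D W n L (Tx W n L x) ≤ t ∧ KK H W n L (Tx W n L x) ≤ u
            · rw [ind_pos hP, one_mul]
              exact mul_le_mul hP.1 hP.2 (KK_nonneg H W hLltn _) ht0.le
            · rw [ind_neg hP, zero_mul, zero_mul]
              positivity
        _ = t * u := Ex_const hn _
    calc 6 / (n : ℝ) * Ex n (fun x => ind (kap D W n L (Tx W n L x) ≤ t ∧
            KK H W n L (Tx W n L x) ≤ u)
          * kap D W n L (Tx W n L x) * KK H W n L (Tx W n L x))
        ≤ 6 / (n : ℝ) * (t * u) := mul_le_mul_of_nonneg_left h2 (by positivity)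
      _ = 60000 * (K ^ 2 / (n * 4 ^ n)) * L * Real.exp (-(47 / 100000 * h)) := by
        have e4 : (4 : ℝ) ^ n = 2 ^ n * 2 ^ n := by
          rw [← mul_pow]
          norm_num
        rw [ht, hu, e4, one_div, inv_pow]
        have h3 : (2 : ℝ) ^ n ≠ 0 := by positivity
        field_simp
        ring
  linarith

end PPB
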