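import Pool.Agent.PPB.Stmts

/-!
# Squad PPB (MP_5e7c84_co), module HKK: the mean of `KK`
-/

set_option autoImplicit false

namespace PPB

open Finset

namespace HKK_

variable {V : Type} [Fintype V] [DecidableEq V]

/-- the factor at a vertex as a function of its position -/
noncomputable def hh (W : Finset V) (n L s : ℕ) (v : V) (j : ℕ) : ℝ :=
  if v ∉ W then q n s else if j < n - L then 1 else (q n s - q n L) / (1 - q n L)

lemma pin_eq (W : Finset V) (n L s : ℕ) (x : V → ℕ) (v : V) :
    pin W n L s (Tx W n L x) v = hh W n L s v (x v) := by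
  unfold pin hh
  by_cases hv : v ∈ W
  · have h1 : v ∈ Tx W n L x ↔ x v < n - L := by
      unfold Tx
      rw [Finset.mem_inter, mem_Z]
      exact ⟨fun h => h.2, fun h => ⟨hv, h⟩⟩
    simp only [hv, not_true_eq_false, if_false, h1]
  · simp only [hv, not_false_eq_true, if_true]

lemma avg (W : Finset V) {n L s : ℕ} (hn : 0 < n) (hL : L < n) (v : V) :
    (∑ j ∈ range (2 * n), hh W n L s v j) / (2 * n) = q n s := by
  have hn' : (0 : ℝ) < n := by exact_mod_cast hn
  by_cases hv : v ∈ W
  · set r : ℝ := (q n s - q n L) / (1 - q n L) with hr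
    have h1 : ∀ j ∈ range (2 * n), hh W n L s v j = r + (1 - r) * ind (j < n - L) := by
      intro j _
      unfold hh
      by_cases hj : j < n - L
      · rw [ind_pos hj]
        simp only [hv, not_true_eq_false, if_false, hj, if_true]
        ring
      · rw [ind_neg hj]
        simp only [hv, not_true_eq_false, if_false, hj]
        rw [← hr]
        ring
    rw [Finset.sum_congr rfl h1, Finset.sum_add_distrib, ← Finset.mul_sum, add_div, mul_div_assoc,
      sum_ind_lt hn hL.le]
    have h2 : (∑ _j ∈ range (2 * n), r) / (2 * n) = r := by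
      rw [Finset.sum_const, Finset.card_range, nsmul_eq_mul]
      push_cast
      field_simp
    rw [h2]
    have h3 : 1 - q n L ≠ 0 := by
      have := q_le_half (n := n) (r := L)
      linarith
    rw [hr]
    field_simp
    ring
  · have h1 : ∀ j ∈ range (2 * n), hh W n L s v j = q n s := by
      intro j _
      unfold hh
      simp only [hv, not_false_eq_true, if_true]
    rw [Finset.sum_congr rfl h1, Finset.sum_const, Finset.card_range, nsmul_eq_mul]
    push_cast
    field_simp

lemma ex_pin (W A : Finset V) {n L s : ℕ} (hn : 0 < n) (hL : L < n) :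
    Ex n (fun x => ∏ v ∈ A, pin W n L s (Tx W n L x) v) = q n s ^ A.card := by
  have h1 : Ex n (fun x => ∏ v ∈ A, pin W n L s (Tx W n L x) v) =
      Ex n (fun x => (1 : ℝ) * ∏ v ∈ A, hh W n L s v (x v)) := by
    refine Ex_congr fun x _ => ?_
    rw [one_mul]
    exact Finset.prod_congr rfl fun v _ => pin_eq W n L s x v
  rw [h1, Ex_prod hn A (fun _ => (1 : ℝ)) (hh W n L s) (fun _ _ _ _ => rfl), Ex_const hn, one_mul,
    Finset.prod_congr rfl (fun v _ => avg W hn hL v), Finset.prod_const]

end HKK_

open HKK_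

theorem hkk_proof : Stmt_HKK := by
  intro V _ _ H W n L hn hL hH
  have hn' : (0 : ℝ) < n := by exact_mod_cast hn
  have h1 : Ex n (fun x => KK H W n L (Tx W n L x)) =
      ∑ s ∈ range L, Real.exp s * ∑ A ∈ H, q n s ^ A.card := by
    unfold KK
    rw [Ex_sum]
    refine Finset.sum_congr rfl fun s _ => ?_
    rw [Ex_mul_left, Ex_sum]
    congr 1
    exact Finset.sum_congr rfl fun A _ => ex_pin W A hn hL
  rw [h1]
  have h2 : ∀ s ∈ range L, Real.exp s * ∑ A ∈ H, q n s ^ A.card ≤ (H.card : ℝ) * (1 / 2) ^ n := by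
    intro s hs
    have hsn : s ≤ n := by
      have := Finset.mem_range.1 hs
      omega
    have h3 : ∑ A ∈ H, q n s ^ A.card ≤ ∑ _A ∈ H, (1 / 2 : ℝ) ^ n * Real.exp (-(s : ℝ)) := by
      refine Finset.sum_le_sum fun A hA => ?_
      rw [hH A hA]
      have h4 := q_pow_le (m := n) hsn hn
      have h5 : (s : ℝ) * n / n = s := by field_simp
      rwa [h5] at h4
    rw [Finset.sum_const, nsmul_eq_mul] at h3
    calc Real.exp s * ∑ A ∈ H, q n s ^ A.card
        ≤ Real.exp s * ((H.card : ℝ) * ((1 / 2 : ℝ) ^ n * Real.exp (-(s : ℝ)))) :=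
          mul_le_mul_of_nonneg_left h3 (Real.exp_nonneg _)
      _ = (H.card : ℝ) * (1 / 2) ^ n * (Real.exp s * Real.exp (-(s : ℝ))) := by ring
      _ = (H.card : ℝ) * (1 / 2) ^ n := by rw [← Real.exp_add, add_neg_cancel, Real.exp_zero, mul_one]
  calc ∑ s ∈ range L, Real.exp s * ∑ A ∈ H, q n s ^ A.card
      ≤ ∑ _s ∈ range L, (H.card : ℝ) * (1 / 2) ^ n := Finset.sum_le_sum h2
    _ = L * (H.card : ℝ) * (1 / 2) ^ n := by
        rw [Finset.sum_const, Finset.card_range, nsmul_eq_mul]
        ring

end PPB
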