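import Pool.Agent.PPB.Stmts

/-!
# Module HKM of squad PPB: the tilted mean of `kap`
-/

namespace PPB

open Finset

namespace HKM_

variable {V : Type} [Fintype V] [DecidableEq V]

/-- the factor at a vertex -/
noncomputable def fac (B : Finset V) (n L : ℕ) (lam : ℝ) (v : V) (j : ℕ) : ℝ :=
  (if v ∈ B then ind (¬ j < n - L) else 1) * Real.exp (lam * ind (j < n - L))

lemma card_Tx (W : Finset V) (n L : ℕ) (x : V → ℕ) :
    ((Tx W n L x).card : ℝ) = ∑ v ∈ W, ind (x v < n - L) := by
  have h : Tx W n L x = W.filter fun v => x v < n - L := by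
    ext v
    simp [Tx, mem_Z]
  rw [h, Finset.card_filter]
  push_cast
  refine Finset.sum_congr rfl fun v _ => ?_
  simp [ind]

lemma pointwise (B W : Finset V) (n L : ℕ) (lam : ℝ) (x : V → ℕ) :
    ind (Disjoint B (Tx W n L x)) * Real.exp (lam * (Tx W n L x).card) = ∏ v ∈ W, fac B n L lam v (x v) := by
  unfold fac
  rw [Finset.prod_mul_distrib, ← Real.exp_sum, ← Finset.mul_sum, ← card_Tx]
  congr 1
  have h : Disjoint B (Tx W n L x) ↔ ∀ v ∈ W, (v ∈ B → ¬ x v < n - L) := by
    rw [Finset.disjoint_left]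
    simp only [Tx, Finset.mem_inter, mem_Z, not_and]
    constructor
    · intro h v hv hB; exact h hB hv
    · intro h v hB hv; exact h v hv hB
  rw [ind_congr h, ind_forall]
  refine Finset.prod_congr rfl fun v _ => ?_
  by_cases hv : v ∈ B
  · simp [hv]
  · rw [if_neg hv]
    exact ind_pos fun h => absurd h hv

lemma avg {n L : ℕ} (hn : 0 < n) (hL : L ≤ n) (a b : ℝ) :
    (∑ j ∈ range (2 * n), (a + b * ind (j < n - L))) / (2 * n) = a + b * q n L := by
  rw [← sum_ind_lt hn hL, Finset.sum_add_distrib, ← Finset.mul_sum, Finset.sum_const, Finset.card_range,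
    nsmul_eq_mul]
  have hn' : (n : ℝ) ≠ 0 := by positivity
  push_cast
  field_simp

lemma avg_fac {n L : ℕ} (hn : 0 < n) (hL : L ≤ n) (B : Finset V) (lam : ℝ) (v : V) :
    (∑ j ∈ range (2 * n), fac B n L lam v j) / (2 * n) =
      if v ∈ B then 1 - q n L else 1 + (Real.exp lam - 1) * q n L := by
  by_cases hv : v ∈ B
  · rw [if_pos hv]
    have h : ∀ j ∈ range (2 * n), fac B n L lam v j = 1 + (-1) * ind (j < n - L) := by
      intro j _
      unfold fac
      rw [if_pos hv]
      by_cases h : j < n - L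
      · rw [ind_pos h, ind_neg (not_not.2 h)]; ring
      · rw [ind_neg h, ind_pos h]; simp
    rw [Finset.sum_congr rfl h, avg hn hL]
    ring
  · rw [if_neg hv]
    have h : ∀ j ∈ range (2 * n), fac B n L lam v j = 1 + (Real.exp lam - 1) * ind (j < n - L) := by
      intro j _
      unfold fac
      rw [if_neg hv]
      by_cases h : j < n - L
      · rw [ind_pos h]; ring_nf
      · rw [ind_neg h]; simp
    rw [Finset.sum_congr rfl h, avg hn hL]

lemma mean {n L : ℕ} (hn : 0 < n) (hL : L ≤ n) (B W : Finset V) (lam : ℝ) :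
    Ex n (fun x : V → ℕ => ind (Disjoint B (Tx W n L x)) * Real.exp (lam * (Tx W n L x).card)) =
      (1 - q n L) ^ (B ∩ W).card * (1 + (Real.exp lam - 1) * q n L) ^ (W \ B).card := by
  have h1 : Ex n (fun x : V → ℕ => ind (Disjoint B (Tx W n L x)) * Real.exp (lam * (Tx W n L x).card)) =
      Ex n (fun x : V → ℕ => 1 * ∏ v ∈ W, fac B n L lam v (x v)) :=
    Ex_congr fun x _ => by rw [pointwise, one_mul]
  rw [h1, Ex_prod hn W (fun _ => 1) (fac B n L lam) (fun _ _ _ _ => rfl), Ex_const hn, one_mul]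
  rw [Finset.prod_congr rfl fun v _ => avg_fac hn hL B lam v, Finset.prod_ite, Finset.prod_const,
    Finset.prod_const]
  congr 3
  · ext v
    simp [and_comm]
  · ext v
    simp

end HKM_

open HKM_ in
theorem hkm_proof : Stmt_HKM := by
  intro V _ _ D W n L lam hn hL hl0 hl1 hU hD
  have hn' : (0 : ℝ) < n := by exact_mod_cast hn
  have hq0 : 0 ≤ q n L := q_nonneg hL
  have hb : (0 : ℝ) < 1 + (L : ℝ) / n := by positivity
  have hq1 : 1 - q n L = (1 / 2) * (1 + (L : ℝ) / n) := by
    unfold q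
    field_simp
    ring
  have hexp : Real.exp lam - 1 ≤ lam + lam ^ 2 := by
    have h := Real.abs_exp_sub_one_sub_id_le (x := lam) (by rw [abs_of_nonneg hl0]; exact hl1)
    have h2 := (abs_le.1 h).2
    linarith
  have hexp0 : 0 ≤ Real.exp lam - 1 := by
    have := Real.one_le_exp hl0
    linarith
  have h1 : Ex n (fun x : V → ℕ => kap D W n L (Tx W n L x) * Real.exp (lam * (Tx W n L x).card)) =
      ∑ B ∈ D, (1 / 2) ^ (B \ W).card * ((1 + (L : ℝ) / n)⁻¹) ^ (B ∩ W).card *
        ((1 - q n L) ^ (B ∩ W).card * (1 + (Real.exp lam - 1) * q n L) ^ (W \ B).card) := by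
    have h2 : Ex n (fun x : V → ℕ => kap D W n L (Tx W n L x) * Real.exp (lam * (Tx W n L x).card)) =
        Ex n (fun x : V → ℕ => ∑ B ∈ D, ((1 / 2) ^ (B \ W).card * ((1 + (L : ℝ) / n)⁻¹) ^ (B ∩ W).card) *
          (ind (Disjoint B (Tx W n L x)) * Real.exp (lam * (Tx W n L x).card))) := by
      refine Ex_congr fun x _ => ?_
      unfold kap
      rw [Finset.sum_mul]
      refine Finset.sum_congr rfl fun B _ => ?_
      ring
    rw [h2, Ex_sum]
    refine Finset.sum_congr rfl fun B _ => ?_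
    rw [Ex_mul_left, mean hn hL]
  rw [h1, mul_assoc (D.card : ℝ), ← nsmul_eq_mul]
  refine Finset.sum_le_card_nsmul D _ _ fun B hB => ?_
  have hc : (B \ W).card + (B ∩ W).card = n := by
    rw [Finset.card_sdiff_add_card_inter]
    exact hU B hB
  have e1 : (1 / 2 : ℝ) ^ (B \ W).card * ((1 + (L : ℝ) / n)⁻¹) ^ (B ∩ W).card * (1 - q n L) ^ (B ∩ W).card =
      (1 / 2) ^ n := by
    rw [hq1, mul_pow, mul_assoc, mul_comm ((1 / 2 : ℝ) ^ (B ∩ W).card), ← mul_assoc (((1 + (L : ℝ) / n)⁻¹) ^ _),
      ← mul_pow, inv_mul_cancel₀ hb.ne', one_pow, one_mul, ← pow_add, hc]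
  rw [← mul_assoc, e1]
  refine mul_le_mul_of_nonneg_left ?_ (by positivity)
  have hcW : ((W \ B).card : ℝ) = W.card - (B ∩ W).card := by
    have h := Finset.card_sdiff_add_card_inter W B
    rw [Finset.inter_comm] at h
    have h' : ((W \ B).card : ℝ) + (B ∩ W).card = W.card := by exact_mod_cast h
    linarith
  have hbn : (n : ℝ) / 12 ≤ (B ∩ W).card := by
    have h := hD B hB
    have h' : (n : ℝ) ≤ 12 * (B ∩ W).card := by exact_mod_cast h
    linarith
  calc (1 + (Real.exp lam - 1) * q n L) ^ (W \ B).card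
      ≤ (Real.exp ((Real.exp lam - 1) * q n L)) ^ (W \ B).card := by
        refine pow_le_pow_left₀ (by positivity) ?_ _
        have := Real.add_one_le_exp ((Real.exp lam - 1) * q n L)
        linarith
    _ = Real.exp (((W \ B).card : ℝ) * ((Real.exp lam - 1) * q n L)) := by rw [← Real.exp_nat_mul]
    _ ≤ Real.exp (q n L * ((lam + lam ^ 2) * W.card - lam * n / 12)) := by
        refine Real.exp_le_exp.2 ?_
        have h2 : ((W \ B).card : ℝ) * (Real.exp lam - 1) ≤ (W \ B).card * (lam + lam ^ 2) :=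
          mul_le_mul_of_nonneg_left hexp (Nat.cast_nonneg _)
        have h3 : ((W \ B).card : ℝ) * (lam + lam ^ 2) ≤ (lam + lam ^ 2) * W.card - lam * n / 12 := by
          rw [hcW]
          have h4 : lam * ((n : ℝ) / 12) ≤ lam * (B ∩ W).card := mul_le_mul_of_nonneg_left hbn hl0
          have h5 : 0 ≤ lam ^ 2 * ((B ∩ W).card : ℝ) := by positivity
          nlinarith
        have h6 := mul_le_mul_of_nonneg_left (h2.trans h3) hq0
        calc ((W \ B).card : ℝ) * ((Real.exp lam - 1) * q n L)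
            = q n L * (((W \ B).card : ℝ) * (Real.exp lam - 1)) := by ring
          _ ≤ _ := h6

end PPB
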