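import Pool.Agent.PPB.Stmts

/-!
# PPB, module HPA: a good partition of `U`
-/

namespace PPB

open Finset

namespace HPA_

variable {V : Type} [DecidableEq V]

/-- second moment of a random subset -/
theorem second_moment (B : Finset V) (U : Finset V) :
    ∑ W ∈ U.powerset, (2 * ((B ∩ W).card : ℤ) - ((B ∩ U).card : ℤ)) ^ 2 =
      (2 : ℤ) ^ U.card * ((B ∩ U).card : ℤ) := by
  induction U using Finset.induction_on with
  | empty => simp
  | insert a U ha ih =>
    rw [Finset.sum_powerset_insert ha, Finset.card_insert_of_notMem ha]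
    by_cases haB : a ∈ B
    · have h1 : (B ∩ insert a U).card = (B ∩ U).card + 1 := by
        rw [Finset.inter_insert_of_mem haB, Finset.card_insert_of_notMem]
        intro h
        exact ha (Finset.mem_inter.1 h).2
      have h2 : ∀ W ∈ U.powerset, (B ∩ insert a W).card = (B ∩ W).card + 1 := by
        intro W hW
        rw [Finset.inter_insert_of_mem haB, Finset.card_insert_of_notMem]
        intro h
        exact ha (Finset.mem_powerset.1 hW (Finset.mem_inter.1 h).2)
      have h3 : ∑ W ∈ U.powerset, (2 * ((B ∩ insert a W).card : ℤ) - ((B ∩ insert a U).card : ℤ)) ^ 2 =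
          ∑ W ∈ U.powerset, (2 * (((B ∩ W).card + 1 : ℕ) : ℤ) - ((B ∩ insert a U).card : ℤ)) ^ 2 :=
        Finset.sum_congr rfl fun W hW => by rw [h2 W hW]
      rw [h3, h1, ← Finset.sum_add_distrib]
      have h4 : ∀ W ∈ U.powerset,
          (2 * ((B ∩ W).card : ℤ) - (((B ∩ U).card + 1 : ℕ) : ℤ)) ^ 2 +
            (2 * (((B ∩ W).card + 1 : ℕ) : ℤ) - (((B ∩ U).card + 1 : ℕ) : ℤ)) ^ 2 =
          2 * (2 * ((B ∩ W).card : ℤ) - ((B ∩ U).card : ℤ)) ^ 2 + 2 := by
        intro W _
        push_cast
        ring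
      rw [Finset.sum_congr rfl h4, Finset.sum_add_distrib, ← Finset.mul_sum, ih,
        Finset.sum_const, Finset.card_powerset]
      push_cast
      rw [nsmul_eq_mul]
      push_cast
      ring
    · have h1 : (B ∩ insert a U).card = (B ∩ U).card := by
        rw [Finset.inter_insert_of_notMem haB]
      have h3 : ∑ W ∈ U.powerset, (2 * ((B ∩ insert a W).card : ℤ) - ((B ∩ insert a U).card : ℤ)) ^ 2 =
          ∑ W ∈ U.powerset, (2 * ((B ∩ W).card : ℤ) - ((B ∩ insert a U).card : ℤ)) ^ 2 :=
        Finset.sum_congr rfl fun W _ => by rw [Finset.inter_insert_of_notMem haB]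
      rw [h3, h1, ih]
      ring

/-- the number of bad sets `W` for `B` -/
theorem bad_le (B U : Finset V) (n : ℕ) (hn : 0 < n) :
    n * (U.powerset.filter (fun W => n < 4 * (B ∩ U).card ∧
      (12 * (B ∩ W).card < n ∨ 12 * (B ∩ (U \ W)).card < n))).card ≤ 36 * 2 ^ U.card := by
  by_cases hb : n < 4 * (B ∩ U).card
  · have hb0 : 0 < (B ∩ U).card := by omega
    set N := (U.powerset.filter (fun W => n < 4 * (B ∩ U).card ∧
      (12 * (B ∩ W).card < n ∨ 12 * (B ∩ (U \ W)).card < n))).card with hN
    have h1 : ((B ∩ U).card : ℤ) ^ 2 * N ≤ 9 * ((2 : ℤ) ^ U.card * ((B ∩ U).card : ℤ)) := by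
      rw [← second_moment B U, Finset.mul_sum, mul_comm]
      calc (N : ℤ) * ((B ∩ U).card : ℤ) ^ 2
          = ∑ _W ∈ U.powerset.filter (fun W => n < 4 * (B ∩ U).card ∧
              (12 * (B ∩ W).card < n ∨ 12 * (B ∩ (U \ W)).card < n)),
              ((B ∩ U).card : ℤ) ^ 2 := by
            rw [Finset.sum_const, nsmul_eq_mul]
        _ ≤ ∑ W ∈ U.powerset.filter (fun W => n < 4 * (B ∩ U).card ∧
              (12 * (B ∩ W).card < n ∨ 12 * (B ∩ (U \ W)).card < n)),
              9 * (2 * ((B ∩ W).card : ℤ) - ((B ∩ U).card : ℤ)) ^ 2 := by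
            refine Finset.sum_le_sum fun W hW => ?_
            rw [Finset.mem_filter, Finset.mem_powerset] at hW
            obtain ⟨hWU, -, hW2⟩ := hW
            have hsum : (B ∩ W).card + (B ∩ (U \ W)).card = (B ∩ U).card := by
              rw [← Finset.card_union_of_disjoint]
              · congr 1
                ext v
                simp only [Finset.mem_union, Finset.mem_inter, Finset.mem_sdiff]
                constructor
                · rintro (⟨h3, h4⟩ | ⟨h3, h4, -⟩)
                  · exact ⟨h3, hWU h4⟩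
                  · exact ⟨h3, h4⟩
                · rintro ⟨h3, h4⟩
                  by_cases hv : v ∈ W
                  · exact Or.inl ⟨h3, hv⟩
                  · exact Or.inr ⟨h3, h4, hv⟩
              · rw [Finset.disjoint_left]
                intro v hv hv'
                simp only [Finset.mem_inter, Finset.mem_sdiff] at hv hv'
                exact hv'.2.2 hv.2
            rcases hW2 with h | h
            · have h5 : ((B ∩ U).card : ℤ) ≤ 3 * ((B ∩ U).card - 2 * (B ∩ W).card) := by omega
              nlinarith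
            · have h5 : ((B ∩ U).card : ℤ) ≤ 3 * (2 * (B ∩ W).card - (B ∩ U).card) := by omega
              nlinarith
        _ ≤ ∑ W ∈ U.powerset, 9 * (2 * ((B ∩ W).card : ℤ) - ((B ∩ U).card : ℤ)) ^ 2 :=
            Finset.sum_le_sum_of_subset_of_nonneg (Finset.filter_subset _ _)
              fun W _ _ => by positivity
    have h2 : ((B ∩ U).card : ℤ) * N ≤ 9 * 2 ^ U.card := by
      have hb1 : (0 : ℤ) < (B ∩ U).card := by exact_mod_cast hb0
      refine le_of_mul_le_mul_left ?_ hb1
      calc ((B ∩ U).card : ℤ) * ((B ∩ U).card * N) = ((B ∩ U).card : ℤ) ^ 2 * N := by ring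
        _ ≤ _ := h1
        _ = _ := by ring
    have h3 : (B ∩ U).card * N ≤ 9 * 2 ^ U.card := by exact_mod_cast h2
    calc n * N ≤ (4 * (B ∩ U).card) * N := Nat.mul_le_mul_right _ hb.le
      _ = 4 * ((B ∩ U).card * N) := by ring
      _ ≤ 4 * (9 * 2 ^ U.card) := Nat.mul_le_mul_left _ h3
      _ = _ := by ring
  · have h0 : U.powerset.filter (fun W => n < 4 * (B ∩ U).card ∧
      (12 * (B ∩ W).card < n ∨ 12 * (B ∩ (U \ W)).card < n)) = ∅ := by
      apply Finset.filter_eq_empty_iff.2
      intro W _ h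
      exact hb h.1
    rw [h0]
    simp

end HPA_

theorem hpa_proof : Stmt_HPA := by
  intro V _ _ H n U hn
  by_contra hcon
  push Not at hcon
  have h1 : ∑ W ∈ U.powerset, n * (H.filter (fun B => n < 4 * (B ∩ U).card ∧
      (12 * (B ∩ W).card < n ∨ 12 * (B ∩ (U \ W)).card < n))).card ≤
      ∑ _W ∈ U.powerset, 36 * H.card := by
    rw [← Finset.mul_sum]
    have h2 : ∑ W ∈ U.powerset, (H.filter (fun B => n < 4 * (B ∩ U).card ∧
        (12 * (B ∩ W).card < n ∨ 12 * (B ∩ (U \ W)).card < n))).card =
        ∑ B ∈ H, (U.powerset.filter (fun W => n < 4 * (B ∩ U).card ∧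
        (12 * (B ∩ W).card < n ∨ 12 * (B ∩ (U \ W)).card < n))).card := by
      simp only [Finset.card_filter]
      rw [Finset.sum_comm]
    rw [h2, Finset.mul_sum, Finset.sum_const, Finset.card_powerset]
    calc ∑ B ∈ H, n * (U.powerset.filter (fun W => n < 4 * (B ∩ U).card ∧
        (12 * (B ∩ W).card < n ∨ 12 * (B ∩ (U \ W)).card < n))).card
        ≤ ∑ _B ∈ H, 36 * 2 ^ U.card := Finset.sum_le_sum fun B _ => HPA_.bad_le B U n hn
      _ = _ := by
        rw [Finset.sum_const, smul_eq_mul, smul_eq_mul]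
        ring
  have h3 : ∑ _W ∈ U.powerset, 36 * H.card <
      ∑ W ∈ U.powerset, n * (H.filter (fun B => n < 4 * (B ∩ U).card ∧
      (12 * (B ∩ W).card < n ∨ 12 * (B ∩ (U \ W)).card < n))).card :=
    Finset.sum_lt_sum_of_nonempty (Finset.powerset_nonempty U) fun W hW =>
      hcon W (Finset.mem_powerset.1 hW)
  exact absurd h1 (not_le.2 h3)

end PPB
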