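import Pool.Agent.PPB.Stmts

/-!
# HRB: a red bad edge gives a conflict at its deepest vertex
-/

namespace PPB

open Finset

theorem hrb_proof : Stmt_HRB := by
  intro V _ _ H n L B x _hL hRB hnd
  obtain ⟨⟨w₀, hw₀B, hw₀⟩, hall⟩ := hRB
  obtain ⟨w, hw, hmin⟩ := Finset.exists_min_image (B.filter fun w => x w < n) x
    ⟨w₀, Finset.mem_filter.2 ⟨hw₀B, hw₀⟩⟩
  obtain ⟨hwB, hwn⟩ := Finset.mem_filter.1 hw
  obtain ⟨A, hA, hAB, hAw⟩ := hall w hwB hwn
  refine ⟨A, hA, w, hAB, ?_, hwn, hAw, ?_⟩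
  · by_contra hlt
    refine hnd A hA fun v hv => ?_
    rw [mem_Z]
    have := hAw v hv
    omega
  · intro v hv
    by_cases hvn : x v < n
    · exact hmin v (Finset.mem_filter.2 ⟨hv, hvn⟩)
    · omega

end PPB
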