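import Pool.Agent.PPB.Stmts

/-!
# Squad PPB, module HRS: union bound for the conflicts of a single edge
-/

namespace PPB

open Finset

namespace HRS_

theorem sum_eq {n k : ℕ} (hk : k < 2 * n) :
    (∑ j ∈ range (2 * n), ind (j = k)) / (2 * n) = 1 / (2 * n : ℝ) := by
  have h : ∑ j ∈ range (2 * n), ind (j = k) = 1 := by
    rw [Finset.sum_eq_single k]
    · exact ind_pos rfl
    · intro j _ hj
      exact ind_neg hj
    · intro h
      exact absurd (Finset.mem_range.2 hk) h
  rw [h]

theorem sum_ge {n s : ℕ} (hs : s + 1 ≤ n) :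
    (∑ j ∈ range (2 * n), ind (n - 1 - s ≤ j)) / (2 * n) = 1 - q n (s + 1) := by
  have hn : 0 < n := by omega
  have h1 : ∀ j ∈ range (2 * n), ind (n - 1 - s ≤ j) = 1 - ind (j < n - (s + 1)) := by
    intro j _
    rw [← ind_not]
    exact ind_congr (by omega)
  rw [Finset.sum_congr rfl h1, Finset.sum_sub_distrib, sub_div, sum_ind_lt hn hs]
  have hn' : (2 * n : ℝ) ≠ 0 := by positivity
  congr 1
  rw [Finset.sum_const, Finset.card_range, nsmul_eq_mul, mul_one]
  push_cast
  exact div_self hn'

/-- the factor of a vertex -/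
noncomputable def hf {V : Type} [DecidableEq V] (A : Finset V) (w : V) (n s : ℕ) (v : V) (j : ℕ) : ℝ :=
  if v = w then ind (j = n - 1 - s) else if v ∈ A then ind (j < n - s) else ind (n - 1 - s ≤ j)

theorem pair {V : Type} [Fintype V] [DecidableEq V] {n s : ℕ} {A B : Finset V} {w : V}
    (hs : s + 1 ≤ n) (hA : A.card = n) (hB : B.card = n) (hw : A ∩ B = {w}) :
    Ex n (fun x => ∏ v ∈ A ∪ B, hf A w n s v (x v)) ≤ 6 / (n * 4 ^ n) := by
  have hn : 0 < n := by omega
  have hn' : (0 : ℝ) < n := by exact_mod_cast hn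
  have hwA : w ∈ A := (Finset.mem_inter.1 (hw ▸ Finset.mem_singleton_self w)).1
  have hwB : w ∈ B := (Finset.mem_inter.1 (hw ▸ Finset.mem_singleton_self w)).2
  have h1 : Ex n (fun x => ∏ v ∈ A ∪ B, hf A w n s v (x v)) =
      ∏ v ∈ A ∪ B, ((∑ j ∈ range (2 * n), hf A w n s v j) / (2 * n)) := by
    have := Ex_prod hn (A ∪ B) (fun _ => (1 : ℝ)) (hf A w n s) (fun _ _ _ _ => rfl)
    simp only [one_mul] at this
    rw [this, Ex_const hn, one_mul]
  have e1 : A ∪ B = insert w ((A.erase w) ∪ (B.erase w)) := by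
    ext v
    simp only [Finset.mem_union, Finset.mem_insert, Finset.mem_erase]
    by_cases hv : v = w
    · subst hv
      simp [hwA]
    · simp [hv]
  have hdis : Disjoint (A.erase w) (B.erase w) := by
    rw [Finset.disjoint_left]
    intro v hv1 hv2
    rw [Finset.mem_erase] at hv1 hv2
    have : v ∈ A ∩ B := Finset.mem_inter.2 ⟨hv1.2, hv2.2⟩
    rw [hw, Finset.mem_singleton] at this
    exact hv1.1 this
  have hnm : w ∉ (A.erase w) ∪ (B.erase w) := by
    simp
  have f0 : (∑ j ∈ range (2 * n), hf A w n s w j) / (2 * n) = 1 / (2 * n : ℝ) := by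
    have : ∀ j, hf A w n s w j = ind (j = n - 1 - s) := fun j => by simp [hf]
    simp_rw [this]
    exact sum_eq (by omega)
  have f1 : ∀ v ∈ A.erase w, (∑ j ∈ range (2 * n), hf A w n s v j) / (2 * n) = q n s := by
    intro v hv
    rw [Finset.mem_erase] at hv
    have : ∀ j, hf A w n s v j = ind (j < n - s) := fun j => by simp [hf, hv.1, hv.2]
    simp_rw [this]
    exact sum_ind_lt hn (by omega)
  have f2 : ∀ v ∈ B.erase w, (∑ j ∈ range (2 * n), hf A w n s v j) / (2 * n) = 1 - q n (s + 1) := by
    intro v hv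
    have hvA : v ∉ A := by
      intro h
      exact Finset.disjoint_left.1 hdis (Finset.mem_erase.2 ⟨(Finset.mem_erase.1 hv).1, h⟩) hv
    rw [Finset.mem_erase] at hv
    have : ∀ j, hf A w n s v j = ind (n - 1 - s ≤ j) := fun j => by simp [hf, hv.1, hvA]
    simp_rw [this]
    exact sum_ge hs
  have hcA : (A.erase w).card = n - 1 := by rw [Finset.card_erase_of_mem hwA, hA]
  have hcB : (B.erase w).card = n - 1 := by rw [Finset.card_erase_of_mem hwB, hB]
  rw [h1, e1, Finset.prod_insert hnm, Finset.prod_union hdis, f0, Finset.prod_congr rfl f1,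
    Finset.prod_congr rfl f2, Finset.prod_const, Finset.prod_const, hcA, hcB, ← mul_pow]
  have hq : q n s * (1 - q n (s + 1)) ≤ 1 / 4 * Real.exp (1 / n) := by
    have a1 := Real.add_one_le_exp (1 / (n : ℝ))
    have a2 : q n s * (1 - q n (s + 1)) = 1 / 4 * (1 / n + 1) - (s * (s + 1)) / (4 * n ^ 2) := by
      unfold q
      push_cast
      field_simp
      ring
    have a3 : (0 : ℝ) ≤ (s * (s + 1)) / (4 * n ^ 2) := by positivity
    rw [a2]
    linarith
  have hq0 : 0 ≤ q n s * (1 - q n (s + 1)) := by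
    have b1 := q_nonneg (n := n) (r := s) (by omega)
    have b2 := q_le_half (n := n) (r := s + 1)
    apply mul_nonneg b1
    linarith
  have hpow : (q n s * (1 - q n (s + 1))) ^ (n - 1) ≤ (1 / 4) ^ (n - 1) * 3 := by
    calc (q n s * (1 - q n (s + 1))) ^ (n - 1) ≤ (1 / 4 * Real.exp (1 / n)) ^ (n - 1) :=
          pow_le_pow_left₀ hq0 hq _
      _ = (1 / 4) ^ (n - 1) * Real.exp (1 / n) ^ (n - 1) := mul_pow _ _ _
      _ ≤ (1 / 4) ^ (n - 1) * 3 := by
          gcongr
          rw [← Real.exp_nat_mul]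
          have c1 : ((n - 1 : ℕ) : ℝ) * (1 / n) ≤ 1 := by
            rw [mul_one_div, div_le_one hn']
            exact_mod_cast Nat.sub_le n 1
          have c2 := Real.exp_le_exp.2 c1
          have c3 := Real.exp_one_lt_d9
          linarith
  have hfin : (1 / 4 : ℝ) ^ (n - 1) = 4 * (1 / 4 ^ n) := by
    obtain ⟨m, rfl⟩ : ∃ m, n = m + 1 := ⟨n - 1, by omega⟩
    rw [Nat.add_sub_cancel, pow_succ, one_div_pow]
    field_simp
  calc 1 / (2 * n : ℝ) * (q n s * (1 - q n (s + 1))) ^ (n - 1)
      ≤ 1 / (2 * n : ℝ) * ((1 / 4) ^ (n - 1) * 3) := by gcongr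
    _ = 6 / (n * 4 ^ n) := by
        rw [hfin]
        field_simp
        norm_num

end HRS_

open HRS_ in
theorem hrs_proof : Stmt_HRS := by
  intro V _ _ H n L B hn hL hU hB
  have hn' : (0 : ℝ) < n := by exact_mod_cast hn
  have hstep : ∀ A ∈ H, Ex n (fun x => ind (∃ w, Cf n L A B w x)) ≤ L * (6 / (n * 4 ^ n)) := by
    intro A hA
    by_cases hw : ∃ w, A ∩ B = {w}
    · obtain ⟨w, hw⟩ := hw
      have hb : ∀ x : V → ℕ, ind (∃ w, Cf n L A B w x) ≤
          ∑ s ∈ range L, ∏ v ∈ A ∪ B, hf A w n s v (x v) := by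
        intro x
        have hnn : ∀ s, 0 ≤ ∏ v ∈ A ∪ B, hf A w n s v (x v) := by
          intro s
          refine Finset.prod_nonneg fun v _ => ?_
          unfold hf
          split_ifs <;> exact ind_nonneg _
        by_cases h : ∃ w, Cf n L A B w x
        · obtain ⟨w', h1, h2, h3, h4, h5⟩ := h
          have hww : w' = w := by
            rw [hw] at h1
            exact (Finset.singleton_injective h1).symm
          subst hww
          have hsl : n - 1 - x w' ∈ range L := by
            rw [Finset.mem_range]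
            omega
          calc ind (∃ w, Cf n L A B w x) ≤ 1 := ind_le_one _
            _ = ∏ v ∈ A ∪ B, hf A w' n (n - 1 - x w') v (x v) := by
                symm
                refine Finset.prod_eq_one fun v hv => ?_
                unfold hf
                split_ifs with c1 c2
                · subst c1
                  exact ind_pos (by omega)
                · have := h4 v c2
                  exact ind_pos (by omega)
                · have hvB : v ∈ B := (Finset.mem_union.1 hv).resolve_left c2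
                  have := h5 v hvB
                  exact ind_pos (by omega)
            _ ≤ _ := Finset.single_le_sum (f := fun s => ∏ v ∈ A ∪ B, hf A w' n s v (x v))
                (fun s _ => hnn s) hsl
        · rw [ind_neg h]
          exact Finset.sum_nonneg fun s _ => hnn s
      calc Ex n (fun x => ind (∃ w, Cf n L A B w x))
          ≤ Ex n (fun x => ∑ s ∈ range L, ∏ v ∈ A ∪ B, hf A w n s v (x v)) :=
            Ex_mono fun x _ => hb x
        _ = ∑ s ∈ range L, Ex n (fun x => ∏ v ∈ A ∪ B, hf A w n s v (x v)) := Ex_sum _ _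
        _ ≤ ∑ _s ∈ range L, (6 / (n * 4 ^ n) : ℝ) := by
            refine Finset.sum_le_sum fun s hs => ?_
            rw [Finset.mem_range] at hs
            exact pair (by omega) (hU A hA) hB hw
        _ = L * (6 / (n * 4 ^ n)) := by
            rw [Finset.sum_const, Finset.card_range, nsmul_eq_mul]
    · have h0 : ∀ x : V → ℕ, ind (∃ w, Cf n L A B w x) = 0 := by
        intro x
        apply ind_neg
        rintro ⟨w, h, -⟩
        exact hw ⟨w, h⟩
      rw [Ex_congr (fun x _ => h0 x), Ex_const hn]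
      positivity
  calc Ex n (fun x => ind (∃ A ∈ H, ∃ w, Cf n L A B w x))
      ≤ Ex n (fun x => ∑ A ∈ H, ind (∃ w, Cf n L A B w x)) := Ex_mono fun x _ => ind_exists_le _ _
    _ = ∑ A ∈ H, Ex n (fun x => ind (∃ w, Cf n L A B w x)) := Ex_sum _ _
    _ ≤ ∑ _A ∈ H, (L * (6 / (n * 4 ^ n)) : ℝ) := Finset.sum_le_sum hstep
    _ = 6 * (H.card : ℝ) * L / (n * 4 ^ n) := by
        rw [Finset.sum_const, nsmul_eq_mul]
        ring

end PPB
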