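import Pool.Agent.PPB.Stmts

/-!
# Squad PPB, module HTV: variance of the number of exposed deep vertices
-/

namespace PPB

open Finset

namespace HTV_

variable {V : Type} [Fintype V] [DecidableEq V]

/-- average over one coordinate -/
theorem Ex_one {n : ℕ} (hn : 0 < n) (u : V) (f : (V → ℕ) → ℝ) (h : ℕ → ℝ)
    (hf : ∀ x j, f (Function.update x u j) = f x) :
    Ex n (fun x => f x * h (x u)) = Ex n f * ((∑ j ∈ range (2 * n), h j) / (2 * n)) := by
  have h1 := Ex_prod hn {u} f (fun _ => h) (by
    intro w hw x j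
    rw [Finset.mem_singleton] at hw
    subst hw
    exact hf x j)
  simp only [Finset.prod_singleton] at h1
  exact h1

theorem avg_zero {n L : ℕ} (hn : 0 < n) (hL : L ≤ n) :
    (∑ j ∈ range (2 * n), (ind (j < n - L) - q n L)) / (2 * n) = 0 := by
  rw [Finset.sum_sub_distrib, sub_div, sum_ind_lt hn hL, Finset.sum_const, card_range, nsmul_eq_mul]
  have : (2 * (n : ℝ)) ≠ 0 := by positivity
  push_cast
  field_simp
  ring

theorem avg_sq {n L : ℕ} (hn : 0 < n) (hL : L ≤ n) :
    (∑ j ∈ range (2 * n), (ind (j < n - L) - q n L) ^ 2) / (2 * n) ≤ 1 / 4 := by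
  have e : ∀ j ∈ range (2 * n), (ind (j < n - L) - q n L) ^ 2 =
      ind (j < n - L) * (1 - 2 * q n L) + q n L ^ 2 := by
    intro j _
    by_cases h : j < n - L
    · rw [ind_pos h]
      ring
    · rw [ind_neg h]
      ring
  rw [Finset.sum_congr rfl e, Finset.sum_add_distrib, ← Finset.sum_mul, add_div, mul_div_right_comm,
    sum_ind_lt hn hL, Finset.sum_const, card_range, nsmul_eq_mul]
  have h2 : (2 * (n : ℝ)) ≠ 0 := by positivity
  have h3 : ((2 * n : ℕ) : ℝ) * q n L ^ 2 / (2 * n) = q n L ^ 2 := by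
    push_cast
    field_simp
  rw [h3]
  nlinarith [sq_nonneg (2 * q n L - 1)]

end HTV_

open HTV_ in
theorem htv_proof : Stmt_HTV := by
  intro V _ _ n L W hn hL
  have e1 : ∀ x : V → ℕ, (((Tx W n L x).card : ℝ) - q n L * W.card) =
      ∑ v ∈ W, (ind (x v < n - L) - q n L) := by
    intro x
    rw [Finset.sum_sub_distrib, Finset.sum_const, nsmul_eq_mul, mul_comm (q n L)]
    congr 1
    have e2 : Tx W n L x = W.filter fun v => x v < n - L := by
      ext v
      simp [Tx, mem_Z]
    rw [e2, Finset.card_filter]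
    push_cast
    refine Finset.sum_congr rfl fun v _ => ?_
    by_cases h : x v < n - L
    · rw [ind_pos h, if_pos h]
    · rw [ind_neg h, if_neg h]
  have e3 : Ex n (fun x => (((Tx W n L x).card : ℝ) - q n L * W.card) ^ 2) =
      ∑ v ∈ W, ∑ u ∈ W, Ex n (fun x : V → ℕ =>
        (ind (x v < n - L) - q n L) * (ind (x u < n - L) - q n L)) := by
    have e4 : ∀ v ∈ W, ∑ u ∈ W, Ex n (fun x : V → ℕ =>
        (ind (x v < n - L) - q n L) * (ind (x u < n - L) - q n L)) =
        Ex n (fun x : V → ℕ => ∑ u ∈ W,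
          (ind (x v < n - L) - q n L) * (ind (x u < n - L) - q n L)) := fun v _ => (Ex_sum _ _).symm
    rw [Finset.sum_congr rfl e4, ← Ex_sum]
    refine Ex_congr fun x _ => ?_
    rw [e1, sq, Finset.sum_mul_sum]
  rw [e3]
  have key : ∀ v ∈ W, ∑ u ∈ W, Ex n (fun x : V → ℕ =>
      (ind (x v < n - L) - q n L) * (ind (x u < n - L) - q n L)) ≤ 1 / 4 := by
    intro v hv
    rw [Finset.sum_eq_single v]
    · have h1 : Ex n (fun x : V → ℕ => (ind (x v < n - L) - q n L) * (ind (x v < n - L) - q n L)) =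
          Ex n (fun x : V → ℕ => (1 : ℝ) * (fun j => (ind (j < n - L) - q n L) ^ 2) (x v)) := by
        refine Ex_congr fun x _ => ?_
        simp only [one_mul, sq]
      rw [h1, Ex_one hn v (fun _ => 1) (fun j => (ind (j < n - L) - q n L) ^ 2) (fun _ _ => rfl),
        Ex_const hn, one_mul]
      exact avg_sq hn hL
    · intro u _ huv
      have h1 := Ex_one hn u (fun x : V → ℕ => ind (x v < n - L) - q n L)
        (fun j => ind (j < n - L) - q n L) (fun x j => by
          rw [Function.update_of_ne (Ne.symm huv)])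
      rw [h1, avg_zero hn hL, mul_zero]
    · intro h
      exact absurd hv h
  refine (Finset.sum_le_sum key).trans ?_
  rw [Finset.sum_const, nsmul_eq_mul]
  linarith

end PPB
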