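import Pool.Agent.PPB.Stmts

/-!
# Property B: there are few vertices of large degree
-/

namespace PPB

open Finset

theorem hvc_proof : Stmt_HVC := by
  intro V _ _ H n h hn hh hne hU
  have hsum : ∑ v : V, (deg H v : ℝ) = n * H.card := by
    have h1 : ∑ v : V, deg H v = ∑ A ∈ H, A.card := by
      unfold deg
      simp only [Finset.card_filter]
      rw [Finset.sum_comm]
      refine Finset.sum_congr rfl fun A _ => ?_
      rw [← Finset.card_filter]
      congr 1
      ext v; simp
    have h2 : ∑ A ∈ H, A.card = H.card * n := by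
      rw [Finset.sum_congr rfl (fun A hA => hU A hA), Finset.sum_const, smul_eq_mul]
    have h3 : ∑ v : V, (deg H v : ℝ) = ((∑ v : V, deg H v : ℕ) : ℝ) := by push_cast; rfl
    rw [h3, h1, h2]; push_cast; ring
  have hH : (0 : ℝ) < H.card := by exact_mod_cast Finset.card_pos.mpr hne
  have h4 : ((Vh H n h).card : ℝ) * (h * H.card) ≤ n * (n * H.card) := by
    calc ((Vh H n h).card : ℝ) * (h * H.card) = ∑ v ∈ Vh H n h, h * H.card := by
          rw [Finset.sum_const, nsmul_eq_mul]
      _ ≤ ∑ v ∈ Vh H n h, (n : ℝ) * deg H v := by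
          refine Finset.sum_le_sum fun v hv => ?_
          unfold Vh at hv
          exact (Finset.mem_filter.mp hv).2.le
      _ ≤ ∑ v : V, (n : ℝ) * deg H v :=
          Finset.sum_le_sum_of_subset_of_nonneg (Finset.subset_univ _)
            (fun v _ _ => by positivity)
      _ = n * (n * H.card) := by rw [← Finset.mul_sum, hsum]
  have h5 : (((Vh H n h).card : ℝ) * h) * H.card ≤ n ^ 2 * H.card := by nlinarith [h4]
  exact le_of_mul_le_mul_right h5 hH

end PPB
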