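import Pool.Agent.PPB.Stmts

/-!
# Module LCV
-/

namespace PPB

open Finset

namespace LCV_

theorem card_bound {V : Type} [Fintype V] [DecidableEq V] (H : Finset (Finset V)) (n r : ℕ)
    (h : ℝ) (x : V → ℕ) (B : Finset V) (hn : 0 < n)
    (hB : 4 * (B ∩ Vh H n h).card ≤ n) :
    ind (n < 2 * (Lab H B n r x).card)
      ≤ (4 / (n : ℝ)) * (((Lab H B n r x) \ Vh H n h).card : ℝ) := by
  have hn' : (0 : ℝ) < n := by exact_mod_cast hn
  by_cases hc : n < 2 * (Lab H B n r x).card
  · rw [ind_pos hc]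
    have h1 : (Lab H B n r x).card ≤ (Lab H B n r x \ Vh H n h).card + (B ∩ Vh H n h).card := by
      have h2 : Lab H B n r x ⊆ (Lab H B n r x \ Vh H n h) ∪ (B ∩ Vh H n h) := by
        intro w hw
        rw [mem_union]
        by_cases hv : w ∈ Vh H n h
        · right
          exact mem_inter.mpr ⟨(mem_Lab.mp hw).1, hv⟩
        · left
          exact mem_sdiff.mpr ⟨hw, hv⟩
      exact (card_le_card h2).trans (card_union_le _ _)
    have h3 : n ≤ 4 * (Lab H B n r x \ Vh H n h).card := by omega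
    have h4 : (n : ℝ) ≤ 4 * ((Lab H B n r x \ Vh H n h).card : ℝ) := by exact_mod_cast h3
    rw [div_mul_eq_mul_div, le_div_iff₀ hn']
    linarith
  · rw [ind_neg hc]
    positivity

theorem sub_bound {V : Type} [Fintype V] [DecidableEq V] (H : Finset (Finset V)) (n r : ℕ)
    (h : ℝ) (x : V → ℕ) (B : Finset V) :
    (((Lab H B n r x) \ Vh H n h).card : ℝ)
      ≤ ∑ w ∈ (Cv H n r x) \ Vh H n h, (if w ∈ B then (1 : ℝ) else 0) := by
  rw [sum_boole]
  have h1 : (Lab H B n r x) \ Vh H n h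
      ⊆ ((Cv H n r x) \ Vh H n h).filter (fun w => w ∈ B) := by
    intro w hw
    rw [mem_sdiff] at hw
    rw [mem_filter, mem_sdiff]
    obtain ⟨hwB, A, hA, hAB, hAZ⟩ := mem_Lab.mp hw.1
    refine ⟨⟨mem_Cv.mpr ⟨A, hA, ?_, hAZ⟩, hw.2⟩, hwB⟩
    have : w ∈ A ∩ B := by rw [hAB]; exact mem_singleton_self w
    exact (mem_inter.mp this).1
  exact_mod_cast card_le_card h1

end LCV_

open LCV_ in
theorem lcv_proof : Stmt_LCV := by
  intro V _ _ H n r h x hn hh
  have hn' : (0 : ℝ) < n := by exact_mod_cast hn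
  have hdeg : ∀ w, w ∉ Vh H n h → (deg H w : ℝ) ≤ h * H.card / n := by
    intro w hw
    rw [le_div_iff₀ hn']
    by_contra hcon
    push Not at hcon
    apply hw
    simp only [Vh, mem_filter, mem_univ, true_and]
    push_cast
    linarith [mul_comm (deg H w : ℝ) (n : ℝ)]
  calc ∑ B ∈ H.filter (fun B => 4 * (B ∩ Vh H n h).card ≤ n),
        ind (n < 2 * (Lab H B n r x).card)
      ≤ ∑ B ∈ H.filter (fun B => 4 * (B ∩ Vh H n h).card ≤ n),
          (4 / (n : ℝ)) * (((Lab H B n r x) \ Vh H n h).card : ℝ) := by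
        refine sum_le_sum fun B hB => ?_
        exact card_bound H n r h x B hn (mem_filter.mp hB).2
    _ ≤ ∑ B ∈ H, (4 / (n : ℝ)) * (((Lab H B n r x) \ Vh H n h).card : ℝ) := by
        refine sum_le_sum_of_subset_of_nonneg (filter_subset _ _) fun B _ _ => ?_
        positivity
    _ ≤ ∑ B ∈ H, (4 / (n : ℝ)) *
          ∑ w ∈ (Cv H n r x) \ Vh H n h, (if w ∈ B then (1 : ℝ) else 0) := by
        refine sum_le_sum fun B _ => ?_
        exact mul_le_mul_of_nonneg_left (sub_bound H n r h x B) (by positivity)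
    _ = (4 / (n : ℝ)) * ∑ w ∈ (Cv H n r x) \ Vh H n h, (deg H w : ℝ) := by
        rw [← mul_sum, sum_comm]
        congr 1
        refine sum_congr rfl fun w _ => ?_
        rw [sum_boole, deg]
    _ ≤ (4 / (n : ℝ)) * ∑ _w ∈ (Cv H n r x) \ Vh H n h, (h * H.card / n) := by
        refine mul_le_mul_of_nonneg_left ?_ (by positivity)
        refine sum_le_sum fun w hw => hdeg w (mem_sdiff.mp hw).2
    _ = (4 / (n : ℝ)) * ((((Cv H n r x) \ Vh H n h).card : ℝ) * (h * H.card / n)) := by
        rw [sum_const, nsmul_eq_mul]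
    _ ≤ (4 / (n : ℝ)) * (((Cv H n r x).card : ℝ) * (h * H.card / n)) := by
        refine mul_le_mul_of_nonneg_left ?_ (by positivity)
        refine mul_le_mul_of_nonneg_right ?_ (by positivity)
        exact_mod_cast card_le_card sdiff_subset
    _ = (4 * h * H.card / n ^ 2) * ((Cv H n r x).card : ℝ) := by
        field_simp

end PPB
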