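import Pool.Agent.PPB.Stmts

/-!
# Module LDE: death rate of the family of alive edges
-/

namespace PPB

open Finset

namespace LDE_

variable {V : Type} [Fintype V] [DecidableEq V]

lemma alive_top {n r : ℕ} (hr : r < n) (H : Finset (Finset V)) (A : Finset V) (x : V → ℕ) :
    alive H n r (top A x) = H.filter (fun A' => A' \ A ⊆ Z n r x) := by
  ext A'
  have h : A' \ A ⊆ Z n r x ↔ A' ⊆ A ∪ Z n r x := sdiff_le_iff
  rw [mem_alive, Finset.mem_filter, Z_top hr, h]

lemma FA_cast {n r : ℕ} (hr : r < n) (H : Finset (Finset V)) (A : Finset V) (x : V → ℕ) :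
    (FA H A n r x : ℝ) = ∑ A' ∈ H, ind (A' \ A ⊆ Z n r x) := by
  unfold FA
  rw [alive_top hr, Finset.card_filter, Nat.cast_sum]
  refine Finset.sum_congr rfl fun A' _ => ?_
  by_cases h : A' \ A ⊆ Z n r x
  · rw [ind_pos h, if_pos h]; norm_num
  · rw [ind_neg h, if_neg h]; norm_num

lemma SA_eq {n r : ℕ} (hr : r < n) (H : Finset (Finset V)) (A : Finset V) (x : V → ℕ) :
    SA H A n r x = ∑ A' ∈ H, ind (A' \ A ⊆ Z n r x) * (((A' \ A).card : ℝ) / n) := by
  unfold SA
  rw [alive_top hr, Finset.sum_filter, Finset.sum_div]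
  refine Finset.sum_congr rfl fun A' _ => ?_
  by_cases h : A' \ A ⊆ Z n r x
  · rw [ind_pos h, if_pos h]; ring
  · rw [ind_neg h, if_neg h]; ring

lemma FA_pos {n r : ℕ} (hr : r < n) {H : Finset (Finset V)} {A : Finset V} (hA : A ∈ H) (x : V → ℕ) :
    1 ≤ FA H A n r x := by
  unfold FA
  rw [Nat.one_le_iff_ne_zero, Finset.card_ne_zero]
  refine ⟨A, ?_⟩
  rw [alive_top hr, Finset.mem_filter]
  simp [hA]

lemma FA_anti {n r : ℕ} (hr : r + 1 < n) (H : Finset (Finset V)) (A : Finset V) (x : V → ℕ) :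
    FA H A n (r + 1) x ≤ FA H A n r x := by
  unfold FA
  refine Finset.card_le_card ?_
  rw [alive_top hr, alive_top (by omega)]
  intro A' h
  rw [Finset.mem_filter] at h ⊢
  exact ⟨h.1, h.2.trans (Z_anti (by omega) x)⟩

lemma tele (φ : ℕ → ℝ) (h2 : ∀ i j, 1 ≤ i → i ≤ j → φ j ≤ φ i) {a b : ℕ} (hab : b ≤ a) :
    φ a * ((a : ℝ) - b) ≤ (∑ j ∈ range a, φ (j + 1)) - ∑ j ∈ range b, φ (j + 1) := by
  rw [← Finset.sum_range_add_sum_Ico _ hab, add_sub_cancel_left]
  have h3 : ∑ _j ∈ Ico b a, φ a ≤ ∑ j ∈ Ico b a, φ (j + 1) := by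
    refine Finset.sum_le_sum fun j hj => ?_
    rw [Finset.mem_Ico] at hj
    exact h2 (j + 1) a (by omega) (by omega)
  rw [Finset.sum_const, Nat.card_Ico, nsmul_eq_mul, Nat.cast_sub hab] at h3
  linarith

lemma q_step {n r m : ℕ} (hr : r + 1 < n) (hm : m ≤ n) :
    q n (r + 1) ^ m ≤ (1 - 3 / 5 * ((m : ℝ) / n)) * q n r ^ m := by
  have hn : (0 : ℝ) < n := by
    have : 0 < n := by omega
    exact_mod_cast this
  have hrn : (r : ℝ) + 1 < n := by exact_mod_cast hr
  have hr0 : (0 : ℝ) ≤ r := Nat.cast_nonneg r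
  have h1 : q n (r + 1) ≤ Real.exp (-(1 / n)) * q n r := by
    have h2 : q n (r + 1) ≤ (1 - 1 / n) * q n r := by
      unfold q
      push_cast
      rw [← mul_div_assoc]
      refine div_le_div_of_nonneg_right ?_ (by positivity)
      have : (1 - 1 / (n : ℝ)) * (n - r) = n - r - 1 + r / n := by field_simp; ring
      rw [this]
      have : 0 ≤ (r : ℝ) / n := by positivity
      linarith
    refine h2.trans (mul_le_mul_of_nonneg_right ?_ (q_nonneg (by omega)))
    have := Real.add_one_le_exp (-(1 / (n : ℝ)))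
    linarith
  have h3 : q n (r + 1) ^ m ≤ Real.exp (-((m : ℝ) / n)) * q n r ^ m := by
    refine (pow_le_pow_left₀ (q_nonneg (by omega)) h1 m).trans (le_of_eq ?_)
    rw [mul_pow, ← Real.exp_nat_mul]
    congr 2
    ring
  refine h3.trans (mul_le_mul_of_nonneg_right ?_ (pow_nonneg (q_nonneg (by omega)) _))
  set t : ℝ := (m : ℝ) / n with ht
  have ht0 : 0 ≤ t := by positivity
  have ht1 : t ≤ 1 := by
    rw [ht, div_le_one hn]; exact_mod_cast hm
  have h4 := Real.quadratic_le_exp_of_nonneg ht0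
  have h5 : 0 < Real.exp (-t) := Real.exp_pos _
  have h6 : Real.exp (-t) * Real.exp t = 1 := by rw [← Real.exp_add]; simp
  have h7 : 1 ≤ (1 - 3 / 5 * t) * (1 + t + t ^ 2 / 2) := by
    have e : (1 - 3 / 5 * t) * (1 + t + t ^ 2 / 2) = 1 + t * (2 / 5 - t / 10 - 3 * t ^ 2 / 10) := by ring
    rw [e]
    have : t ^ 2 ≤ 1 := by nlinarith
    have : 0 ≤ t * (2 / 5 - t / 10 - 3 * t ^ 2 / 10) := mul_nonneg ht0 (by linarith)
    linarith
  have h8 : (1 : ℝ) ≤ (1 - 3 / 5 * t) * Real.exp t :=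
    h7.trans (mul_le_mul_of_nonneg_left h4 (by linarith))
  calc Real.exp (-t) = Real.exp (-t) * 1 := by ring
    _ ≤ Real.exp (-t) * ((1 - 3 / 5 * t) * Real.exp t) := mul_le_mul_of_nonneg_left h8 h5.le
    _ = 1 - 3 / 5 * t := by
      rw [mul_comm (1 - 3 / 5 * t), ← mul_assoc, h6, one_mul]

end LDE_

open LDE_ in
theorem lde_proof : Stmt_LDE := by
  intro V _ _ H n r A φ hr hU hA h1 h2
  have hrn : r < n := by omega
  -- the two expectations for an edge
  have hG : ∀ x y : V → ℕ, (∀ i ≤ r, ∀ v, (x v < n - i ↔ y v < n - i)) →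
      φ (FA H A n r x) = φ (FA H A n r y) := by
    intro x y hxy
    have : Z n r x = Z n r y := by
      ext v; rw [mem_Z, mem_Z]; exact hxy r le_rfl v
    unfold FA
    rw [alive_top hrn, alive_top hrn, this]
  have hedge : ∀ A' ∈ H, 3 / 5 * (Ex n (fun x => ind (A' \ A ⊆ Z n r x) * φ (FA H A n r x)) *
      (((A' \ A).card : ℝ) / n)) ≤ Ex n (fun x => ind (A' \ A ⊆ Z n r x) * φ (FA H A n r x)) -
      Ex n (fun x => ind (A' \ A ⊆ Z n (r + 1) x) * φ (FA H A n r x)) := by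
    intro A' hA'
    have hm : (A' \ A).card ≤ n := (Finset.card_le_card Finset.sdiff_subset).trans (hU A' hA').le
    rw [Ex_exch le_rfl hrn (A' \ A) (fun x => φ (FA H A n r x)) hG,
      Ex_exch (Nat.le_succ r) hr (A' \ A) (fun x => φ (FA H A n r x)) hG]
    set EE : ℝ := Ex n (fun x => φ (FA H A n r (top (A' \ A) x))) with hEE
    have hE0 : 0 ≤ EE := Ex_nonneg fun x _ => h1 _ (FA_pos hrn hA _)
    have h3 := mul_le_mul_of_nonneg_right (q_step (n := n) (r := r) hr hm) hE0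
    linarith
  have hsum : 3 / 5 * Ex n (fun x => φ (FA H A n r x) * SA H A n r x) ≤
      Ex n (fun x => φ (FA H A n r x) * ((FA H A n r x : ℝ) - FA H A n (r + 1) x)) := by
    have e1 : Ex n (fun x => φ (FA H A n r x) * SA H A n r x) =
        ∑ A' ∈ H, Ex n (fun x => ind (A' \ A ⊆ Z n r x) * φ (FA H A n r x)) *
          (((A' \ A).card : ℝ) / n) := by
      rw [Finset.sum_congr rfl (fun A' _ => (Ex_mul_right _ _).symm), ← Ex_sum]
      refine Ex_congr fun x _ => ?_
      rw [SA_eq hrn, Finset.mul_sum]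
      refine Finset.sum_congr rfl fun A' _ => ?_
      ring
    have e2 : Ex n (fun x => φ (FA H A n r x) * ((FA H A n r x : ℝ) - FA H A n (r + 1) x)) =
        ∑ A' ∈ H, (Ex n (fun x => ind (A' \ A ⊆ Z n r x) * φ (FA H A n r x)) -
          Ex n (fun x => ind (A' \ A ⊆ Z n (r + 1) x) * φ (FA H A n r x))) := by
      rw [Finset.sum_congr rfl (fun A' _ => (Ex_sub _ _).symm), ← Ex_sum]
      refine Ex_congr fun x _ => ?_
      rw [FA_cast hrn, FA_cast hr, ← Finset.sum_sub_distrib, Finset.mul_sum]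
      refine Finset.sum_congr rfl fun A' _ => ?_
      ring
    rw [e1, e2, Finset.mul_sum]
    exact Finset.sum_le_sum hedge
  have htel : Ex n (fun x => φ (FA H A n r x) * ((FA H A n r x : ℝ) - FA H A n (r + 1) x)) ≤
      Ex n (fun x => ∑ j ∈ range (FA H A n r x), φ (j + 1)) -
        Ex n (fun x => ∑ j ∈ range (FA H A n (r + 1) x), φ (j + 1)) := by
    rw [← Ex_sub]
    exact Ex_mono fun x _ => tele φ h2 (FA_anti hr H A x)
  linarith

end PPB
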