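import Pool.Agent.PPB.Stmts

namespace PPB

open Finset

namespace LIG_

lemma exp_sub_one_le {t : ℝ} (h0 : 0 ≤ t) (h1 : t ≤ 1) : Real.exp t - 1 ≤ 2 * t := by
  have hconv := convexOn_exp.2 (Set.mem_univ (0 : ℝ)) (Set.mem_univ (1 : ℝ))
    (by linarith : (0 : ℝ) ≤ 1 - t) h0 (by ring)
  have e1 : (1 - t) • (0 : ℝ) + t • (1 : ℝ) = t := by simp
  rw [e1] at hconv
  simp only [smul_eq_mul, Real.exp_zero] at hconv
  have h2 := Real.exp_one_lt_d9
  nlinarith

lemma step {V : Type} [Fintype V] [DecidableEq V] (H : Finset (Finset V)) (n : ℕ) (B : Finset V)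
    (hn : 0 < n) (hB : B.card = n) (x : V → ℕ) (L : ℕ) :
    Real.exp (Qs H B n L x) - 1 ≤ 2 * ∑ r ∈ range L,
      (Real.exp (Qs H B n r x) * (((Lab H B n r x).card : ℝ) / n)
        * ind (2 * (Lab H B n r x).card ≤ n) +
       Real.exp (Qs H B n r x) * (((Lab H B n r x).card : ℝ) / n)
        * ind (n < 2 * (Lab H B n r x).card)) := by
  induction L with
  | zero => simp [Qs]
  | succ k ih =>
    rw [Finset.sum_range_succ, mul_add]
    have hQ : Qs H B n (k + 1) x = Qs H B n k x + ((Lab H B n k x).card : ℝ) / n := by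
      unfold Qs; rw [Finset.sum_range_succ]
    have hn' : (0 : ℝ) < n := by exact_mod_cast hn
    have hcard : (Lab H B n k x).card ≤ n := by
      rw [← hB]; exact Finset.card_le_card (Finset.filter_subset _ _)
    have hcR : ((Lab H B n k x).card : ℝ) ≤ n := by exact_mod_cast hcard
    have h0 : (0 : ℝ) ≤ ((Lab H B n k x).card : ℝ) / n := by positivity
    have h1 : ((Lab H B n k x).card : ℝ) / n ≤ 1 := by
      rw [div_le_one hn']; exact hcR
    have hind : ind (2 * (Lab H B n k x).card ≤ n) + ind (n < 2 * (Lab H B n k x).card) = 1 := by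
      by_cases h : 2 * (Lab H B n k x).card ≤ n
      · rw [ind_pos h, ind_neg (by omega)]; ring
      · rw [ind_neg h, ind_pos (by omega)]; ring
    have h2 := exp_sub_one_le h0 h1
    have h3 := Real.exp_pos (Qs H B n k x)
    rw [hQ, Real.exp_add]
    set a := Real.exp (Qs H B n k x)
    set μ := ((Lab H B n k x).card : ℝ) / n
    have h4 : a * μ * ind (2 * (Lab H B n k x).card ≤ n) +
        a * μ * ind (n < 2 * (Lab H B n k x).card) = a * μ := by
      rw [← mul_add, hind, mul_one]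
    rw [h4]
    have h5 : a * (Real.exp μ - 1) ≤ a * (2 * μ) := mul_le_mul_of_nonneg_left h2 h3.le
    nlinarith

end LIG_

theorem lig_proof (hLPB : Stmt_LPB) (hLT1 : Stmt_LT1) (hLT2 : Stmt_LT2) : Stmt_LIG := by
  intro V _ _ H n L h hn hL hLn hh hU
  have hn' : (0 : ℝ) < n := by exact_mod_cast hn
  set Hl := H.filter (fun B => 4 * (B ∩ Vh H n h).card ≤ n) with hHl
  set T1 : Finset V → ℝ := fun B => ∑ r ∈ range L, Ex n (fun x => Real.exp (Qs H B n r x) *
    (((Lab H B n r x).card : ℝ) / n) * ind (2 * (Lab H B n r x).card ≤ n)) with hT1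
  set T2 : Finset V → ℝ := fun B => ∑ r ∈ range L, Ex n (fun x => Real.exp (Qs H B n r x) *
    (((Lab H B n r x).card : ℝ) / n) * ind (n < 2 * (Lab H B n r x).card)) with hT2
  have hone : ∀ B ∈ Hl, Ex n (fun x => ind (RB H n B x ∧ nodeep H n L x)) ≤
      (1 / 2) ^ n * (2 * (T1 B + T2 B)) := by
    intro B hB
    have hBc : B.card = n := hU B (Finset.mem_of_mem_filter B hB)
    refine (hLPB V H n L B hn (by omega) hBc).trans ?_
    apply mul_le_mul_of_nonneg_left _ (by positivity)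
    calc Ex n (fun x => Real.exp (Qs H B n L x) - 1) ≤ Ex n (fun x => 2 * ∑ r ∈ range L,
          (Real.exp (Qs H B n r x) * (((Lab H B n r x).card : ℝ) / n)
            * ind (2 * (Lab H B n r x).card ≤ n) +
          Real.exp (Qs H B n r x) * (((Lab H B n r x).card : ℝ) / n)
            * ind (n < 2 * (Lab H B n r x).card))) :=
          Ex_mono (fun x _ => LIG_.step H n B hn hBc x L)
      _ = 2 * (T1 B + T2 B) := by
          rw [Ex_mul_left, Ex_sum]
          simp only [hT1, hT2]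
          rw [← Finset.sum_add_distrib]
          congr 1
          apply Finset.sum_congr rfl
          intro r _
          rw [Ex_add]
  have h1 : ∀ B ∈ Hl, T1 B ≤ 6 * (H.card : ℝ) / (n * 2 ^ n) := by
    intro B hB
    exact hLT1 V H n L B hn hLn hU (hU B (Finset.mem_of_mem_filter B hB))
  have h2 : ∑ B ∈ Hl, T2 B ≤ 3 * (H.card : ℝ) ^ 2 / (n * 2 ^ n) *
      (1 + h * (1 + 27 * (1 + Real.log (2 * L)))) := hLT2 V H n L h hn hL hLn hh hU
  have h3 : ∑ B ∈ Hl, T1 B ≤ 6 * (H.card : ℝ) ^ 2 / (n * 2 ^ n) := by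
    calc ∑ B ∈ Hl, T1 B ≤ ∑ B ∈ Hl, 6 * (H.card : ℝ) / (n * 2 ^ n) := Finset.sum_le_sum h1
      _ = Hl.card * (6 * (H.card : ℝ) / (n * 2 ^ n)) := by rw [Finset.sum_const, nsmul_eq_mul]
      _ ≤ H.card * (6 * (H.card : ℝ) / (n * 2 ^ n)) := by
          apply mul_le_mul_of_nonneg_right _ (by positivity)
          exact_mod_cast Finset.card_le_card (Finset.filter_subset _ _)
      _ = _ := by ring
  calc ∑ B ∈ Hl, Ex n (fun x => ind (RB H n B x ∧ nodeep H n L x))
      ≤ ∑ B ∈ Hl, (1 / 2) ^ n * (2 * (T1 B + T2 B)) := Finset.sum_le_sum hone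
    _ = (1 / 2) ^ n * (2 * (∑ B ∈ Hl, T1 B + ∑ B ∈ Hl, T2 B)) := by
        rw [← Finset.mul_sum, ← Finset.mul_sum, Finset.sum_add_distrib]
    _ ≤ (1 / 2) ^ n * (2 * (6 * (H.card : ℝ) ^ 2 / (n * 2 ^ n) +
        3 * (H.card : ℝ) ^ 2 / (n * 2 ^ n) * (1 + h * (1 + 27 * (1 + Real.log (2 * L)))))) := by
        apply mul_le_mul_of_nonneg_left _ (by positivity)
        linarith
    _ = _ := by
        have e1 : (4 : ℝ) ^ n = 2 ^ n * 2 ^ n := by
          rw [← mul_pow]; norm_num
        rw [e1, one_div, inv_pow]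
        field_simp
        ring

end PPB
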