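import Pool.Agent.PPB.Stmts

/-!
# Squad PPB, module LIN: the insertion bound, `A` planted
-/

set_option autoImplicit false

namespace PPB

open Finset

namespace LIN_

variable {V : Type} [Fintype V] [DecidableEq V]

/-- the number of alive edges through `w` -/
def D (H : Finset (Finset V)) (A : Finset V) (n r : ℕ) (w : V) (x : V → ℕ) : ℕ :=
  ((alive H n r (top A x)).filter fun A' => w ∈ A').card

/-- the number of alive edges avoiding `w` -/
def Fm (H : Finset (Finset V)) (A : Finset V) (n r : ℕ) (w : V) (x : V → ℕ) : ℕ :=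
  ((alive H n r (top A x)).filter fun A' => ¬ w ∈ A').card

lemma D_add_Fm (H : Finset (Finset V)) (A : Finset V) (n r : ℕ) (w : V) (x : V → ℕ) :
    D H A n r w x + Fm H A n r w x = FA H A n r x :=
  Finset.card_filter_add_card_filter_not _

lemma phi_nonneg (n X F : ℕ) : 0 ≤ phi n X F := by
  unfold phi
  split_ifs
  · exact le_min zero_le_one (by positivity)
  · exact le_rfl

lemma phi_le_one (n X F : ℕ) : phi n X F ≤ 1 := by
  unfold phi
  split_ifs
  · exact min_le_left _ _
  · exact zero_le_one

lemma phi_le_two (n X F : ℕ) : phi n X F ≤ phi n (2 * X) F := by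
  by_cases h : F ≤ X
  · have h2 : F ≤ 2 * X := by omega
    unfold phi
    rw [if_pos h, if_pos h2]
  · have h1 : phi n X F = 0 := by unfold phi; rw [if_neg h]
    rw [h1]
    exact phi_nonneg _ _ _

lemma phi_half {n X F G : ℕ} (hG : 0 < G) (hGF : G ≤ F) (h2 : F ≤ 2 * G) :
    phi n X G ≤ 2 * phi n (2 * X) F := by
  by_cases h : G ≤ X
  · have h3 : F ≤ 2 * X := by omega
    have h4 : phi n X G = min 1 ((n : ℝ) / G) := by unfold phi; rw [if_pos h]
    have h5 : phi n (2 * X) F = min 1 ((n : ℝ) / F) := by unfold phi; rw [if_pos h3]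
    rw [h4, h5]
    have hG' : (0 : ℝ) < G := by exact_mod_cast hG
    have hF' : (0 : ℝ) < F := by exact_mod_cast (hG.trans_le hGF)
    have h6 : (F : ℝ) ≤ 2 * G := by exact_mod_cast h2
    have h7 : (n : ℝ) / G ≤ 2 * ((n : ℝ) / F) := by
      rw [← mul_div_assoc, div_le_div_iff₀ hG' hF']
      have : (0 : ℝ) ≤ n := Nat.cast_nonneg n
      nlinarith
    rcases le_total 1 ((n : ℝ) / F) with h8 | h8
    · rw [min_eq_left h8]
      exact (min_le_left _ _).trans (by norm_num)
    · rw [min_eq_right h8]
      exact (min_le_right _ _).trans h7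
  · have h1 : phi n X G = 0 := by unfold phi; rw [if_neg h]
    rw [h1]
    exact mul_nonneg zero_le_two (phi_nonneg _ _ _)

lemma top_upd (A : Finset V) (x : V → ℕ) {w v : V} (j : ℕ) (h : v ≠ w) :
    top A (Function.update x w j) v = top A x v := by
  unfold top
  rw [Function.update_of_ne h]

lemma sub_upd {A B : Finset V} {n r : ℕ} {w : V} (x : V → ℕ) (j : ℕ) (h : w ∉ B) :
    B ⊆ Z n r (top A (Function.update x w j)) ↔ B ⊆ Z n r (top A x) := by
  have key : ∀ v ∈ B, top A (Function.update x w j) v = top A x v :=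
    fun v hv => top_upd A x j fun e => h (e ▸ hv)
  constructor
  · intro h1 v hv
    have := mem_Z.1 (h1 hv)
    rw [key v hv] at this
    exact mem_Z.2 this
  · intro h1 v hv
    have := mem_Z.1 (h1 hv)
    rw [← key v hv] at this
    exact mem_Z.2 this

lemma Fm_upd (H : Finset (Finset V)) (A : Finset V) (n r : ℕ) (w : V) (x : V → ℕ) (j : ℕ) :
    Fm H A n r w (Function.update x w j) = Fm H A n r w x := by
  unfold Fm
  congr 1
  ext B
  simp only [mem_filter, mem_alive]
  constructor
  · rintro ⟨⟨h1, h2⟩, h3⟩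
    exact ⟨⟨h1, (sub_upd x j h3).1 h2⟩, h3⟩
  · rintro ⟨⟨h1, h2⟩, h3⟩
    exact ⟨⟨h1, (sub_upd x j h3).2 h2⟩, h3⟩

lemma Cv_upd (H : Finset (Finset V)) (A : Finset V) (n r : ℕ) (w : V) (x : V → ℕ) (j : ℕ) :
    w ∈ Cv H n r (top A (Function.update x w j)) ↔ w ∈ Cv H n r (top A x) := by
  simp only [mem_Cv]
  have key : ∀ B : Finset V, (B.erase w ⊆ Z n r (top A (Function.update x w j)) ↔
      B.erase w ⊆ Z n r (top A x)) := fun B => sub_upd x j (Finset.notMem_erase w B)
  simp only [key]

/-- the sum of the `D w` -/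
lemma sum_D (H : Finset (Finset V)) (A : Finset V) {n : ℕ} (r : ℕ) (hn : 0 < n) (x : V → ℕ) :
    ∑ w ∈ univ \ A, (D H A n r w x : ℝ) = n * SA H A n r x := by
  have h0 : (n : ℝ) ≠ 0 := by exact_mod_cast hn.ne'
  unfold SA D
  rw [mul_div_cancel₀ _ h0]
  have h1 : ∀ w, (((alive H n r (top A x)).filter fun A' => w ∈ A').card : ℝ) =
      ∑ A' ∈ alive H n r (top A x), if w ∈ A' then (1 : ℝ) else 0 := by
    intro w
    rw [Finset.card_filter]
    push_cast
    rfl
  simp only [h1]
  rw [Finset.sum_comm]
  refine Finset.sum_congr rfl fun A' _ => ?_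
  rw [← Finset.sum_filter, Finset.sum_const, nsmul_eq_mul, mul_one]
  congr 2
  ext v
  simp only [mem_filter, mem_sdiff, mem_univ, true_and]
  tauto

/-- `w` in `Cv` and in `Z` -/
lemma one_le_D {H : Finset (Finset V)} {A : Finset V} {n r : ℕ} {w : V} {x : V → ℕ}
    (hw : w ∈ Cv H n r (top A x)) (hx : w ∈ Z n r (top A x)) : 1 ≤ D H A n r w x := by
  obtain ⟨B, hB, hwB, hs⟩ := mem_Cv.1 hw
  unfold D
  rw [Nat.one_le_iff_ne_zero, Finset.card_ne_zero]
  refine ⟨B, mem_filter.2 ⟨mem_alive.2 ⟨hB, ?_⟩, hwB⟩⟩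
  intro v hv
  by_cases h : v = w
  · exact h ▸ hx
  · exact hs (mem_erase.2 ⟨h, hv⟩)

/-- the function without the coordinate `w` -/
noncomputable def g (H : Finset (Finset V)) (A : Finset V) (n r X : ℕ) (w : V) (x : V → ℕ) : ℝ :=
  phi n X (Fm H A n r w x) * ind (w ∈ Cv H n r (top A x))

lemma g_nonneg (H : Finset (Finset V)) (A : Finset V) (n r X : ℕ) (w : V) (x : V → ℕ) :
    0 ≤ g H A n r X w x := mul_nonneg (phi_nonneg _ _ _) (ind_nonneg _)

lemma g_upd (H : Finset (Finset V)) (A : Finset V) (n r X : ℕ) (w : V) (x : V → ℕ) (j : ℕ) :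
    g H A n r X w (Function.update x w j) = g H A n r X w x := by
  unfold g
  rw [Fm_upd, ind_congr (Cv_upd H A n r w x j)]

/-- comparison of the two events at `w` -/
lemma Ex_g (H : Finset (Finset V)) (A : Finset V) {n r : ℕ} (X : ℕ) (w : V) (hn : 0 < n)
    (hr : 50 * r ≤ n) :
    49 * Ex n (fun x => g H A n r X w x * ind (¬ x w < n - r)) ≤
      51 * Ex n (fun x => g H A n r X w x * ind (x w < n - r)) := by
  have h1 : Ex n (fun x => g H A n r X w x * ind (x w < n - r)) =
      Ex n (g H A n r X w) * q n r := by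
    have := Ex_prod hn {w} (g H A n r X w) (fun _ j => ind (j < n - r))
      (fun v hv x j => by rw [mem_singleton] at hv; subst hv; exact g_upd H A n r X v x j)
    simp only [Finset.prod_singleton] at this
    rw [this, sum_ind_lt hn (by omega)]
  have h2 : Ex n (fun x => g H A n r X w x * ind (¬ x w < n - r)) =
      Ex n (g H A n r X w) - Ex n (fun x => g H A n r X w x * ind (x w < n - r)) := by
    rw [← Ex_sub]
    refine Ex_congr fun x _ => ?_
    rw [ind_not]; ring
  have h3 : 0 ≤ Ex n (g H A n r X w) := Ex_nonneg fun x _ => g_nonneg _ _ _ _ _ _ _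
  have hn' : (0 : ℝ) < n := by exact_mod_cast hn
  have hr' : (50 : ℝ) * r ≤ n := by exact_mod_cast hr
  have h4 : 49 * (1 - q n r) ≤ 51 * q n r := by
    have h5 : q n r = 1 / 2 - (r : ℝ) / (2 * n) := by unfold q; field_simp
    have h6 : (r : ℝ) / (2 * n) ≤ 1 / 100 := by
      rw [div_le_div_iff₀ (by positivity) (by norm_num)]
      linarith
    rw [h5]; linarith
  rw [h2, h1]
  nlinarith

end LIN_

open LIN_ in
theorem lin_proof : Stmt_LIN := by
  intro V _ _ H n r X A hn hr hU hA
  have hrn : r < n := by omega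
  have hn' : (0 : ℝ) < n := by exact_mod_cast hn
  -- at least one alive edge
  have hAal : ∀ x : V → ℕ, A ∈ alive H n r (top A x) := by
    intro x
    refine mem_alive.2 ⟨hA, ?_⟩
    rw [Z_top hrn]
    exact Finset.subset_union_left
  have hF : ∀ x : V → ℕ, 1 ≤ FA H A n r x := by
    intro x
    unfold FA
    exact Finset.card_pos.2 ⟨A, hAal x⟩
  -- pointwise decomposition
  have pt : ∀ x ∈ Om V n, phi n X (FA H A n r x) * ((Cv H n r (top A x) \ A).card : ℝ) ≤
      phi n (2 * X) (FA H A n r x) * (n * SA H A n r x) +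
      ∑ w ∈ univ \ A, g H A n r X w x * ind (¬ x w < n - r) := by
    intro x _
    have h1 : ((Cv H n r (top A x) \ A).card : ℝ) =
        ∑ w ∈ univ \ A, ind (w ∈ Cv H n r (top A x)) := by
      have h2 : ∀ w, ind (w ∈ Cv H n r (top A x)) =
          if w ∈ Cv H n r (top A x) then (1 : ℝ) else 0 := by
        intro w
        by_cases h : w ∈ Cv H n r (top A x)
        · rw [ind_pos h, if_pos h]
        · rw [ind_neg h, if_neg h]
      simp only [h2]
      rw [← Finset.sum_filter, Finset.sum_const, nsmul_eq_mul, mul_one]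
      congr 2
      ext v
      simp only [mem_filter, mem_sdiff, mem_univ, true_and]
      tauto
    rw [h1, ← sum_D H A r hn x, Finset.mul_sum, Finset.mul_sum, ← Finset.sum_add_distrib]
    refine Finset.sum_le_sum fun w hw => ?_
    have hwA : w ∉ A := (mem_sdiff.1 hw).2
    by_cases hx : x w < n - r
    · -- `w` in `Z`
      have hZ : w ∈ Z n r (top A x) := by
        rw [Z_top hrn]
        exact mem_union_right _ (mem_Z.2 hx)
      have h3 : ind (w ∈ Cv H n r (top A x)) ≤ (D H A n r w x : ℝ) := by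
        by_cases h : w ∈ Cv H n r (top A x)
        · rw [ind_pos h]
          exact_mod_cast one_le_D h hZ
        · rw [ind_neg h]
          exact Nat.cast_nonneg _
      have h4 : 0 ≤ g H A n r X w x * ind (¬ x w < n - r) :=
        mul_nonneg (g_nonneg _ _ _ _ _ _ _) (ind_nonneg _)
      have h5 : phi n X (FA H A n r x) * ind (w ∈ Cv H n r (top A x)) ≤
          phi n (2 * X) (FA H A n r x) * (D H A n r w x : ℝ) :=
        mul_le_mul (phi_le_two _ _ _) h3 (ind_nonneg _) (phi_nonneg _ _ _)
      linarith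
    · -- `w` outside `Z`
      have hZ : w ∉ Z n r (top A x) := by
        rw [Z_top hrn, mem_union, not_or]
        exact ⟨hwA, fun h => hx (mem_Z.1 h)⟩
      have hD : D H A n r w x = 0 := by
        unfold D
        rw [Finset.card_eq_zero, Finset.filter_eq_empty_iff]
        intro B hB hwB
        exact hZ ((mem_alive.1 hB).2 hwB)
      have h3 : Fm H A n r w x = FA H A n r x := by
        have := D_add_Fm H A n r w x
        omega
      rw [ind_pos hx, hD]
      unfold g
      rw [h3]
      simp
  -- the sum of the `g w` on `Z`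
  have pt2 : ∀ x ∈ Om V n, ∑ w ∈ univ \ A, g H A n r X w x * ind (x w < n - r) ≤
      2 * phi n (2 * X) (FA H A n r x) * (n * SA H A n r x) + 2 * n := by
    intro x _
    have hF' : (0 : ℝ) < FA H A n r x := by exact_mod_cast hF x
    have h1 : ∀ w ∈ univ \ A, g H A n r X w x * ind (x w < n - r) ≤
        (2 * phi n (2 * X) (FA H A n r x) + 2 / (FA H A n r x : ℝ)) * (D H A n r w x : ℝ) := by
      intro w _
      have hD0 : (0 : ℝ) ≤ D H A n r w x := Nat.cast_nonneg _
      have hc : 0 ≤ 2 * phi n (2 * X) (FA H A n r x) :=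
        mul_nonneg zero_le_two (phi_nonneg _ _ _)
      have hc2 : 0 ≤ 2 / (FA H A n r x : ℝ) := by positivity
      have hR : 0 ≤ (2 * phi n (2 * X) (FA H A n r x) + 2 / (FA H A n r x : ℝ)) *
          (D H A n r w x : ℝ) := mul_nonneg (add_nonneg hc hc2) hD0
      by_cases hx : x w < n - r
      · by_cases hw : w ∈ Cv H n r (top A x)
        · have hZ : w ∈ Z n r (top A x) := by
            rw [Z_top hrn]
            exact mem_union_right _ (mem_Z.2 hx)
          have hD1 := one_le_D hw hZ
          have hD1' : (1 : ℝ) ≤ D H A n r w x := by exact_mod_cast hD1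
          have hs := D_add_Fm H A n r w x
          unfold g
          rw [ind_pos hw, ind_pos hx, mul_one, mul_one]
          by_cases h2 : 2 * D H A n r w x ≤ FA H A n r x
          · have h3 : phi n X (Fm H A n r w x) ≤ 2 * phi n (2 * X) (FA H A n r x) :=
              phi_half (by omega) (by omega) (by omega)
            calc phi n X (Fm H A n r w x) ≤ 2 * phi n (2 * X) (FA H A n r x) := h3
              _ ≤ 2 * phi n (2 * X) (FA H A n r x) + 2 / (FA H A n r x : ℝ) := by linarith
              _ ≤ _ := le_mul_of_one_le_right (add_nonneg hc hc2) hD1'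
          · have h3 : (FA H A n r x : ℝ) ≤ 2 * D H A n r w x := by
              have : FA H A n r x ≤ 2 * D H A n r w x := by omega
              exact_mod_cast this
            have h4 : 1 ≤ 2 / (FA H A n r x : ℝ) * (D H A n r w x : ℝ) := by
              rw [div_mul_eq_mul_div, le_div_iff₀ hF']
              linarith
            have h5 := phi_le_one n X (Fm H A n r w x)
            have h6 : 0 ≤ 2 * phi n (2 * X) (FA H A n r x) * (D H A n r w x : ℝ) :=
              mul_nonneg hc hD0
            rw [add_mul]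
            linarith
        · unfold g
          rw [ind_neg hw, mul_zero, zero_mul]
          exact hR
      · rw [ind_neg hx, mul_zero]
        exact hR
    refine (Finset.sum_le_sum h1).trans ?_
    rw [← Finset.mul_sum, sum_D H A r hn x, add_mul]
    have h7 : (n : ℝ) * SA H A n r x ≤ FA H A n r x * n := by
      unfold SA FA
      rw [mul_div_cancel₀ _ hn'.ne']
      have : ∀ A' ∈ alive H n r (top A x), ((A' \ A).card : ℝ) ≤ n := by
        intro A' hA'
        have h8 : (A' \ A).card ≤ A'.card := Finset.card_le_card Finset.sdiff_subset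
        rw [hU A' (mem_alive.1 hA').1] at h8
        exact_mod_cast h8
      refine (Finset.sum_le_sum this).trans ?_
      rw [Finset.sum_const, nsmul_eq_mul]
    have h9 : 2 / (FA H A n r x : ℝ) * (n * SA H A n r x) ≤ 2 * n := by
      rw [div_mul_eq_mul_div, div_le_iff₀ hF']
      nlinarith
    linarith
  -- expectations
  set E1 : ℝ := Ex n (fun x => phi n (2 * X) (FA H A n r x) * SA H A n r x) with hE1
  have hE1n : 0 ≤ E1 := by
    refine Ex_nonneg fun x _ => mul_nonneg (phi_nonneg _ _ _) ?_
    unfold SA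
    positivity
  have a1 : Ex n (fun x => phi n (2 * X) (FA H A n r x) * (n * SA H A n r x)) = n * E1 := by
    rw [hE1, ← Ex_mul_left]
    refine Ex_congr fun x _ => ?_
    ring
  have a2 : Ex n (fun x => 2 * phi n (2 * X) (FA H A n r x) * (n * SA H A n r x) + 2 * n) =
      2 * n * E1 + 2 * n := by
    rw [Ex_add, Ex_const hn]
    congr 1
    rw [hE1, ← Ex_mul_left]
    refine Ex_congr fun x _ => ?_
    ring
  have b1 := Ex_mono (n := n) pt
  rw [Ex_add, a1, Ex_sum] at b1
  have b2 := Ex_mono (n := n) pt2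
  rw [a2, Ex_sum] at b2
  have b3 : 49 * ∑ w ∈ univ \ A, Ex n (fun x => g H A n r X w x * ind (¬ x w < n - r)) ≤
      51 * ∑ w ∈ univ \ A, Ex n (fun x => g H A n r X w x * ind (x w < n - r)) := by
    rw [Finset.mul_sum, Finset.mul_sum]
    exact Finset.sum_le_sum fun w _ => Ex_g H A X w hn hr
  have hnE : 0 ≤ (n : ℝ) * E1 := mul_nonneg hn'.le hE1n
  linarith

end PPB
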