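import Pool.Agent.PPB.Stmts

/-!
# Squad PPB (MP_5e7c84_co), module LPA: the bound per planted edge
-/

set_option autoImplicit false

namespace PPB

open Finset

namespace LPA_

variable {V : Type} [Fintype V] [DecidableEq V]

theorem min_nonneg (n F : ℕ) : (0 : ℝ) ≤ min 1 ((n : ℝ) / F) := le_min zero_le_one (by positivity)

theorem phi_eq (n X F : ℕ) : min 1 ((n : ℝ) / F) * ind (F ≤ X) = phi n X F := by
  by_cases h : F ≤ X
  · rw [ind_pos h, phi, if_pos h, mul_one]
  · rw [ind_neg h, phi, if_neg h, mul_zero]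

theorem phi_nonneg (n X F : ℕ) : 0 ≤ phi n X F := by
  rw [← phi_eq]
  exact mul_nonneg (min_nonneg n F) (ind_nonneg _)

theorem phi_le_one (n X F : ℕ) : phi n X F ≤ 1 := by
  rw [phi]
  split_ifs
  · exact min_le_left _ _
  · exact zero_le_one

/-- the first part -/
theorem part1 {n L : ℕ} (hL : 1 ≤ L) (F : ℕ) :
    min 1 ((n : ℝ) / F) * ind (n * L < F) ≤ 1 / L := by
  have hL0 : (0 : ℝ) < L := by exact_mod_cast hL
  by_cases h : n * L < F
  · rw [ind_pos h, mul_one]
    refine (min_le_right _ _).trans ?_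
    have hF : (0 : ℝ) < F := by exact_mod_cast (Nat.zero_le _).trans_lt h
    rw [div_le_div_iff₀ hF hL0, one_mul]
    exact_mod_cast h.le
  · rw [ind_neg h, mul_zero]
    positivity

/-- the second part -/
theorem part2 {H : Finset (Finset V)} {n : ℕ} {A : Finset V} (hA : A.card = n) (X r F : ℕ) (c : ℝ)
    (hc : 0 ≤ c) (x : V → ℕ) :
    min 1 ((n : ℝ) / F) * (ind (F ≤ X) * (c * ((Cv H n r x).card : ℝ))) ≤
      c * (n + phi n X F * ((Cv H n r x \ A).card : ℝ)) := by
  have h1 : ((Cv H n r x).card : ℝ) ≤ n + ((Cv H n r x \ A).card : ℝ) := by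
    have h2 : (Cv H n r x).card ≤ A.card + (Cv H n r x \ A).card := by
      calc (Cv H n r x).card ≤ (A ∪ (Cv H n r x \ A)).card := by
            apply Finset.card_le_card
            intro v hv
            by_cases hvA : v ∈ A
            · exact mem_union_left _ hvA
            · exact mem_union_right _ (mem_sdiff.2 ⟨hv, hvA⟩)
        _ ≤ _ := Finset.card_union_le _ _
    rw [hA] at h2
    exact_mod_cast h2
  have h3 : min 1 ((n : ℝ) / F) * (ind (F ≤ X) * (c * ((Cv H n r x).card : ℝ))) =
      c * (phi n X F * ((Cv H n r x).card : ℝ)) := by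
    rw [← phi_eq]
    ring
  rw [h3]
  apply mul_le_mul_of_nonneg_left _ hc
  have h4 := phi_nonneg n X F
  have h5 := phi_le_one n X F
  have h6 : (0 : ℝ) ≤ n := Nat.cast_nonneg n
  calc phi n X F * ((Cv H n r x).card : ℝ)
      ≤ phi n X F * (n + ((Cv H n r x \ A).card : ℝ)) := mul_le_mul_of_nonneg_left h1 h4
    _ = phi n X F * n + phi n X F * ((Cv H n r x \ A).card : ℝ) := by ring
    _ ≤ n + phi n X F * ((Cv H n r x \ A).card : ℝ) := by nlinarith

end LPA_

open LPA_ in
theorem lpa_proof (hLIN : Stmt_LIN) (hLSU : Stmt_LSU) : Stmt_LPA := by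
  intro V _ _ H n L h A hn hL hLn hh hU hA
  have hcard : A.card = n := hU A hA
  have hn0 : (0 : ℝ) < n := by exact_mod_cast hn
  have hL0 : (0 : ℝ) < L := by exact_mod_cast hL
  set c : ℝ := 4 * h / n ^ 2 with hc
  have hc0 : 0 ≤ c := by positivity
  -- one level
  have h1 : ∀ r ∈ range L, Ex n (fun x => min 1 ((n : ℝ) / FA H A n r x)
        * (ind (n * L < FA H A n r x)
          + ind (FA H A n r x ≤ n * L) * (c * ((Cv H n r (top A x)).card : ℝ)))) ≤
      1 / L + c * (4 * n + 4 * n * Ex n (fun x => phi n (2 * (n * L)) (FA H A n r x) *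
        SA H A n r x)) := by
    intro r hr
    rw [mem_range] at hr
    have h2 : Ex n (fun x => min 1 ((n : ℝ) / FA H A n r x)
        * (ind (n * L < FA H A n r x)
          + ind (FA H A n r x ≤ n * L) * (c * ((Cv H n r (top A x)).card : ℝ)))) ≤
        Ex n (fun x => 1 / (L : ℝ) + c * (n + phi n (n * L) (FA H A n r x) *
          ((Cv H n r (top A x) \ A).card : ℝ))) := by
      apply Ex_mono
      intro x _
      rw [mul_add]
      exact add_le_add (part1 hL _) (part2 hcard _ _ _ c hc0 _)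
    refine h2.trans ?_
    rw [Ex_add, Ex_const hn, Ex_mul_left, Ex_add, Ex_const hn]
    have h3 := hLIN V H n r (n * L) A hn (by omega) hU hA
    have h4 := mul_le_mul_of_nonneg_left h3 hc0
    nlinarith
  have h2 := hLSU V H n L (2 * (n * L)) A hn (by omega) (by nlinarith) hU hA
  have h3 : ((2 * (n * L) : ℕ) : ℝ) / n = 2 * L := by
    push_cast
    field_simp
  rw [h3] at h2
  have hlog : 0 ≤ Real.log (2 * L) := Real.log_nonneg (by
    have : (1 : ℝ) ≤ L := by exact_mod_cast hL
    linarith)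
  refine (Finset.sum_le_sum h1).trans ?_
  rw [Finset.sum_add_distrib, Finset.sum_const, card_range, nsmul_eq_mul,
    mul_one_div_cancel hL0.ne', ← Finset.mul_sum, Finset.sum_add_distrib, Finset.sum_const,
    card_range, nsmul_eq_mul, ← Finset.mul_sum]
  have h4 : c * (L * (4 * n) + 4 * n * ∑ r ∈ range L,
      Ex n (fun x => phi n (2 * (n * L)) (FA H A n r x) * SA H A n r x)) ≤
      c * (L * (4 * n) + 4 * n * (5 / 3 * (n * (1 + Real.log (2 * L))))) := by
    apply mul_le_mul_of_nonneg_left _ hc0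
    have h5 : (0 : ℝ) ≤ 4 * n := by positivity
    have := mul_le_mul_of_nonneg_left h2 h5
    linarith
  have h5 : c * (L * (4 * n) + 4 * n * (5 / 3 * (n * (1 + Real.log (2 * L))))) =
      16 * h * (L / n) + 80 / 3 * h * (1 + Real.log (2 * L)) := by
    rw [hc]
    field_simp
    ring
  have h6 : (L : ℝ) / n ≤ 1 / 50 := by
    rw [div_le_div_iff₀ hn0 (by norm_num), one_mul]
    have : (50 * L : ℝ) ≤ n := by exact_mod_cast hLn
    linarith
  have h7 : 16 * h * (L / n) ≤ h := by nlinarith
  have h8 : 0 ≤ h * (1 + Real.log (2 * L)) := by positivity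
  linarith

end PPB
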