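import Pool.Agent.PPB.Stmts

/-!
# Module LPB of squad PPB: the product bound for the light edges
-/

set_option autoImplicit false

namespace PPB

open Finset

namespace LPB_

variable {V : Type} [Fintype V] [DecidableEq V]

/-- the labels of `B` do not depend on the coordinates in `B` -/
lemma lab_update (H : Finset (Finset V)) (B : Finset V) (n r : ℕ) (x : V → ℕ) (w : V) (hw : w ∈ B) (j : ℕ) :
    Lab H B n r (Function.update x w j) = Lab H B n r x := by
  ext u
  rw [mem_Lab, mem_Lab]
  refine and_congr_right fun _ => exists_congr fun A => and_congr_right fun _ => and_congr_right fun hAB => ?_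
  have key : ∀ v ∈ A.erase u, v ≠ w := by
    intro v hv hvw
    rw [Finset.mem_erase] at hv
    have : v ∈ A ∩ B := Finset.mem_inter.2 ⟨hv.2, hvw ▸ hw⟩
    rw [hAB, Finset.mem_singleton] at this
    exact hv.1 this
  constructor
  · intro h v hv
    have := h hv
    rw [mem_Z, Function.update_of_ne (key v hv)] at this
    exact mem_Z.2 this
  · intro h v hv
    have := h hv
    rw [mem_Z] at this ⊢
    rwa [Function.update_of_ne (key v hv)]

/-- the factor of one vertex -/
noncomputable def a (H : Finset (Finset V)) (B : Finset V) (n L : ℕ) (w : V) (j : ℕ) (x : V → ℕ) : ℝ :=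
  ind (n ≤ j ∨ (n - L ≤ j ∧ j < n ∧ w ∈ Lab H B n (n - 1 - j) x))

/-- the number of levels at which `w` is a label -/
noncomputable def cw (H : Finset (Finset V)) (B : Finset V) (n L : ℕ) (w : V) (x : V → ℕ) : ℝ :=
  ∑ r ∈ range L, ind (w ∈ Lab H B n r x)

lemma point (H : Finset (Finset V)) (B : Finset V) (n L : ℕ) (x : V → ℕ) :
    ind (RB H n B x ∧ nodeep H n L x) ≤
      ∏ w ∈ B, a H B n L w (x w) x - ∏ w ∈ B, ind (n ≤ x w) := by
  by_cases h : RB H n B x ∧ nodeep H n L x
  · obtain ⟨⟨⟨w0, hw0, hx0⟩, hRB⟩, hnd⟩ := h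
    have h1 : ∏ w ∈ B, a H B n L w (x w) x = 1 := by
      refine Finset.prod_eq_one fun w hw => ind_pos ?_
      by_cases hxw : n ≤ x w
      · exact Or.inl hxw
      · push Not at hxw
        obtain ⟨A, hA, hAB, hAle⟩ := hRB w hw hxw
        have hL : n - L ≤ x w := by
          by_contra hcon
          push Not at hcon
          refine hnd A hA fun v hv => mem_Z.2 (lt_of_le_of_lt (hAle v hv) hcon)
        refine Or.inr ⟨hL, hxw, mem_Lab.2 ⟨hw, A, hA, hAB, fun v hv => mem_Z.2 ?_⟩⟩
        have := hAle v (Finset.mem_of_mem_erase hv)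
        omega
    have h2 : ∏ w ∈ B, ind (n ≤ x w) = 0 := Finset.prod_eq_zero hw0 (ind_neg (by omega))
    rw [h1, h2, sub_zero]
    exact ind_le_one _
  · rw [ind_neg h, sub_nonneg]
    refine Finset.prod_le_prod (fun _ _ => ind_nonneg _) fun w _ => ?_
    exact ind_mono fun h' => Or.inl h'

lemma sum_hi (n : ℕ) : ∑ j ∈ range (2 * n), ind (n ≤ j) = (n : ℝ) := by
  have h1 : ∀ j ∈ range (2 * n), ind (n ≤ j) = if j ∈ Ico n (2 * n) then (1 : ℝ) else 0 := by
    intro j hj
    rw [Finset.mem_range] at hj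
    unfold ind
    simp [hj]
  rw [Finset.sum_congr rfl h1, Finset.sum_ite_mem]
  have h2 : range (2 * n) ∩ Ico n (2 * n) = Ico n (2 * n) := by
    ext j; simp
  rw [h2, Finset.sum_const, Nat.card_Ico, nsmul_eq_mul, mul_one]
  congr 1
  omega

lemma sum_a (H : Finset (Finset V)) (B : Finset V) (n L : ℕ) (hL : L ≤ n) (w : V) (x : V → ℕ) :
    ∑ j ∈ range (2 * n), a H B n L w j x = n + cw H B n L w x := by
  have h1 : ∀ j ∈ range (2 * n), a H B n L w j x = ind (n ≤ j) +
      ind (n - L ≤ j ∧ j < n ∧ w ∈ Lab H B n (n - 1 - j) x) := by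
    intro j _
    unfold a
    by_cases h : n ≤ j
    · rw [ind_pos (Or.inl h), ind_pos h, ind_neg (by omega)]; norm_num
    · rw [ind_neg h, zero_add]
      exact ind_congr ⟨fun h' => h'.resolve_left h, fun h' => Or.inr h'⟩
  rw [Finset.sum_congr rfl h1, Finset.sum_add_distrib, sum_hi]
  congr 1
  have h2 : ∑ j ∈ range (2 * n), ind (n - L ≤ j ∧ j < n ∧ w ∈ Lab H B n (n - 1 - j) x) =
      ∑ j ∈ Ico (n - L) n, ind (w ∈ Lab H B n (n - 1 - j) x) := by
    have hsub : Ico (n - L) n ⊆ range (2 * n) := by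
      intro j hj
      rw [Finset.mem_Ico] at hj
      rw [Finset.mem_range]
      omega
    rw [← Finset.sum_subset hsub (f := fun j => ind (n - L ≤ j ∧ j < n ∧ w ∈ Lab H B n (n - 1 - j) x))]
    · refine Finset.sum_congr rfl fun j hj => ?_
      rw [Finset.mem_Ico] at hj
      exact ind_congr ⟨fun h' => h'.2.2, fun h' => ⟨hj.1, hj.2, h'⟩⟩
    · intro j _ hj
      rw [Finset.mem_Ico] at hj
      exact ind_neg fun h' => hj ⟨h'.1, h'.2.1⟩
  rw [h2]
  unfold cw
  refine Finset.sum_nbij' (fun j => n - 1 - j) (fun r => n - 1 - r) ?_ ?_ ?_ ?_ ?_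
  · intro j hj
    rw [Finset.mem_Ico] at hj
    rw [Finset.mem_range]
    omega
  · intro r hr
    rw [Finset.mem_range] at hr
    rw [Finset.mem_Ico]
    omega
  · intro j hj
    rw [Finset.mem_Ico] at hj
    show n - 1 - (n - 1 - j) = j
    omega
  · intro r hr
    rw [Finset.mem_range] at hr
    show n - 1 - (n - 1 - r) = r
    omega
  · intro j _
    rfl

lemma sum_cw (H : Finset (Finset V)) (B : Finset V) (n L : ℕ) (x : V → ℕ) :
    ∑ w ∈ B, cw H B n L w x / n = Qs H B n L x := by
  unfold cw Qs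
  rw [← Finset.sum_div, Finset.sum_comm, Finset.sum_div]
  refine Finset.sum_congr rfl fun r _ => ?_
  congr 1
  have h1 : ∀ w ∈ B, ind (w ∈ Lab H B n r x) = if w ∈ Lab H B n r x then (1 : ℝ) else 0 := by
    intro w _
    unfold ind
    by_cases h : w ∈ Lab H B n r x <;> simp [h]
  rw [Finset.sum_congr rfl h1, Finset.sum_ite_mem]
  have h2 : B ∩ Lab H B n r x = Lab H B n r x := by
    refine Finset.inter_eq_right.2 fun w hw => (mem_Lab.1 hw).1
  rw [h2]
  simp

end LPB_

theorem lpb_proof : Stmt_LPB := by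
  intro V _ _ H n L B hn hL hB
  have hn' : (0 : ℝ) < n := by exact_mod_cast hn
  calc Ex n (fun x => ind (RB H n B x ∧ nodeep H n L x))
      ≤ Ex n (fun x => ∏ w ∈ B, LPB_.a H B n L w (x w) x - ∏ w ∈ B, ind (n ≤ x w)) :=
        Ex_mono fun x _ => LPB_.point H B n L x
    _ = Ex n (fun x => ∏ w ∈ B, LPB_.a H B n L w (x w) x) - Ex n (fun x => ∏ w ∈ B, ind (n ≤ x w)) :=
        Ex_sub _ _
    _ ≤ Ex n (fun x => (1 / 2) ^ n * Real.exp (Qs H B n L x)) - (1 / 2) ^ n := by
        have h1 : Ex n (fun x => ∏ w ∈ B, LPB_.a H B n L w (x w) x) ≤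
            Ex n (fun x => (1 / 2) ^ n * Real.exp (Qs H B n L x)) := by
          have e1 : Ex n (fun x => ∏ w ∈ B, LPB_.a H B n L w (x w) x) =
              Ex n (fun x => 1 * ∏ w ∈ B, LPB_.a H B n L w (x w) x) :=
            Ex_congr fun x _ => by rw [one_mul]
          rw [e1, Ex_resample hn B (fun _ => 1) (fun w j x => LPB_.a H B n L w j x) (fun _ _ _ _ => rfl)
            (fun w hw w' _ i x j => by
              show LPB_.a H B n L w' i (Function.update x w j) = LPB_.a H B n L w' i x
              unfold LPB_.a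
              rw [LPB_.lab_update H B n (n - 1 - i) x w hw j])]
          refine Ex_mono fun x _ => ?_
          rw [one_mul]
          have h2 : ∀ w ∈ B, (∑ j ∈ range (2 * n), LPB_.a H B n L w j x) / (2 * n) ≤
              1 / 2 * Real.exp (LPB_.cw H B n L w x / n) := by
            intro w _
            rw [LPB_.sum_a H B n L hL w x]
            have h3 := Real.add_one_le_exp (LPB_.cw H B n L w x / n)
            have h4 : (n + LPB_.cw H B n L w x) / (2 * n) = 1 / 2 * (LPB_.cw H B n L w x / n + 1) := by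
              field_simp
              ring
            rw [h4]
            exact mul_le_mul_of_nonneg_left h3 (by norm_num)
          have h5 : ∏ w ∈ B, (∑ j ∈ range (2 * n), LPB_.a H B n L w j x) / (2 * n) ≤
              ∏ w ∈ B, (1 / 2 * Real.exp (LPB_.cw H B n L w x / n)) := by
            refine Finset.prod_le_prod (fun w _ => ?_) h2
            exact div_nonneg (Finset.sum_nonneg fun j _ => ind_nonneg _) (by positivity)
          refine h5.trans_eq ?_
          rw [Finset.prod_mul_distrib, Finset.prod_const, hB, ← Real.exp_sum, LPB_.sum_cw]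
        have h2 : Ex n (fun x : V → ℕ => ∏ w ∈ B, ind (n ≤ x w)) = (1 / 2) ^ n := by
          have e1 : Ex n (fun x : V → ℕ => ∏ w ∈ B, ind (n ≤ x w)) =
              Ex n (fun x : V → ℕ => 1 * ∏ w ∈ B, ind (n ≤ x w)) :=
            Ex_congr fun x _ => by rw [one_mul]
          rw [e1, Ex_prod hn B (fun _ => 1) (fun _ j => ind (n ≤ j)) (fun _ _ _ _ => rfl), Ex_const hn,
            one_mul]
          rw [Finset.prod_const, hB, LPB_.sum_hi]
          congr 1
          field_simp
        rw [h2]
        linarith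
    _ = (1 / 2) ^ n * Ex n (fun x => Real.exp (Qs H B n L x) - 1) := by
        rw [Ex_sub, Ex_const hn, Ex_mul_left]
        ring

end PPB
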