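import Pool.Agent.PPB.Stmts

/-!
# Property B: the pathwise bound
-/

namespace PPB

open Finset

namespace LPP_

lemma geo (r0 L : ℕ) :
    ∑ r ∈ range L, (if r0 ≤ r then (8 / 13 : ℝ) ^ (r - r0) else 0)
      ≤ 13 / 5 * (1 - (8 / 13 : ℝ) ^ (L - r0)) := by
  induction L with
  | zero => simp
  | succ L ih =>
    rw [Finset.sum_range_succ]
    by_cases h : r0 ≤ L
    · rw [if_pos h]
      have e : L + 1 - r0 = (L - r0) + 1 := by omega
      rw [e, pow_succ]
      linarith
    · rw [if_neg h]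
      have e : L + 1 - r0 = L - r0 := by omega
      rw [e]
      linarith

lemma exp_half : Real.exp (-(1 / 2)) ≤ 8 / 13 := by
  have h1 : Real.exp (1 / 2) * Real.exp (1 / 2) = Real.exp 1 := by
    rw [← Real.exp_add]; norm_num
  have h2 := Real.exp_one_gt_d9
  have h3 : (13 / 8 : ℝ) ≤ Real.exp (1 / 2) := by
    by_contra hc
    push Not at hc
    have h4 : 0 < Real.exp (1 / 2) := Real.exp_pos _
    nlinarith
  rw [Real.exp_neg, inv_le_comm₀ (Real.exp_pos _) (by norm_num)]
  linarith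

end LPP_

theorem lpp_proof : Stmt_LPP := by
  intro μ L h0 h1 hanti
  by_cases hex : ∃ r, μ r ≤ 1 / 2
  · classical
    set r0 := Nat.find hex with hr0
    have hr0' : μ r0 ≤ 1 / 2 := Nat.find_spec hex
    have hmin : ∀ r < r0, ¬ μ r ≤ 1 / 2 := fun r hr => Nat.find_min hex hr
    have hterm : ∀ r ∈ range L,
        Real.exp (-(r : ℝ) + ∑ i ∈ range r, μ i) * ind (μ r ≤ 1 / 2)
          ≤ (if r0 ≤ r then (8 / 13 : ℝ) ^ (r - r0) else 0) := by
      intro r _
      by_cases h : r0 ≤ r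
      · rw [if_pos h]
        have hsum : ∑ i ∈ range r, μ i ≤ (r0 : ℝ) + ((r - r0 : ℕ) : ℝ) * (1 / 2) := by
          have hsplit : ∑ i ∈ range r, μ i = ∑ i ∈ range r0, μ i + ∑ i ∈ Ico r0 r, μ i := by
            rw [Finset.sum_range_add_sum_Ico _ h]
          rw [hsplit]
          have a1 : ∑ i ∈ range r0, μ i ≤ (r0 : ℝ) := by
            calc ∑ i ∈ range r0, μ i ≤ ∑ i ∈ range r0, (1 : ℝ) :=
                  Finset.sum_le_sum fun i _ => h1 i
              _ = r0 := by simp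
          have a2 : ∑ i ∈ Ico r0 r, μ i ≤ ((r - r0 : ℕ) : ℝ) * (1 / 2) := by
            calc ∑ i ∈ Ico r0 r, μ i ≤ ∑ i ∈ Ico r0 r, (1 / 2 : ℝ) :=
                  Finset.sum_le_sum fun i hi => (hanti (Finset.mem_Ico.mp hi).1).trans hr0'
              _ = ((r - r0 : ℕ) : ℝ) * (1 / 2) := by simp
          linarith
        have hcast : ((r - r0 : ℕ) : ℝ) = (r : ℝ) - r0 := by
          rw [Nat.cast_sub h]
        have hexp : -(r : ℝ) + ∑ i ∈ range r, μ i ≤ ((r - r0 : ℕ) : ℝ) * (-(1 / 2)) := by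
          linarith
        calc Real.exp (-(r : ℝ) + ∑ i ∈ range r, μ i) * ind (μ r ≤ 1 / 2)
            ≤ Real.exp (((r - r0 : ℕ) : ℝ) * (-(1 / 2))) * 1 :=
              mul_le_mul (Real.exp_le_exp.mpr hexp) (ind_le_one _) (ind_nonneg _)
                (Real.exp_pos _).le
          _ = Real.exp (-(1 / 2)) ^ (r - r0) := by rw [mul_one, Real.exp_nat_mul]
          _ ≤ (8 / 13 : ℝ) ^ (r - r0) :=
              pow_le_pow_left₀ (Real.exp_pos _).le LPP_.exp_half _
      · rw [if_neg h, ind_neg (hmin r (not_le.mp h)), mul_zero]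
    refine (Finset.sum_le_sum hterm).trans ((LPP_.geo r0 L).trans ?_)
    have : (0 : ℝ) ≤ (8 / 13 : ℝ) ^ (L - r0) := by positivity
    linarith
  · push Not at hex
    rw [Finset.sum_eq_zero]
    · norm_num
    · intro r _
      rw [ind_neg (not_le.mpr (hex r)), mul_zero]

end PPB
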