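import Pool.Agent.PPB.Stmts

set_option autoImplicit false

namespace PPB

open Finset

namespace LSU_

theorem phi_nonneg (n X j : ℕ) : 0 ≤ phi n X j := by
  unfold phi
  split_ifs
  · exact le_min zero_le_one (by positivity)
  · exact le_rfl

theorem phi_anti (n X : ℕ) {i j : ℕ} (hi : 1 ≤ i) (hij : i ≤ j) : phi n X j ≤ phi n X i := by
  by_cases hj : j ≤ X
  · unfold phi
    rw [if_pos hj, if_pos (hij.trans hj)]
    apply min_le_min le_rfl
    have h1 : (0 : ℝ) < i := by exact_mod_cast hi
    have h2 : (i : ℝ) ≤ j := by exact_mod_cast hij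
    exact div_le_div_of_nonneg_left (Nat.cast_nonneg n) h1 h2
  · have h1 : phi n X j = 0 := by unfold phi; rw [if_neg hj]
    rw [h1]
    exact phi_nonneg n X i

theorem sum_phi (n X m : ℕ) : ∑ j ∈ range m, phi n X (j + 1) ≤ ∑ j ∈ range X, phi n X (j + 1) := by
  have h1 : ∑ j ∈ range m, phi n X (j + 1) ≤ ∑ j ∈ range (max m X), phi n X (j + 1) := by
    apply Finset.sum_le_sum_of_subset_of_nonneg
    · intro j hj
      rw [Finset.mem_range] at hj ⊢
      exact lt_of_lt_of_le hj (le_max_left _ _)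
    · intro j _ _
      exact phi_nonneg _ _ _
  refine h1.trans (le_of_eq ?_)
  symm
  apply Finset.sum_subset
  · intro j hj
    rw [Finset.mem_range] at hj ⊢
    exact lt_of_lt_of_le hj (le_max_right _ _)
  · intro j _ hj
    rw [Finset.mem_range, not_lt] at hj
    unfold phi
    rw [if_neg (by omega)]

theorem sum_min (n : ℕ) (hn : 0 < n) (k : ℕ) :
    ∑ j ∈ range (n + k), min (1 : ℝ) ((n : ℝ) / ((j + 1 : ℕ) : ℝ)) ≤
      n * (1 + Real.log (((n + k : ℕ) : ℝ) / n)) := by
  have hn' : (0 : ℝ) < n := by exact_mod_cast hn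
  induction k with
  | zero =>
    rw [Nat.add_zero, div_self hn'.ne', Real.log_one, add_zero, mul_one]
    calc ∑ j ∈ range n, min (1 : ℝ) ((n : ℝ) / ((j + 1 : ℕ) : ℝ)) ≤ ∑ _j ∈ range n, (1 : ℝ) :=
          Finset.sum_le_sum (fun j _ => min_le_left _ _)
      _ = n := by simp
  | succ k ih =>
    rw [← Nat.add_assoc, Finset.sum_range_succ]
    set X := n + k with hX
    have hX0 : (0 : ℝ) < X := by
      have : 0 < X := by omega
      exact_mod_cast this
    have h1 : min (1 : ℝ) ((n : ℝ) / ((X + 1 : ℕ) : ℝ)) ≤ n * (1 / ((X : ℝ) + 1)) := by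
      refine (min_le_right _ _).trans (le_of_eq ?_)
      push_cast
      ring
    have h2 : 1 / ((X : ℝ) + 1) ≤ Real.log (((X + 1 : ℕ) : ℝ) / n) - Real.log ((X : ℝ) / n) := by
      rw [← Real.log_div (by positivity) (by positivity)]
      have h3 : (((X + 1 : ℕ) : ℝ) / n) / ((X : ℝ) / n) = ((X : ℝ) / ((X : ℝ) + 1))⁻¹ := by
        push_cast
        field_simp
      rw [h3, Real.log_inv]
      have h4 := Real.log_le_sub_one_of_pos (show 0 < (X : ℝ) / ((X : ℝ) + 1) by positivity)
      have h5 : (X : ℝ) / ((X : ℝ) + 1) - 1 = -(1 / ((X : ℝ) + 1)) := by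
        field_simp
        ring
      linarith
    have h3 := mul_le_mul_of_nonneg_left h2 hn'.le
    nlinarith

end LSU_

open LSU_ in
theorem lsu_proof (h : Stmt_LDE) : Stmt_LSU := by
  intro V _ _ H n L X A hn hL hX hH hA
  have h1 : ∀ r ∈ range L, Ex n (fun x => phi n X (FA H A n r x) * SA H A n r x) ≤
      (5 / 3) * (Ex n (fun x => ∑ j ∈ range (FA H A n r x), phi n X (j + 1))
          - Ex n (fun x => ∑ j ∈ range (FA H A n (r + 1) x), phi n X (j + 1))) := by
    intro r hr
    rw [Finset.mem_range] at hr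
    exact h V H n r A (phi n X) (by omega) hH hA (fun j _ => phi_nonneg n X j)
      (fun i j hi hij => phi_anti n X hi hij)
  refine (Finset.sum_le_sum h1).trans ?_
  rw [← Finset.mul_sum, Finset.sum_range_sub']
  apply mul_le_mul_of_nonneg_left _ (by norm_num)
  have h2 : 0 ≤ Ex n (fun x => ∑ j ∈ range (FA H A n L x), phi n X (j + 1)) :=
    Ex_nonneg (fun x _ => Finset.sum_nonneg (fun j _ => phi_nonneg _ _ _))
  have h3 : Ex n (fun x => ∑ j ∈ range (FA H A n 0 x), phi n X (j + 1)) ≤
      n * (1 + Real.log ((X : ℝ) / n)) := by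
    have h4 : Ex n (fun x => ∑ j ∈ range (FA H A n 0 x), phi n X (j + 1)) ≤
        Ex n (fun _ : V → ℕ => n * (1 + Real.log ((X : ℝ) / n))) := by
      apply Ex_mono
      intro x _
      refine (sum_phi n X _).trans ?_
      obtain ⟨k, rfl⟩ := Nat.exists_eq_add_of_le hX
      refine le_trans (le_of_eq ?_) (sum_min n hn k)
      apply Finset.sum_congr rfl
      intro j hj
      rw [Finset.mem_range] at hj
      unfold phi
      rw [if_pos (by omega)]
    rw [Ex_const hn] at h4
    exact h4
  linarith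

end PPB
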