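import Pool.Agent.PPB.Stmts

/-!
# Squad PPB, module LT1
-/

namespace PPB

open Finset

namespace LT1_

variable {V : Type} [Fintype V] [DecidableEq V]

/-- The edges meeting `B` in exactly one vertex. -/
def H1 (H : Finset (Finset V)) (B : Finset V) : Finset (Finset V) :=
  H.filter fun A => (A ∩ B).card = 1

theorem erase_eq {A B : Finset V} {w : V} (h : A ∩ B = {w}) : A.erase w = A \ B := by
  ext v
  simp only [mem_erase, mem_sdiff]
  constructor
  · rintro ⟨hne, hA⟩
    refine ⟨hA, fun hB => hne ?_⟩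
    have : v ∈ A ∩ B := mem_inter.2 ⟨hA, hB⟩
    rw [h] at this
    exact mem_singleton.1 this
  · rintro ⟨hA, hB⟩
    refine ⟨fun hv => hB ?_, hA⟩
    have : w ∈ A ∩ B := by rw [h]; exact mem_singleton_self w
    rw [hv]
    exact (mem_inter.1 this).2

theorem lab_card_le (H : Finset (Finset V)) (B : Finset V) (n r : ℕ) (x : V → ℕ) :
    ((Lab H B n r x).card : ℝ) ≤ ∑ A ∈ H1 H B, ind (A \ B ⊆ Z n r x) := by
  classical
  have hsum : ∑ A ∈ H1 H B, ind (A \ B ⊆ Z n r x) =
      (((H1 H B).filter fun A => A \ B ⊆ Z n r x).card : ℝ) := by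
    rw [Finset.card_filter]
    push_cast
    apply Finset.sum_congr rfl
    intro A _
    unfold ind
    split_ifs <;> simp
  rw [hsum]
  norm_cast
  have hch : ∀ w ∈ Lab H B n r x, ∃ A, A ∈ H ∧ A ∩ B = {w} ∧ A.erase w ⊆ Z n r x := by
    intro w hw
    obtain ⟨-, A, hA, h1, h2⟩ := mem_Lab.1 hw
    exact ⟨A, hA, h1, h2⟩
  choose! f hf using hch
  apply Finset.card_le_card_of_injOn f
  · intro w hw
    obtain ⟨h1, h2, h3⟩ := hf w hw
    rw [Finset.mem_coe, mem_filter]
    refine ⟨mem_filter.2 ⟨h1, by rw [h2, card_singleton]⟩, ?_⟩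
    rw [← erase_eq h2]
    exact h3
  · intro w hw w' hw' he
    have e1 := (hf w hw).2.1
    have e2 := (hf w' hw').2.1
    rw [he, e2] at e1
    exact (singleton_injective e1).symm

theorem card_sdiff' {H : Finset (Finset V)} {B : Finset V} {n : ℕ} (hU : Unif H n)
    {A : Finset V} (hA : A ∈ H1 H B) : (A \ B).card = n - 1 := by
  obtain ⟨h1, h2⟩ := mem_filter.1 hA
  have h3 := Finset.card_sdiff_add_card_inter A B
  rw [h2, hU A h1] at h3
  omega

theorem lab_congr (H : Finset (Finset V)) (B : Finset V) {n i : ℕ} {x y : V → ℕ}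
    (h : ∀ v, (x v < n - i ↔ y v < n - i)) : Lab H B n i x = Lab H B n i y := by
  have hZ : Z n i x = Z n i y := by
    ext v
    rw [mem_Z, mem_Z, h v]
  unfold Lab
  rw [hZ]

/-- the functional -/
noncomputable def G (H : Finset (Finset V)) (B : Finset V) (n r : ℕ) (x : V → ℕ) : ℝ :=
  Real.exp (Qs H B n r x) * ind (2 * (Lab H B n r x).card ≤ n)

theorem G_nonneg (H : Finset (Finset V)) (B : Finset V) (n r : ℕ) (x : V → ℕ) :
    0 ≤ G H B n r x := mul_nonneg (Real.exp_pos _).le (ind_nonneg _)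

theorem G_congr (H : Finset (Finset V)) (B : Finset V) (n r : ℕ) (x y : V → ℕ)
    (h : ∀ i ≤ r, ∀ v, (x v < n - i ↔ y v < n - i)) : G H B n r x = G H B n r y := by
  unfold G Qs
  rw [lab_congr H B (h r le_rfl)]
  congr 2
  apply Finset.sum_congr rfl
  intro i hi
  rw [lab_congr H B (h i (Finset.mem_range.1 hi).le)]

theorem path (hP : Stmt_LPP) (H : Finset (Finset V)) (B : Finset V) (n L : ℕ) (hn : 0 < n)
    (hB : B.card = n) (x : V → ℕ) :
    ∑ r ∈ range L, Real.exp (-(r : ℝ)) * G H B n r x ≤ 13 / 5 := by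
  have hn' : (0 : ℝ) < n := by exact_mod_cast hn
  have h := hP (fun r => ((Lab H B n r x).card : ℝ) / n) L (fun r => by positivity)
    (fun r => ?_) (fun r s hrs => ?_)
  · refine le_trans (le_of_eq ?_) h
    apply Finset.sum_congr rfl
    intro r _
    unfold G Qs
    rw [← mul_assoc, ← Real.exp_add]
    congr 1
    apply ind_congr
    rw [div_le_iff₀ hn']
    constructor
    · intro h1
      have : ((2 * (Lab H B n r x).card : ℕ) : ℝ) ≤ n := by exact_mod_cast h1
      push_cast at this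
      linarith
    · intro h1
      have : ((2 * (Lab H B n r x).card : ℕ) : ℝ) ≤ n := by push_cast; linarith
      exact_mod_cast this
  · rw [div_le_one hn']
    have : (Lab H B n r x).card ≤ n := by
      rw [← hB]
      exact Finset.card_le_card (Finset.filter_subset _ _)
    exact_mod_cast this
  · show ((Lab H B n s x).card : ℝ) / n ≤ ((Lab H B n r x).card : ℝ) / n
    apply div_le_div_of_nonneg_right _ hn'.le
    have : (Lab H B n s x) ⊆ (Lab H B n r x) := by
      intro w hw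
      obtain ⟨h1, A, h2, h3, h4⟩ := mem_Lab.1 hw
      exact mem_Lab.2 ⟨h1, A, h2, h3, h4.trans (Z_anti hrs x)⟩
    exact_mod_cast Finset.card_le_card this

theorem qb {n r L : ℕ} (hn : 0 < n) (hr : r < L) (hL : 50 * L ≤ n) :
    q n r ^ (n - 1) ≤ (1 / 2) ^ (n - 1) * (50 / 49) * Real.exp (-(r : ℝ)) := by
  have hn' : (0 : ℝ) < n := by exact_mod_cast hn
  refine (q_pow_le (by omega) hn).trans ?_
  rw [mul_assoc]
  apply mul_le_mul_of_nonneg_left _ (by positivity)
  have h1 : -((r : ℝ) * ((n - 1 : ℕ) : ℝ) / n) = -(r : ℝ) + r / n := by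
    rw [Nat.cast_sub hn]
    push_cast
    field_simp
    ring
  rw [h1, Real.exp_add, mul_comm]
  apply mul_le_mul_of_nonneg_right _ (Real.exp_pos _).le
  have h2 : (r : ℝ) / n ≤ 1 / 50 := by
    rw [div_le_div_iff₀ hn' (by norm_num)]
    have : 50 * r ≤ n := by omega
    have : (50 : ℝ) * r ≤ n := by exact_mod_cast this
    linarith
  have h3 : Real.exp ((r : ℝ) / n) ≤ Real.exp (1 / 50) := Real.exp_le_exp.2 h2
  refine h3.trans ?_
  have h4 := Real.add_one_le_exp (-(1 / 50 : ℝ))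
  have h5 : Real.exp (1 / 50 : ℝ) * Real.exp (-(1 / 50 : ℝ)) = 1 := by
    rw [← Real.exp_add]; simp
  have h6 := Real.exp_pos (1 / 50 : ℝ)
  nlinarith

theorem level (H : Finset (Finset V)) (B : Finset V) (n L r : ℕ) (hn : 0 < n)
    (hL : 50 * L ≤ n) (hU : Unif H n) (hr : r < L) :
    Ex n (fun x => Real.exp (Qs H B n r x) * (((Lab H B n r x).card : ℝ) / n)
        * ind (2 * (Lab H B n r x).card ≤ n)) ≤
      ∑ A ∈ H1 H B, (1 / n * ((1 / 2) ^ (n - 1) * (50 / 49))) *
        Ex n (fun x => Real.exp (-(r : ℝ)) * G H B n r (top (A \ B) x)) := by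
  have hn' : (0 : ℝ) < n := by exact_mod_cast hn
  have h1 : Ex n (fun x => Real.exp (Qs H B n r x) * (((Lab H B n r x).card : ℝ) / n)
        * ind (2 * (Lab H B n r x).card ≤ n)) ≤
      Ex n (fun x => ∑ A ∈ H1 H B, (1 / n) * (ind (A \ B ⊆ Z n r x) * G H B n r x)) := by
    apply Ex_mono
    intro x _
    rw [← Finset.mul_sum, ← Finset.sum_mul]
    have e := mul_le_mul_of_nonneg_right (lab_card_le H B n r x) (G_nonneg H B n r x)
    have e2 := mul_le_mul_of_nonneg_left e (by positivity : (0 : ℝ) ≤ 1 / n)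
    refine le_trans (le_of_eq ?_) e2
    unfold G
    ring
  refine h1.trans ?_
  rw [Ex_sum]
  apply Finset.sum_le_sum
  intro A hA
  rw [Ex_mul_left, Ex_exch (r := r) (s := r) le_rfl (by omega) (A \ B) (G H B n r)
    (G_congr H B n r), card_sdiff' hU hA, mul_assoc]
  apply mul_le_mul_of_nonneg_left _ (by positivity)
  rw [Ex_mul_left, ← mul_assoc]
  exact mul_le_mul_of_nonneg_right (qb hn hr hL) (Ex_nonneg fun x _ => G_nonneg _ _ _ _ _)

end LT1_

theorem lt1_proof (hLPP : Stmt_LPP) : Stmt_LT1 := by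
  intro V _ _ H n L B hn hL hU hB
  have hn' : (0 : ℝ) < n := by exact_mod_cast hn
  set c : ℝ := 1 / n * ((1 / 2) ^ (n - 1) * (50 / 49)) with hc
  have hc0 : 0 ≤ c := by positivity
  have h1 : ∑ r ∈ range L, Ex n (fun x => Real.exp (Qs H B n r x) *
        (((Lab H B n r x).card : ℝ) / n) * ind (2 * (Lab H B n r x).card ≤ n)) ≤
      ∑ r ∈ range L, ∑ A ∈ LT1_.H1 H B, c *
        Ex n (fun x => Real.exp (-(r : ℝ)) * LT1_.G H B n r (top (A \ B) x)) :=
    Finset.sum_le_sum fun r hr => LT1_.level H B n L r hn hL hU (Finset.mem_range.1 hr)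
  refine h1.trans ?_
  rw [Finset.sum_comm]
  have h2 : ∀ A ∈ LT1_.H1 H B, ∑ r ∈ range L, c *
      Ex n (fun x => Real.exp (-(r : ℝ)) * LT1_.G H B n r (top (A \ B) x)) ≤ c * (13 / 5) := by
    intro A _
    rw [← Finset.mul_sum, ← Ex_sum]
    apply mul_le_mul_of_nonneg_left _ hc0
    calc Ex n (fun x => ∑ r ∈ range L, Real.exp (-(r : ℝ)) * LT1_.G H B n r (top (A \ B) x))
        ≤ Ex n (fun _ : V → ℕ => (13 / 5 : ℝ)) :=
          Ex_mono fun x _ => LT1_.path hLPP H B n L hn hB (top (A \ B) x)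
      _ = 13 / 5 := Ex_const hn _
  refine (Finset.sum_le_sum h2).trans ?_
  rw [Finset.sum_const, nsmul_eq_mul]
  have h3 : ((LT1_.H1 H B).card : ℝ) ≤ H.card := by
    exact_mod_cast Finset.card_le_card (Finset.filter_subset _ _)
  refine (mul_le_mul_of_nonneg_right h3 (by positivity)).trans ?_
  have h4 : c * (13 / 5) ≤ 6 / (n * 2 ^ n) := by
    have h5 : ((1 : ℝ) / 2) ^ (n - 1) = 2 / 2 ^ n := by
      obtain ⟨m, rfl⟩ : ∃ m, n = m + 1 := ⟨n - 1, by omega⟩
      rw [Nat.add_sub_cancel, pow_succ, one_div, inv_pow]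
      field_simp
    rw [hc, h5]
    have h6 : (1 : ℝ) / n * (2 / 2 ^ n * (50 / 49)) * (13 / 5) =
        (2 * (50 / 49) * (13 / 5)) / (n * 2 ^ n) := by
      field_simp
    rw [h6]
    apply div_le_div_of_nonneg_right _ (by positivity)
    norm_num
  calc (H.card : ℝ) * (c * (13 / 5)) ≤ H.card * (6 / (n * 2 ^ n)) :=
        mul_le_mul_of_nonneg_left h4 (by positivity)
    _ = 6 * (H.card : ℝ) / (n * 2 ^ n) := by ring

end PPB
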