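import Pool.Agent.PPB.Stmts

/-!
# Squad PPB, module LT2: the part where more than half of the labels are alive
-/

namespace PPB

open Finset

namespace LT2_

variable {V : Type} [Fintype V] [DecidableEq V]

/-- the bound for the number of light edges, divided by `|H|` -/
noncomputable def GG (H : Finset (Finset V)) (n L r : ℕ) (h : ℝ) (x : V → ℕ) : ℝ :=
  ind (n * L < (alive H n r x).card)
    + ind ((alive H n r x).card ≤ n * L) * ((4 * h / n ^ 2) * ((Cv H n r x).card : ℝ))

/-- truncated weight -/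
noncomputable def gg (H : Finset (Finset V)) (n r : ℕ) (x : V → ℕ) : ℝ :=
  min 1 ((n : ℝ) / (alive H n r x).card)

lemma GG_nonneg (H : Finset (Finset V)) (n L r : ℕ) {h : ℝ} (hh : 0 ≤ h) (x : V → ℕ) :
    0 ≤ GG H n L r h x := by
  unfold GG
  have h1 := ind_nonneg (n * L < (alive H n r x).card)
  have h2 := ind_nonneg ((alive H n r x).card ≤ n * L)
  positivity

lemma gg_nonneg (H : Finset (Finset V)) (n r : ℕ) (x : V → ℕ) : 0 ≤ gg H n r x := by
  unfold gg
  exact le_min zero_le_one (by positivity)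

lemma Z_eq {n r : ℕ} {x y : V → ℕ} (h : ∀ i ≤ r, ∀ v, (x v < n - i ↔ y v < n - i)) :
    Z n r x = Z n r y := by
  ext v
  rw [mem_Z, mem_Z]
  exact h r le_rfl v

lemma dep (H : Finset (Finset V)) (n L r : ℕ) (h : ℝ) {x y : V → ℕ}
    (hxy : ∀ i ≤ r, ∀ v, (x v < n - i ↔ y v < n - i)) :
    gg H n r x * GG H n L r h x = gg H n r y * GG H n L r h y := by
  have h1 : alive H n r x = alive H n r y := by
    unfold alive
    rw [Z_eq hxy]
  have h2 : Cv H n r x = Cv H n r y := by
    unfold Cv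
    rw [Z_eq hxy]
  unfold gg GG
  rw [h1, h2]

lemma sum_ind_alive (H : Finset (Finset V)) (n r : ℕ) (x : V → ℕ) :
    ∑ A ∈ H, ind (A ⊆ Z n r x) = ((alive H n r x).card : ℝ) := by
  unfold alive
  rw [Finset.natCast_card_filter]
  refine sum_congr rfl fun A _ => ?_
  unfold ind
  by_cases h : A ⊆ Z n r x <;> simp [h]

lemma min_eq (H : Finset (Finset V)) {n : ℕ} (r : ℕ) (x : V → ℕ) :
    min (n : ℝ) ((alive H n r x).card : ℝ) = ∑ A ∈ H, ind (A ⊆ Z n r x) * gg H n r x := by
  rw [← sum_mul, sum_ind_alive]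
  unfold gg
  rcases Nat.eq_zero_or_pos (alive H n r x).card with h | h
  · rw [h]
    simp
  · have h' : (0 : ℝ) < (alive H n r x).card := by exact_mod_cast h
    rw [mul_min_of_nonneg _ _ h'.le, mul_one, mul_div_cancel₀ _ h'.ne', min_comm]

lemma N_le (hLCV : Stmt_LCV) (H : Finset (Finset V)) {n : ℕ} (hn : 0 < n) (L r : ℕ) {h : ℝ}
    (hh : 0 ≤ h) (x : V → ℕ) :
    ∑ B ∈ H.filter (fun B => 4 * (B ∩ Vh H n h).card ≤ n), ind (n < 2 * (Lab H B n r x).card)
      ≤ H.card * GG H n L r h x := by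
  unfold GG
  rcases lt_or_ge (n * L) (alive H n r x).card with h1 | h1
  · rw [ind_pos h1, ind_neg (not_le.2 h1), zero_mul, add_zero, mul_one]
    calc ∑ B ∈ H.filter (fun B => 4 * (B ∩ Vh H n h).card ≤ n),
          ind (n < 2 * (Lab H B n r x).card)
        ≤ ∑ B ∈ H.filter (fun B => 4 * (B ∩ Vh H n h).card ≤ n), (1 : ℝ) :=
          sum_le_sum fun B _ => ind_le_one _
      _ = ((H.filter (fun B => 4 * (B ∩ Vh H n h).card ≤ n)).card : ℝ) := by simp
      _ ≤ H.card := by exact_mod_cast card_filter_le _ _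
  · rw [ind_neg (not_lt.2 h1), ind_pos h1, zero_add, one_mul]
    refine (hLCV V H n r h x hn hh).trans (le_of_eq ?_)
    ring

lemma exp_Qs_le (H : Finset (Finset V)) {B : Finset V} {n : ℕ} (hn : 0 < n) (hB : B.card = n)
    (r : ℕ) (x : V → ℕ) : Real.exp (Qs H B n r x) ≤ Real.exp r := by
  apply Real.exp_le_exp.2
  unfold Qs
  have hn' : (0 : ℝ) < n := by exact_mod_cast hn
  calc ∑ i ∈ range r, ((Lab H B n i x).card : ℝ) / n ≤ ∑ _i ∈ range r, (1 : ℝ) := by
        refine sum_le_sum fun i _ => ?_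
        rw [div_le_one hn']
        have h1 : (Lab H B n i x).card ≤ B.card := card_filter_le _ _
        rw [hB] at h1
        exact_mod_cast h1
    _ = r := by simp

/-- one level -/
lemma level (hLTH : Stmt_LTH) (hLCV : Stmt_LCV) (H : Finset (Finset V)) {n : ℕ} (hn : 0 < n)
    {L r : ℕ} (hr : r < L) (hL : 50 * L ≤ n) {h : ℝ} (hh : 0 ≤ h) (hU : Unif H n) :
    ∑ B ∈ H.filter (fun B => 4 * (B ∩ Vh H n h).card ≤ n),
        Ex n (fun x => Real.exp (Qs H B n r x) * (((Lab H B n r x).card : ℝ) / n)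
          * ind (n < 2 * (Lab H B n r x).card))
      ≤ 3 * (H.card : ℝ) / (n * 2 ^ n) *
        ∑ A ∈ H, Ex n (fun x => gg H n r (top A x) * GG H n L r h (top A x)) := by
  have hn' : (0 : ℝ) < n := by exact_mod_cast hn
  have hrn : r < n := by omega
  have hrR : (r : ℝ) ≤ n / 50 := by
    rw [le_div_iff₀ (by norm_num)]
    have : 50 * r ≤ n := by omega
    have : (50 : ℝ) * r ≤ n := by exact_mod_cast this
    linarith
  have hq : 49 / 100 ≤ q n r := by
    unfold q
    rw [div_le_div_iff₀ (by norm_num) (by positivity)]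
    linarith
  have hq0 : 0 < q n r := by linarith
  have hqi : (q n r)⁻¹ ≤ 3 := by
    rw [inv_le_comm₀ hq0 (by norm_num)]
    linarith
  set c : ℝ := Real.exp r / n * (q n r)⁻¹ with hc
  have hc0 : 0 ≤ c := by positivity
  -- thinning
  have h1 : ∀ B ∈ H.filter (fun B => 4 * (B ∩ Vh H n h).card ≤ n),
      Ex n (fun x => Real.exp (Qs H B n r x) * (((Lab H B n r x).card : ℝ) / n)
          * ind (n < 2 * (Lab H B n r x).card)) ≤
      c * Ex n (fun x => ind (n < 2 * (Lab H B n r x).card)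
          * min (n : ℝ) ((alive H n r x).card : ℝ)) := by
    intro B hB
    have hBc : B.card = n := hU B (mem_filter.1 hB).1
    have h2 : Ex n (fun x => Real.exp (Qs H B n r x) * (((Lab H B n r x).card : ℝ) / n)
          * ind (n < 2 * (Lab H B n r x).card)) ≤
        Real.exp r / n * Ex n (fun x => ((Lab H B n r x).card : ℝ) *
          ind (n < 2 * (Lab H B n r x).card)) := by
      rw [← Ex_mul_left]
      refine Ex_mono fun x _ => ?_
      have h3 := exp_Qs_le H hn hBc r x
      have h4 := ind_nonneg (n < 2 * (Lab H B n r x).card)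
      have h5 : 0 ≤ (((Lab H B n r x).card : ℝ) / n) * ind (n < 2 * (Lab H B n r x).card) := by
        positivity
      have h6 := mul_le_mul_of_nonneg_right h3 h5
      calc Real.exp (Qs H B n r x) * (((Lab H B n r x).card : ℝ) / n)
          * ind (n < 2 * (Lab H B n r x).card)
          = Real.exp (Qs H B n r x) * ((((Lab H B n r x).card : ℝ) / n)
            * ind (n < 2 * (Lab H B n r x).card)) := by ring
        _ ≤ Real.exp r * ((((Lab H B n r x).card : ℝ) / n)
            * ind (n < 2 * (Lab H B n r x).card)) := h6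
        _ = Real.exp r / n * (((Lab H B n r x).card : ℝ) *
          ind (n < 2 * (Lab H B n r x).card)) := by ring
    refine h2.trans ?_
    rw [hc, mul_assoc]
    exact mul_le_mul_of_nonneg_left (hLTH V H n r B hrn hBc) (by positivity)
  refine (sum_le_sum h1).trans ?_
  rw [← mul_sum, ← Ex_sum]
  -- the number of light edges
  have h2 : Ex n (fun x => ∑ B ∈ H.filter (fun B => 4 * (B ∩ Vh H n h).card ≤ n),
      ind (n < 2 * (Lab H B n r x).card) * min (n : ℝ) ((alive H n r x).card : ℝ)) ≤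
      H.card * ∑ A ∈ H, Ex n (fun x => ind (A ⊆ Z n r x) *
        (gg H n r x * GG H n L r h x)) := by
    rw [← Ex_sum, ← Ex_mul_left]
    refine Ex_mono fun x _ => ?_
    rw [← sum_mul]
    have h3 := N_le hLCV H hn L r hh x
    have h4 : 0 ≤ min (n : ℝ) ((alive H n r x).card : ℝ) := le_min hn'.le (by positivity)
    refine (mul_le_mul_of_nonneg_right h3 h4).trans (le_of_eq ?_)
    rw [min_eq H, mul_assoc, mul_sum]
    congr 1
    refine sum_congr rfl fun A _ => ?_
    ring
  refine (mul_le_mul_of_nonneg_left h2 hc0).trans ?_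
  -- exchange
  have h3 : ∀ A ∈ H, Ex n (fun x => ind (A ⊆ Z n r x) * (gg H n r x * GG H n L r h x)) =
      q n r ^ n * Ex n (fun x => gg H n r (top A x) * GG H n L r h (top A x)) := by
    intro A hA
    have h4 := Ex_exch (le_refl r) hrn A (fun x => gg H n r x * GG H n L r h x)
      (fun x y hxy => dep H n L r h hxy)
    rw [hU A hA] at h4
    exact h4
  rw [sum_congr rfl h3, ← mul_sum]
  have h5 : 0 ≤ ∑ A ∈ H, Ex n (fun x => gg H n r (top A x) * GG H n L r h (top A x)) :=
    sum_nonneg fun A _ => Ex_nonneg fun x _ =>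
      mul_nonneg (gg_nonneg _ _ _ _) (GG_nonneg _ _ _ _ hh _)
  have h6 : Real.exp r * q n r ^ n ≤ (1 / 2) ^ n := by
    have h7 := q_pow_le (n := n) (r := r) (m := n) hrn.le hn
    have h8 : (r : ℝ) * n / n = r := by field_simp
    rw [h8] at h7
    calc Real.exp r * q n r ^ n ≤ Real.exp r * ((1 / 2) ^ n * Real.exp (-(r : ℝ))) :=
          mul_le_mul_of_nonneg_left h7 (Real.exp_pos _).le
      _ = (1 / 2) ^ n * (Real.exp r * Real.exp (-(r : ℝ))) := by ring
      _ = (1 / 2) ^ n := by rw [← Real.exp_add, add_neg_cancel, Real.exp_zero, mul_one]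
  have h9 : c * (H.card * q n r ^ n) ≤ 3 * (H.card : ℝ) / (n * 2 ^ n) := by
    have e1 : c * (H.card * q n r ^ n) =
        (H.card : ℝ) / n * ((Real.exp r * q n r ^ n) * (q n r)⁻¹) := by
      rw [hc]
      ring
    rw [e1]
    calc (H.card : ℝ) / n * ((Real.exp r * q n r ^ n) * (q n r)⁻¹)
        ≤ (H.card : ℝ) / n * ((1 / 2) ^ n * 3) := by
          refine mul_le_mul_of_nonneg_left ?_ (by positivity)
          exact mul_le_mul h6 hqi (by positivity) (by positivity)
      _ = 3 * (H.card : ℝ) / (n * 2 ^ n) := by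
          rw [one_div, inv_pow]
          field_simp
  calc c * (H.card * (q n r ^ n * ∑ A ∈ H, Ex n (fun x => gg H n r (top A x) *
        GG H n L r h (top A x))))
      = (c * (H.card * q n r ^ n)) * ∑ A ∈ H, Ex n (fun x => gg H n r (top A x) *
        GG H n L r h (top A x)) := by ring
    _ ≤ _ := mul_le_mul_of_nonneg_right h9 h5

end LT2_

open LT2_ in
theorem lt2_proof (hLTH : Stmt_LTH) (hLCV : Stmt_LCV) (hLPA : Stmt_LPA) : Stmt_LT2 := by
  intro V _ _ H n L h hn hL1 hL hh hU
  rw [sum_comm]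
  have hn' : (0 : ℝ) < n := by exact_mod_cast hn
  have h1 := sum_le_sum fun r (hr : r ∈ range L) =>
    level hLTH hLCV H hn (mem_range.1 hr) hL hh hU
  refine h1.trans ?_
  rw [← mul_sum, sum_comm]
  have h2 : ∀ A ∈ H, ∑ r ∈ range L, Ex n (fun x => gg H n r (top A x) *
      GG H n L r h (top A x)) ≤ 1 + h * (1 + 27 * (1 + Real.log (2 * L))) := by
    intro A hA
    exact hLPA V H n L h A hn hL1 hL hh hU hA
  have h3 := sum_le_sum h2
  rw [sum_const, nsmul_eq_mul] at h3
  have h4 := mul_le_mul_of_nonneg_left h3 (show 0 ≤ 3 * (H.card : ℝ) / (n * 2 ^ n) by positivity)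
  refine h4.trans (le_of_eq ?_)
  ring

end PPB
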