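import Pool.Agent.PPB.Stmts

/-!
# LTH: label thinning
-/

namespace PPB

open Finset

namespace LTH_

variable {V : Type} [Fintype V] [DecidableEq V]

/-- the labels do not depend on the coordinates in `B` -/
lemma lab_update (H : Finset (Finset V)) (B : Finset V) (n r : ℕ) (x : V → ℕ) {b : V}
    (hb : b ∈ B) (j : ℕ) : Lab H B n r (Function.update x b j) = Lab H B n r x := by
  have key : ∀ y z : V → ℕ, (∀ v, v ∉ B → y v = z v) → ∀ w, w ∈ Lab H B n r y →
      w ∈ Lab H B n r z := by
    intro y z hyz w hw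
    rw [mem_Lab] at hw ⊢
    obtain ⟨hwB, A, hA, hAB, hsub⟩ := hw
    refine ⟨hwB, A, hA, hAB, fun v hv => ?_⟩
    have h1 := hsub hv
    rw [mem_Z] at h1 ⊢
    have hvB : v ∉ B := by
      intro hvB
      have h2 : v ∈ A ∩ B := Finset.mem_inter.2 ⟨Finset.mem_of_mem_erase hv, hvB⟩
      rw [hAB, Finset.mem_singleton] at h2
      exact (Finset.mem_erase.1 hv).1 h2
    rw [← hyz v hvB]
    exact h1
  have hne : ∀ v, v ∉ B → Function.update x b j v = x v := by
    intro v hv
    have : v ≠ b := fun h => hv (h ▸ hb)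
    exact Function.update_of_ne this _ _
  ext w
  exact ⟨key _ _ hne w, key _ _ (fun v hv => (hne v hv).symm) w⟩

lemma card_lab (H : Finset (Finset V)) (B : Finset V) (n r : ℕ) (x : V → ℕ) :
    ((Lab H B n r x).card : ℝ) = ∑ w ∈ B, ind (w ∈ Lab H B n r x) := by
  have h1 : Lab H B n r x = B.filter fun w => w ∈ Lab H B n r x := by
    ext w
    rw [Finset.mem_filter]
    exact ⟨fun h => ⟨(mem_Lab.1 h).1, h⟩, fun h => h.2⟩
  have h2 : ((B.filter fun w => w ∈ Lab H B n r x).card : ℝ) =
      ∑ w ∈ B, ind (w ∈ Lab H B n r x) := by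
    rw [Finset.card_filter]
    push_cast
    refine Finset.sum_congr rfl fun w _ => ?_
    unfold ind
    by_cases h : w ∈ Lab H B n r x
    · simp [h]
    · simp [h]
  rw [← h2, ← h1]

lemma count (H : Finset (Finset V)) (B : Finset V) (n r : ℕ) (x : V → ℕ) (hB : B.card = n) :
    ∑ w ∈ B, ind (w ∈ Lab H B n r x) * ind (x w < n - r) ≤
      min (n : ℝ) ((alive H n r x).card : ℝ) := by
  have h1 : ∑ w ∈ B, ind (w ∈ Lab H B n r x) * ind (x w < n - r) =
      ((B.filter fun w => w ∈ Lab H B n r x ∧ x w < n - r).card : ℝ) := by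
    rw [Finset.card_filter]
    push_cast
    refine Finset.sum_congr rfl fun w _ => ?_
    rw [← ind_and]
    unfold ind
    by_cases h : w ∈ Lab H B n r x ∧ x w < n - r
    · simp [h]
    · simp [h]
  rw [h1]
  refine le_min ?_ ?_
  · rw [← hB]
    exact_mod_cast Finset.card_le_card (Finset.filter_subset _ _)
  · have h2 : ∀ w ∈ B.filter (fun w => w ∈ Lab H B n r x ∧ x w < n - r),
        ∃ A ∈ alive H n r x, A ∩ B = {w} := by
      intro w hw
      obtain ⟨_, h3, h4⟩ := Finset.mem_filter.1 hw
      obtain ⟨_, A, hA, hAB, hsub⟩ := mem_Lab.1 h3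
      refine ⟨A, mem_alive.2 ⟨hA, fun v hv => ?_⟩, hAB⟩
      by_cases hvw : v = w
      · rw [hvw, mem_Z]
        exact h4
      · exact hsub (Finset.mem_erase.2 ⟨hvw, hv⟩)
    choose! F hF1 hF2 using h2
    have h5 := Finset.card_le_card_of_injOn F (fun w hw => hF1 w hw) (fun w hw w' hw' he => by
      have e1 := hF2 w hw
      have e2 := hF2 w' hw'
      rw [he, e2] at e1
      exact (Finset.singleton_injective e1).symm)
    exact_mod_cast h5

end LTH_

open LTH_ in
theorem lth_proof : Stmt_LTH := by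
  intro V _ _ H n r B hr hB
  have hn : 0 < n := by omega
  have hq : 0 < q n r := by
    unfold q
    have h1 : (r : ℝ) < n := by exact_mod_cast hr
    have h2 : (0 : ℝ) < n := by exact_mod_cast hn
    apply div_pos <;> linarith
  have hw : ∀ w ∈ B, q n r * Ex n (fun x => ind (w ∈ Lab H B n r x) *
      ind (n < 2 * (Lab H B n r x).card)) =
      Ex n (fun x => ind (w ∈ Lab H B n r x) * ind (n < 2 * (Lab H B n r x).card) *
        ind (x w < n - r)) := by
    intro w hw
    have h1 := Ex_prod hn {w} (fun x => ind (w ∈ Lab H B n r x) *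
      ind (n < 2 * (Lab H B n r x).card)) (fun _ j => ind (j < n - r)) (by
        intro w' hw' x j
        rw [Finset.mem_singleton] at hw'
        subst hw'
        show ind (w' ∈ Lab H B n r (Function.update x w' j)) *
          ind (n < 2 * (Lab H B n r (Function.update x w' j)).card) = _
        rw [lab_update H B n r x hw j])
    simp only [Finset.prod_singleton] at h1
    rw [sum_ind_lt hn hr.le] at h1
    rw [h1, mul_comm]
  have hsum : q n r * Ex n (fun x => ((Lab H B n r x).card : ℝ) *
      ind (n < 2 * (Lab H B n r x).card)) =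
      Ex n (fun x => ind (n < 2 * (Lab H B n r x).card) *
        ∑ w ∈ B, ind (w ∈ Lab H B n r x) * ind (x w < n - r)) := by
    have e1 : Ex n (fun x => ((Lab H B n r x).card : ℝ) * ind (n < 2 * (Lab H B n r x).card)) =
        ∑ w ∈ B, Ex n (fun x => ind (w ∈ Lab H B n r x) *
          ind (n < 2 * (Lab H B n r x).card)) := by
      rw [← Ex_sum]
      refine Ex_congr fun x _ => ?_
      rw [card_lab, Finset.sum_mul]
    have e2 : Ex n (fun x => ind (n < 2 * (Lab H B n r x).card) *
        ∑ w ∈ B, ind (w ∈ Lab H B n r x) * ind (x w < n - r)) =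
        ∑ w ∈ B, Ex n (fun x => ind (w ∈ Lab H B n r x) *
          ind (n < 2 * (Lab H B n r x).card) * ind (x w < n - r)) := by
      rw [← Ex_sum]
      refine Ex_congr fun x _ => ?_
      rw [Finset.mul_sum]
      exact Finset.sum_congr rfl fun w _ => by ring
    rw [e1, e2, Finset.mul_sum]
    exact Finset.sum_congr rfl hw
  have hle : q n r * Ex n (fun x => ((Lab H B n r x).card : ℝ) *
      ind (n < 2 * (Lab H B n r x).card)) ≤
      Ex n (fun x => ind (n < 2 * (Lab H B n r x).card) *
        min (n : ℝ) ((alive H n r x).card : ℝ)) := by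
    rw [hsum]
    exact Ex_mono fun x _ => mul_le_mul_of_nonneg_left (count H B n r x hB) (ind_nonneg _)
  rw [inv_mul_eq_div, le_div_iff₀ hq, mul_comm]
  exact hle

end PPB
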