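import Pool.Agent.PPB.Stmts

/-!
# MNS: the final statement on `m(n)`
-/

namespace PPB

open Finset

namespace MNS_

/-- there is an `n`-uniform family without proper 2-colouring -/
lemma exists_family (n : ℕ) : ∃ k : ℕ, ∃ N : ℕ, ∃ H : Finset (Finset (Fin N)),
    H.card = k ∧ (∀ e ∈ H, e.card = n) ∧
      ∀ f : Fin N → Bool, ∃ e ∈ H, ∃ b : Bool, ∀ x ∈ e, f x = b := by
  refine ⟨_, 2 * n, Finset.powersetCard n Finset.univ, rfl, ?_, ?_⟩
  · intro e he
    exact (Finset.mem_powersetCard.1 he).2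
  · intro f
    have h1 : (Finset.univ.filter fun x => f x = true).card +
        (Finset.univ.filter fun x => ¬ f x = true).card = 2 * n := by
      rw [Finset.card_filter_add_card_filter_not, Finset.card_univ, Fintype.card_fin]
    have h2 : n ≤ (Finset.univ.filter fun x => f x = true).card ∨
        n ≤ (Finset.univ.filter fun x => ¬ f x = true).card := by omega
    rcases h2 with h | h
    · obtain ⟨e, he, hc⟩ := Finset.exists_subset_card_eq h
      exact ⟨e, Finset.mem_powersetCard.2 ⟨Finset.subset_univ _, hc⟩, true, fun x hx =>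
        (Finset.mem_filter.1 (he hx)).2⟩
    · obtain ⟨e, he, hc⟩ := Finset.exists_subset_card_eq h
      refine ⟨e, Finset.mem_powersetCard.2 ⟨Finset.subset_univ _, hc⟩, false, fun x hx => ?_⟩
      have := (Finset.mem_filter.1 (he hx)).2
      simpa using this

end MNS_

open MNS_ in
theorem mns_proof (hCOL : Stmt_COL) : Stmt_MNS := by
  intro m hm
  obtain ⟨n0, hn0⟩ := hCOL
  refine ⟨n0, fun n hn => ?_⟩
  obtain ⟨_, hcol⟩ := hn0 n hn
  have hne : {k : ℕ | ∃ N : ℕ, ∃ H : Finset (Finset (Fin N)),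
        H.card = k ∧ (∀ e ∈ H, e.card = n) ∧
        ∀ f : Fin N → Bool, ∃ e ∈ H, ∃ b : Bool, ∀ x ∈ e, f x = b}.Nonempty := exists_family n
  have hmem := Nat.sInf_mem hne
  rw [← hm n] at hmem
  obtain ⟨N, H, hcard, hunif, hmono⟩ := hmem
  by_contra hlt
  have hle : (H.card : ℝ) ≤ 1 / 10000 * 2 ^ n * Real.sqrt n / Real.log (Real.log n) := by
    rw [hcard]
    exact (not_le.1 hlt).le
  obtain ⟨f, hf⟩ := hcol (Fin N) H hunif hle
  obtain ⟨e, he, b, hb⟩ := hmono f
  obtain ⟨⟨v, hv, hvt⟩, w, hw, hwf⟩ := hf e he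
  have h1 := hb v hv
  have h2 := hb w hw
  rw [hvt] at h1
  rw [hwf, ← h1] at h2
  exact absurd h2 (by decide)

end PPB
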