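import Pool.Agent.PPB.Stmts

/-!
# Module NUM: the numerical estimate
-/

namespace PPB

open Finset

namespace NUM_

/-- the estimate, in terms of the real numbers `l = log log n`, `t = log n`, `L`, `K` -/
theorem core (n : ℕ) (l t L K : ℝ) (hl : 100 ≤ l) (ht : t = Real.exp l) (hn : (n : ℝ) = Real.exp t)
    (hL1 : t ≤ L) (hL2 : L ≤ t + 1) (hK : 0 ≤ K)
    (hK2 : K ≤ 1 / 10000 * 2 ^ n * Real.sqrt n / l) :
    K * (1 / 2) ^ n * Real.exp (-L)
        + K ^ 2 / (n * 4 ^ n)
          * (12 + 6 * (1 + (5000 * l) * (1 + 27 * (1 + Real.log (2 * L)))))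
        + 2 * (2500 / (5000 * l) + 1 / 50
          + 60000 * (K ^ 2 / (n * 4 ^ n)) * L * Real.exp (-(47 / 100000 * (5000 * l))))
        + 216 * (K ^ 2 / (n * 4 ^ n)) * L / n < 1 / 2 := by
  have hl0 : 0 < l := by linarith
  have ht1 : 5101 ≤ t := by
    have h := Real.quadratic_le_exp_of_nonneg hl0.le
    rw [ht]
    nlinarith
  have ht0 : 0 < t := by linarith
  have hn1 : 2550 * t ≤ n := by
    have h := Real.quadratic_le_exp_of_nonneg ht0.le
    rw [hn]
    nlinarith
  have hn0 : (0 : ℝ) < n := by nlinarith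
  have hL0 : 0 < L := by linarith
  -- the quantity beta
  set β : ℝ := K ^ 2 / (n * 4 ^ n) with hβ
  have hβ0 : 0 ≤ β := by positivity
  have h2n : (0 : ℝ) < 2 ^ n := by positivity
  have h4n : (4 : ℝ) ^ n = 2 ^ n * 2 ^ n := by
    rw [← mul_pow]; norm_num
  have hsn : Real.sqrt n * Real.sqrt n = n := Real.mul_self_sqrt hn0.le
  have hβ1 : β ≤ 1 / 100000000 / l ^ 2 := by
    have hK3 : K ^ 2 ≤ (1 / 10000 * 2 ^ n * Real.sqrt n / l) ^ 2 := pow_le_pow_left₀ hK hK2 2
    have e : (1 / 10000 * 2 ^ n * Real.sqrt n / l) ^ 2 = (1 / 100000000 / l ^ 2) * (n * 4 ^ n) := by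
      rw [h4n]
      nth_rewrite 2 [← hsn]
      ring
    rw [hβ, div_le_iff₀ (by positivity), ← e]
    exact hK3
  have hβ2 : β ≤ 1 / 100000000 / 10000 := by
    refine hβ1.trans ?_
    apply div_le_div_of_nonneg_left (by norm_num) (by norm_num)
    nlinarith
  -- first term
  have hT1 : K * (1 / 2) ^ n * Real.exp (-L) ≤ 1 / 10000 := by
    have h1 : K * (1 / 2) ^ n ≤ 1 / 10000 * Real.sqrt n / l := by
      calc K * (1 / 2) ^ n ≤ (1 / 10000 * 2 ^ n * Real.sqrt n / l) * (1 / 2) ^ n :=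
            mul_le_mul_of_nonneg_right hK2 (by positivity)
        _ = 1 / 10000 * Real.sqrt n / l * (2 ^ n * (1 / 2) ^ n) := by ring
        _ = 1 / 10000 * Real.sqrt n / l := by
            rw [← mul_pow]; norm_num
    have h2 : Real.exp (-L) ≤ (n : ℝ)⁻¹ := by
      rw [hn, ← Real.exp_neg]
      exact Real.exp_le_exp.2 (by linarith)
    have h3 : Real.sqrt n ≤ n := by
      have h1n : (1 : ℝ) ≤ n := by nlinarith
      have : 1 ≤ Real.sqrt n := by
        rw [Real.one_le_sqrt]; exact h1n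
      nlinarith
    calc K * (1 / 2) ^ n * Real.exp (-L) ≤ (1 / 10000 * Real.sqrt n / l) * (n : ℝ)⁻¹ :=
          mul_le_mul h1 h2 (Real.exp_pos _).le (by positivity)
      _ ≤ (1 / 10000 * n / 1) * (n : ℝ)⁻¹ := by
          refine mul_le_mul_of_nonneg_right ?_ (by positivity)
          exact div_le_div₀ (by positivity) (by linarith) one_pos (by linarith)
      _ = 1 / 10000 := by field_simp
  -- the logarithm
  have hlog : Real.log (2 * L) ≤ l + 2 := by
    have h1 : 2 * L ≤ Real.exp (l + 2) := by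
      rw [Real.exp_add, ← ht]
      have h2 : (4 : ℝ) ≤ Real.exp 2 := by
        have := Real.quadratic_le_exp_of_nonneg (by norm_num : (0 : ℝ) ≤ 2)
        linarith
      nlinarith
    exact (Real.log_le_iff_le_exp (by linarith)).2 h1
  have hT2 : β * (12 + 6 * (1 + (5000 * l) * (1 + 27 * (1 + Real.log (2 * L))))) ≤ 1 / 100 := by
    have h1 : 12 + 6 * (1 + (5000 * l) * (1 + 27 * (1 + Real.log (2 * L)))) ≤ 1000000 * l ^ 2 := by
      have : (5000 * l) * (1 + 27 * (1 + Real.log (2 * L))) ≤ (5000 * l) * (82 + 27 * l) :=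
        mul_le_mul_of_nonneg_left (by linarith) (by positivity)
      nlinarith
    calc β * (12 + 6 * (1 + (5000 * l) * (1 + 27 * (1 + Real.log (2 * L)))))
        ≤ β * (1000000 * l ^ 2) := mul_le_mul_of_nonneg_left h1 hβ0
      _ ≤ (1 / 100000000 / l ^ 2) * (1000000 * l ^ 2) := mul_le_mul_of_nonneg_right hβ1 (by positivity)
      _ = 1 / 100 := by field_simp; norm_num
  have hT3a : 2500 / (5000 * l) ≤ 1 / 200 := by
    rw [div_le_div_iff₀ (by positivity) (by norm_num)]
    linarith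
  have hT3b : 60000 * β * L * Real.exp (-(47 / 100000 * (5000 * l))) ≤ 1 / 100 := by
    have h1 : L * Real.exp (-(47 / 100000 * (5000 * l))) ≤ 2 := by
      have h2 : Real.exp (-(47 / 100000 * (5000 * l))) ≤ Real.exp (-l) :=
        Real.exp_le_exp.2 (by linarith)
      calc L * Real.exp (-(47 / 100000 * (5000 * l))) ≤ (2 * t) * Real.exp (-l) :=
            mul_le_mul (by linarith) h2 (Real.exp_pos _).le (by positivity)
        _ = 2 := by
            rw [ht, mul_assoc, ← Real.exp_add]; simp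
    have h3 : 60000 * β ≤ 1 / 200 := by
      refine le_trans (mul_le_mul_of_nonneg_left hβ2 (by norm_num)) ?_
      norm_num
    calc 60000 * β * L * Real.exp (-(47 / 100000 * (5000 * l)))
        = 60000 * β * (L * Real.exp (-(47 / 100000 * (5000 * l)))) := by ring
      _ ≤ (1 / 200) * 2 := mul_le_mul h3 h1 (by positivity) (by norm_num)
      _ = 1 / 100 := by norm_num
  have hT4 : 216 * β * L / n ≤ 1 / 100 := by
    rw [div_le_iff₀ hn0]
    have h1 : 216 * β ≤ 1 / 100 := by
      refine le_trans (mul_le_mul_of_nonneg_left hβ2 (by norm_num)) ?_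
      norm_num
    have h2 : L ≤ n := by linarith
    exact mul_le_mul h1 h2 hL0.le (by norm_num)
  linarith

end NUM_

theorem num_proof : Stmt_NUM := by
  have hlim : Filter.Tendsto (fun n : ℕ => Real.log (Real.log (n : ℝ))) Filter.atTop Filter.atTop :=
    Real.tendsto_log_atTop.comp (Real.tendsto_log_atTop.comp tendsto_natCast_atTop_atTop)
  obtain ⟨n0, hn0⟩ := Filter.eventually_atTop.1
    ((hlim.eventually_ge_atTop 100).and (Filter.eventually_ge_atTop 3))
  refine ⟨n0, fun n hn K hK hK2 => ?_⟩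
  obtain ⟨hl, hn3⟩ := hn0 n hn
  have hn3' : (3 : ℝ) ≤ n := by exact_mod_cast hn3
  have hnpos : (0 : ℝ) < n := by linarith
  have ht0 : 0 < Real.log n := Real.log_pos (by linarith)
  have hexpl : Real.exp (Real.log (Real.log n)) = Real.log n := Real.exp_log ht0
  have hexpt : Real.exp (Real.log n) = n := Real.exp_log hnpos
  have ht1 : 5101 ≤ Real.log n := by
    have h := Real.quadratic_le_exp_of_nonneg (x := Real.log (Real.log n)) (by linarith)
    rw [hexpl] at h
    nlinarith
  have hn1 : 2550 * Real.log n ≤ n := by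
    have h := Real.quadratic_le_exp_of_nonneg (x := Real.log n) (by linarith)
    rw [hexpt] at h
    nlinarith
  have hlt : Real.log (Real.log n) ≤ Real.log n := by
    have := Real.log_le_sub_one_of_pos ht0
    linarith
  have hL1 : Real.log n ≤ (⌈Real.log n⌉₊ : ℝ) := Nat.le_ceil _
  have hL2 : (⌈Real.log n⌉₊ : ℝ) ≤ Real.log n + 1 := (Nat.ceil_lt_add_one ht0.le).le
  refine ⟨by omega, ?_, ?_, by linarith, by linarith, ?_⟩
  · exact Nat.one_le_iff_ne_zero.2 (Nat.pos_iff_ne_zero.1 (Nat.ceil_pos.2 ht0))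
  · have h : ((50 * ⌈Real.log n⌉₊ : ℕ) : ℝ) ≤ (n : ℝ) := by
      push_cast
      linarith
    exact_mod_cast h
  · exact NUM_.core n _ _ _ K hl hexpl.symm hexpt.symm hL1 hL2 hK hK2

end PPB
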