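import Pool.Agent.PPB.LPB
import Pool.Agent.PPB.LPP
import Pool.Agent.PPB.LT1
import Pool.Agent.PPB.LTH
import Pool.Agent.PPB.LCV
import Pool.Agent.PPB.LIN
import Pool.Agent.PPB.LDE
import Pool.Agent.PPB.LSU
import Pool.Agent.PPB.LPA
import Pool.Agent.PPB.LT2
import Pool.Agent.PPB.LIG
import Pool.Agent.PPB.HRB
import Pool.Agent.PPB.HRS
import Pool.Agent.PPB.HPA
import Pool.Agent.PPB.HTV
import Pool.Agent.PPB.HKM
import Pool.Agent.PPB.HKK
import Pool.Agent.PPB.HCI
import Pool.Agent.PPB.HCU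
import Pool.Agent.PPB.HEV
import Pool.Agent.PPB.HVC
import Pool.Agent.PPB.DGR
import Pool.Agent.PPB.DCO
import Pool.Agent.PPB.DSY
import Pool.Agent.PPB.DEE
import Pool.Agent.PPB.FIN
import Pool.Agent.PPB.NUM
import Pool.Agent.PPB.COL
import Pool.Agent.PPB.MNS

/-!
# Assembly of squad PPB
-/

namespace PPB

theorem t_lsu : Stmt_LSU := lsu_proof lde_proof

theorem t_lpa : Stmt_LPA := lpa_proof lin_proof t_lsu

theorem t_lt2 : Stmt_LT2 := lt2_proof lth_proof lcv_proof t_lpa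

theorem t_lt1 : Stmt_LT1 := lt1_proof lpp_proof

theorem t_lig : Stmt_LIG := lig_proof lpb_proof t_lt1 t_lt2

theorem t_hcu : Stmt_HCU := hcu_proof hci_proof

theorem t_hev : Stmt_HEV := hev_proof htv_proof hkm_proof hkk_proof t_hcu

theorem t_fin : Stmt_FIN :=
  fin_proof t_lig hrb_proof hrs_proof hpa_proof t_hev hvc_proof dee_proof

theorem t_dco : Stmt_DCO := dco_proof dgr_proof

theorem t_col : Stmt_COL := col_proof t_fin num_proof t_dco dsy_proof

theorem t_mns : Stmt_MNS := mns_proof t_col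

end PPB
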