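import Pool.Agent.PPB.Api

/-!
# Statements of the modules of squad PPB
-/

namespace PPB

open Finset

/-- `n`-uniform. -/
def Unif {V : Type} (H : Finset (Finset V)) (n : ℕ) : Prop := ∀ A ∈ H, A.card = n

/-! ## Light part -/

/-- Product bound. -/
def Stmt_LPB : Prop :=
  ∀ (V : Type) [Fintype V] [DecidableEq V] (H : Finset (Finset V)) (n L : ℕ) (B : Finset V),
    0 < n → L ≤ n → B.card = n →
    Ex n (fun x => ind (RB H n B x ∧ nodeep H n L x))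
      ≤ (1 / 2) ^ n * Ex n (fun x => Real.exp (Qs H B n L x) - 1)

/-- Pathwise bound. -/
def Stmt_LPP : Prop :=
  ∀ (μ : ℕ → ℝ) (L : ℕ), (∀ r, 0 ≤ μ r) → (∀ r, μ r ≤ 1) → Antitone μ →
    ∑ r ∈ range L, Real.exp (-(r : ℝ) + ∑ i ∈ range r, μ i) * ind (μ r ≤ 1 / 2) ≤ 13 / 5

/-- The part where at most half of the labels are alive. -/
def Stmt_LT1 : Prop :=
  ∀ (V : Type) [Fintype V] [DecidableEq V] (H : Finset (Finset V)) (n L : ℕ) (B : Finset V),
    0 < n → 50 * L ≤ n → Unif H n → B.card = n →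
    ∑ r ∈ range L, Ex n (fun x => Real.exp (Qs H B n r x) * (((Lab H B n r x).card : ℝ) / n)
        * ind (2 * (Lab H B n r x).card ≤ n))
      ≤ 6 * (H.card : ℝ) / (n * 2 ^ n)

/-- Label thinning. -/
def Stmt_LTH : Prop :=
  ∀ (V : Type) [Fintype V] [DecidableEq V] (H : Finset (Finset V)) (n r : ℕ) (B : Finset V),
    r < n → B.card = n →
    Ex n (fun x => ((Lab H B n r x).card : ℝ) * ind (n < 2 * (Lab H B n r x).card))
      ≤ (q n r)⁻¹ * Ex n (fun x => ind (n < 2 * (Lab H B n r x).card)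
          * min (n : ℝ) ((alive H n r x).card : ℝ))

/-- Covering count. -/
def Stmt_LCV : Prop :=
  ∀ (V : Type) [Fintype V] [DecidableEq V] (H : Finset (Finset V)) (n r : ℕ) (h : ℝ)
    (x : V → ℕ), 0 < n → 0 ≤ h →
    ∑ B ∈ H.filter (fun B => 4 * (B ∩ Vh H n h).card ≤ n), ind (n < 2 * (Lab H B n r x).card)
      ≤ (4 * h * H.card / n ^ 2) * ((Cv H n r x).card : ℝ)

/-- Insertion bound, `A` planted. -/
def Stmt_LIN : Prop :=
  ∀ (V : Type) [Fintype V] [DecidableEq V] (H : Finset (Finset V)) (n r X : ℕ) (A : Finset V),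
    0 < n → 50 * r ≤ n → Unif H n → A ∈ H →
    Ex n (fun x => phi n X (FA H A n r x) * ((Cv H n r (top A x) \ A).card : ℝ))
      ≤ 4 * n * Ex n (fun x => phi n (2 * X) (FA H A n r x) * SA H A n r x) + 3 * n

/-- Death rate of the family of alive edges, `A` planted. -/
def Stmt_LDE : Prop :=
  ∀ (V : Type) [Fintype V] [DecidableEq V] (H : Finset (Finset V)) (n r : ℕ) (A : Finset V)
    (φ : ℕ → ℝ), r + 1 < n → Unif H n → A ∈ H →
    (∀ j, 1 ≤ j → 0 ≤ φ j) → (∀ i j, 1 ≤ i → i ≤ j → φ j ≤ φ i) →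
    Ex n (fun x => φ (FA H A n r x) * SA H A n r x)
      ≤ (5 / 3) * (Ex n (fun x => ∑ j ∈ range (FA H A n r x), φ (j + 1))
          - Ex n (fun x => ∑ j ∈ range (FA H A n (r + 1) x), φ (j + 1)))

/-- Sum over the levels. -/
def Stmt_LSU : Prop :=
  ∀ (V : Type) [Fintype V] [DecidableEq V] (H : Finset (Finset V)) (n L X : ℕ) (A : Finset V),
    0 < n → L < n → n ≤ X → Unif H n → A ∈ H →
    ∑ r ∈ range L, Ex n (fun x => phi n X (FA H A n r x) * SA H A n r x)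
      ≤ (5 / 3) * (n * (1 + Real.log ((X : ℝ) / n)))

/-- Bound per planted edge. -/
def Stmt_LPA : Prop :=
  ∀ (V : Type) [Fintype V] [DecidableEq V] (H : Finset (Finset V)) (n L : ℕ) (h : ℝ)
    (A : Finset V), 0 < n → 1 ≤ L → 50 * L ≤ n → 0 ≤ h → Unif H n → A ∈ H →
    ∑ r ∈ range L, Ex n (fun x => min 1 ((n : ℝ) / FA H A n r x)
        * (ind (n * L < FA H A n r x)
          + ind (FA H A n r x ≤ n * L) * ((4 * h / n ^ 2) * ((Cv H n r (top A x)).card : ℝ))))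
      ≤ 1 + h * (1 + 27 * (1 + Real.log (2 * L)))

/-- The part where more than half of the labels are alive. -/
def Stmt_LT2 : Prop :=
  ∀ (V : Type) [Fintype V] [DecidableEq V] (H : Finset (Finset V)) (n L : ℕ) (h : ℝ),
    0 < n → 1 ≤ L → 50 * L ≤ n → 0 ≤ h → Unif H n →
    ∑ B ∈ H.filter (fun B => 4 * (B ∩ Vh H n h).card ≤ n), ∑ r ∈ range L,
        Ex n (fun x => Real.exp (Qs H B n r x) * (((Lab H B n r x).card : ℝ) / n)
          * ind (n < 2 * (Lab H B n r x).card))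
      ≤ 3 * (H.card : ℝ) ^ 2 / (n * 2 ^ n) * (1 + h * (1 + 27 * (1 + Real.log (2 * L))))

/-- Light edges. -/
def Stmt_LIG : Prop :=
  ∀ (V : Type) [Fintype V] [DecidableEq V] (H : Finset (Finset V)) (n L : ℕ) (h : ℝ),
    0 < n → 1 ≤ L → 50 * L ≤ n → 0 ≤ h → Unif H n →
    ∑ B ∈ H.filter (fun B => 4 * (B ∩ Vh H n h).card ≤ n),
        Ex n (fun x => ind (RB H n B x ∧ nodeep H n L x))
      ≤ (H.card : ℝ) ^ 2 / (n * 4 ^ n)
        * (12 + 6 * (1 + h * (1 + 27 * (1 + Real.log (2 * L)))))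

/-! ## Heavy part -/

/-- A red bad edge gives a conflict at its deepest vertex. -/
def Stmt_HRB : Prop :=
  ∀ (V : Type) [Fintype V] [DecidableEq V] (H : Finset (Finset V)) (n L : ℕ) (B : Finset V)
    (x : V → ℕ), L ≤ n → RB H n B x → nodeep H n L x → ∃ A ∈ H, ∃ w, Cf n L A B w x

/-- Union bound for the conflicts of a single edge (Radhakrishnan and Srinivasan). -/
def Stmt_HRS : Prop :=
  ∀ (V : Type) [Fintype V] [DecidableEq V] (H : Finset (Finset V)) (n L : ℕ) (B : Finset V),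
    0 < n → 50 * L ≤ n → Unif H n → B.card = n →
    Ex n (fun x => ind (∃ A ∈ H, ∃ w, Cf n L A B w x)) ≤ 6 * (H.card : ℝ) * L / (n * 4 ^ n)

/-- A good partition of `U`. -/
def Stmt_HPA : Prop :=
  ∀ (V : Type) [Fintype V] [DecidableEq V] (H : Finset (Finset V)) (n : ℕ) (U : Finset V),
    0 < n → ∃ W ⊆ U, n * (H.filter (fun B => n < 4 * (B ∩ U).card ∧
      (12 * (B ∩ W).card < n ∨ 12 * (B ∩ (U \ W)).card < n))).card ≤ 36 * H.card

/-- Variance of the number of exposed deep vertices. -/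
def Stmt_HTV : Prop :=
  ∀ (V : Type) [Fintype V] [DecidableEq V] (n L : ℕ) (W : Finset V), 0 < n → L ≤ n →
    Ex n (fun x => (((Tx W n L x).card : ℝ) - q n L * W.card) ^ 2) ≤ (W.card : ℝ) / 4

/-- Tilted mean of `kap`. -/
def Stmt_HKM : Prop :=
  ∀ (V : Type) [Fintype V] [DecidableEq V] (D : Finset (Finset V)) (W : Finset V) (n L : ℕ)
    (lam : ℝ), 0 < n → L ≤ n → 0 ≤ lam → lam ≤ 1 → Unif D n →
    (∀ B ∈ D, n ≤ 12 * (B ∩ W).card) →
    Ex n (fun x => kap D W n L (Tx W n L x) * Real.exp (lam * (Tx W n L x).card))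
      ≤ (D.card : ℝ) * (1 / 2) ^ n
        * Real.exp (q n L * ((lam + lam ^ 2) * W.card - lam * n / 12))

/-- Mean of `KK`. -/
def Stmt_HKK : Prop :=
  ∀ (V : Type) [Fintype V] [DecidableEq V] (H : Finset (Finset V)) (W : Finset V) (n L : ℕ),
    0 < n → L < n → Unif H n →
    Ex n (fun x => KK H W n L (Tx W n L x)) ≤ L * (H.card : ℝ) * (1 / 2) ^ n

/-- Conditional independence, given the exposed set. -/
def Stmt_HCI : Prop :=
  ∀ (V : Type) [Fintype V] [DecidableEq V] (n L s : ℕ) (W T A B : Finset V) (w : V),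
    0 < n → L < n → s < L → T ⊆ W → A ∩ B = {w} → w ∉ W →
    Ex n (fun x => ind (Tx W n L x = T ∧ x w = n - 1 - s ∧ (∀ v ∈ A.erase w, x v < n - s)
        ∧ ∀ v ∈ B.erase w, n - 1 - s ≤ x v))
      = 1 / (2 * n) * (∏ v ∈ A.erase w, pin W n L s T v) * (∏ v ∈ B.erase w, pout W n L s T v)
        * Ex n (fun x => ind (Tx W n L x = T))

/-- Conditional union bound over all conflicts. -/
def Stmt_HCU : Prop :=
  ∀ (V : Type) [Fintype V] [DecidableEq V] (H D : Finset (Finset V)) (W : Finset V) (n L : ℕ)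
    (P : Finset V → Prop), 0 < n → 50 * L ≤ n → Unif H n → Unif D n →
    Ex n (fun x => ind (P (Tx W n L x) ∧ ∃ B ∈ D, ∃ A ∈ H, ∃ w, w ∉ W ∧ Cf n L A B w x))
      ≤ 6 / n * Ex n (fun x => ind (P (Tx W n L x)) * kap D W n L (Tx W n L x)
          * KK H W n L (Tx W n L x))

/-- Conflicts of the edges which have many vertices in a small set `W`. -/
def Stmt_HEV : Prop :=
  ∀ (V : Type) [Fintype V] [DecidableEq V] (H D : Finset (Finset V)) (W : Finset V) (n L : ℕ)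
    (h : ℝ), 0 < n → 1 ≤ L → 50 * L ≤ n → 0 < h → 3 * h ≤ 100 * n → Unif H n → D ⊆ H →
    (∀ B ∈ D, n ≤ 12 * (B ∩ W).card) → (W.card : ℝ) * h ≤ n ^ 2 →
    Ex n (fun x => ind (∃ B ∈ D, ∃ A ∈ H, ∃ w, w ∉ W ∧ Cf n L A B w x))
      ≤ 2500 / h + 1 / 50
        + 60000 * ((H.card : ℝ) ^ 2 / (n * 4 ^ n)) * L * Real.exp (-(47 / 100000 * h))

/-- There are few vertices of large degree. -/
def Stmt_HVC : Prop :=
  ∀ (V : Type) [Fintype V] [DecidableEq V] (H : Finset (Finset V)) (n : ℕ) (h : ℝ),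
    0 < n → 0 ≤ h → H.Nonempty → Unif H n → ((Vh H n h).card : ℝ) * h ≤ n ^ 2

/-! ## Deterministic part -/

/-- Greedy hitting set. -/
def Stmt_DGR : Prop :=
  ∀ (V : Type) [Fintype V] [DecidableEq V] (FF : Finset (Finset V)) (rho : V → ℕ),
    Function.Injective rho → (∀ A ∈ FF, A.Nonempty) →
    ∃ F : Finset V, (∀ A ∈ FF, (A ∩ F).Nonempty) ∧
      ∀ w ∈ F, ∃ A ∈ FF, A ∩ F = {w} ∧ ∀ v ∈ A, rho v ≤ rho w

/-- Without red bad edges (for `x` and for the reflected positions) there is a proper colouring. -/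
def Stmt_DCO : Prop :=
  ∀ (V : Type) [Fintype V] [DecidableEq V] (H : Finset (Finset V)) (n : ℕ) (x : V → ℕ),
    0 < n → Unif H n → x ∈ Om V n → (∀ B ∈ H, ¬ RB H n B x) →
    (∀ B ∈ H, ¬ RB H n B (fun v => 2 * n - 1 - x v)) →
    ∃ f : V → Bool, ∀ e ∈ H, (∃ v ∈ e, f v = true) ∧ ∃ v ∈ e, f v = false

/-- Reflection. -/
def Stmt_DSY : Prop :=
  ∀ (V : Type) [Fintype V] [DecidableEq V] (n : ℕ) (f : (V → ℕ) → ℝ),
    Ex n (fun x => f (fun v => 2 * n - 1 - x v)) = Ex n f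

/-- Deep edges. -/
def Stmt_DEE : Prop :=
  ∀ (V : Type) [Fintype V] [DecidableEq V] (H : Finset (Finset V)) (n L : ℕ),
    0 < n → L ≤ n → Unif H n →
    Ex n (fun x => ind (¬ nodeep H n L x)) ≤ (H.card : ℝ) * (1 / 2) ^ n * Real.exp (-(L : ℝ))

/-! ## Assembly -/

/-- Probability of a red bad edge. -/
def Stmt_FIN : Prop :=
  ∀ (V : Type) [Fintype V] [DecidableEq V] (H : Finset (Finset V)) (n L : ℕ) (h : ℝ),
    0 < n → 1 ≤ L → 50 * L ≤ n → 0 < h → 3 * h ≤ 100 * n → H.Nonempty → Unif H n →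
    Ex n (fun x => ind (∃ B ∈ H, RB H n B x))
      ≤ (H.card : ℝ) * (1 / 2) ^ n * Real.exp (-(L : ℝ))
        + (H.card : ℝ) ^ 2 / (n * 4 ^ n)
          * (12 + 6 * (1 + h * (1 + 27 * (1 + Real.log (2 * L)))))
        + 2 * (2500 / h + 1 / 50
          + 60000 * ((H.card : ℝ) ^ 2 / (n * 4 ^ n)) * L * Real.exp (-(47 / 100000 * h)))
        + 216 * ((H.card : ℝ) ^ 2 / (n * 4 ^ n)) * L / n

/-- The numerical estimate. -/
def Stmt_NUM : Prop :=
  ∃ n0 : ℕ, ∀ n : ℕ, n0 ≤ n → ∀ K : ℝ, 0 ≤ K →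
    K ≤ 1 / 10000 * 2 ^ n * Real.sqrt n / Real.log (Real.log n) →
    0 < n ∧ 1 ≤ ⌈Real.log n⌉₊ ∧ 50 * ⌈Real.log n⌉₊ ≤ n ∧ 0 < 5000 * Real.log (Real.log n) ∧
    3 * (5000 * Real.log (Real.log n)) ≤ 100 * n ∧
    K * (1 / 2) ^ n * Real.exp (-(⌈Real.log n⌉₊ : ℝ))
        + K ^ 2 / (n * 4 ^ n)
          * (12 + 6 * (1 + (5000 * Real.log (Real.log n))
            * (1 + 27 * (1 + Real.log (2 * ⌈Real.log n⌉₊)))))
        + 2 * (2500 / (5000 * Real.log (Real.log n)) + 1 / 50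
          + 60000 * (K ^ 2 / (n * 4 ^ n)) * ⌈Real.log n⌉₊
            * Real.exp (-(47 / 100000 * (5000 * Real.log (Real.log n)))))
        + 216 * (K ^ 2 / (n * 4 ^ n)) * ⌈Real.log n⌉₊ / n < 1 / 2

/-- The colouring theorem. -/
def Stmt_COL : Prop :=
  ∃ n0 : ℕ, ∀ n : ℕ, n0 ≤ n → 0 < n ∧
    ∀ (V : Type) [Fintype V] [DecidableEq V] (H : Finset (Finset V)), Unif H n →
    (H.card : ℝ) ≤ 1 / 10000 * 2 ^ n * Real.sqrt n / Real.log (Real.log n) →
    ∃ f : V → Bool, ∀ e ∈ H, (∃ v ∈ e, f v = true) ∧ ∃ v ∈ e, f v = false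

/-- The final statement on `m(n)`. -/
def Stmt_MNS : Prop :=
  ∀ m : ℕ → ℕ,
    (∀ n : ℕ, m n = sInf {k : ℕ | ∃ N : ℕ, ∃ H : Finset (Finset (Fin N)),
        H.card = k ∧ (∀ e ∈ H, e.card = n) ∧
        ∀ f : Fin N → Bool, ∃ e ∈ H, ∃ b : Bool, ∀ x ∈ e, f x = b}) →
    ∃ N₀ : ℕ, ∀ n : ℕ, N₀ ≤ n →
      1 / 10000 * 2 ^ n * Real.sqrt n / Real.log (Real.log n) ≤ (m n : ℝ)

end PPB
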